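import Mathlib
import Pool.Agent.W939.PC.Expand

/-!
Most families of blocks expand.
-/

set_option linter.unusedSectionVars false
set_option linter.unusedSimpArgs false
set_option linter.unusedVariables false

namespace Pool.Agent.W939.SSE

open Finset Pool.Agent.W939.PC

open Classical in
/-- At most a third of all families of blocks does not expand. -/
theorem card_not_expanding {P : Type} [Fintype P] [DecidableEq P] {N m s μ : ℕ} {γ : ℝ}
    (hN : 0 < N) (hm : m ≤ μ * N) (hγ0 : 0 < γ) (hγ1 : γ ≤ 1)
    (hγ : γ * (4 * (μ * (Fintype.card P : ℕ) * ((Fintype.card P : ℕ) + 1) *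
      Real.exp 1 ^ (Fintype.card P + 1))) ≤ 1)
    (hs : ((Fintype.card P * s : ℕ) : ℝ) ≤ γ ^ 4 * N) :
    ((univ.filter (fun ω : Fin m → P → Fin N => ¬ Expd ω s)).card : ℝ) ≤
      1 / 3 * (Fintype.card (Fin m → P → Fin N) : ℝ) := by
  set r := Fintype.card P with hr
  have hN' : (0 : ℝ) < N := by exact_mod_cast hN
  let bad : Finset (Fin m) → Finset (Fin N) → Finset (Fin m → P → Fin N) := fun T Z =>
    Fintype.piFinset (fun b => if b ∈ T then Fintype.piFinset (fun _ => Z) else univ)
  have hcov : (univ.filter (fun ω : Fin m → P → Fin N => ¬ Expd ω s)) ⊆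
      ((univ : Finset (Fin m)).powerset.filter (fun T => 1 ≤ T.card ∧ T.card ≤ s)).biUnion
        (fun T => ((univ : Finset (Fin N)).powerset.filter
          (fun Z => 4 * Z.card + 5 * T.card < 4 * (r * T.card))).biUnion (fun Z => bad T Z)) := by
    intro ω hω
    have h1 := (mem_filter.1 hω).2
    unfold Expd at h1
    push Not at h1
    obtain ⟨T, hT, hT2⟩ := h1
    have hT1 : 1 ≤ T.card := by
      by_contra h
      have : T.card = 0 := by omega
      rw [this] at hT2
      omega
    rw [mem_biUnion]
    refine ⟨T, ?_, ?_⟩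
    · rw [mem_filter, mem_powerset]
      exact ⟨subset_univ _, hT1, hT⟩
    · rw [mem_biUnion]
      refine ⟨vert ω T, ?_, ?_⟩
      · rw [mem_filter, mem_powerset]
        exact ⟨subset_univ _, hT2⟩
      · simp only [bad, Fintype.mem_piFinset]
        intro b
        split_ifs with hb
        · rw [Fintype.mem_piFinset]
          intro p
          exact (mem_vert ω).2 ⟨b, hb, p, rfl⟩
        · exact mem_univ _
  have hbad : ∀ T Z, ((bad T Z).card : ℝ) =
      (Fintype.card (Fin m → P → Fin N) : ℝ) * ((Z.card : ℝ) / N) ^ (r * T.card) := by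
    intro T Z
    have h1 : (bad T Z).card = ∏ b : Fin m, (if b ∈ T then Z.card ^ r else N ^ r) := by
      simp only [bad, Fintype.card_piFinset]
      apply Finset.prod_congr rfl
      intro b _
      split_ifs
      · rw [Fintype.card_piFinset, Finset.prod_const, Finset.card_univ, hr]
      · rw [Finset.card_univ, Fintype.card_fun, Fintype.card_fin, hr]
    have h2 : Fintype.card (Fin m → P → Fin N) = ∏ _b : Fin m, N ^ r := by
      rw [Fintype.card_fun, Fintype.card_fun, Fintype.card_fin, Fintype.card_fin,
        Finset.prod_const, Finset.card_univ, Fintype.card_fin, hr]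
    have h3 : ((Z.card : ℝ) / N) ^ (r * T.card) =
        ∏ b : Fin m, (if b ∈ T then (((Z.card : ℝ) / N) ^ r) else 1) := by
      rw [Finset.prod_ite_mem, Finset.univ_inter, Finset.prod_const, pow_mul]
    rw [h1, h2, h3]
    push_cast
    rw [← Finset.prod_mul_distrib]
    apply Finset.prod_congr rfl
    intro b _
    split_ifs
    · rw [div_pow]; field_simp
    · rw [mul_one]
  set Ω : ℝ := (Fintype.card (Fin m → P → Fin N) : ℝ) with hΩ
  have hΩ0 : 0 < Ω := by
    rw [hΩ]
    have : Nonempty (Fin N) := ⟨⟨0, hN⟩⟩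
    exact_mod_cast Fintype.card_pos
  have hle : ((univ.filter (fun ω : Fin m → P → Fin N => ¬ Expd ω s)).card : ℝ) ≤ ∑ T ∈ (univ : Finset (Fin m)).powerset.filter
      (fun T => 1 ≤ T.card ∧ T.card ≤ s),
      ∑ Z ∈ (univ : Finset (Fin N)).powerset.filter
        (fun Z => 4 * Z.card + 5 * T.card < 4 * (r * T.card)), ((bad T Z).card : ℝ) := by
    have h1 := Finset.card_le_card hcov
    have h2 := h1.trans Finset.card_biUnion_le
    have h3 : (univ.filter (fun ω : Fin m → P → Fin N => ¬ Expd ω s)).card ≤
        ∑ T ∈ (univ : Finset (Fin m)).powerset.filter (fun T => 1 ≤ T.card ∧ T.card ≤ s),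
        ∑ Z ∈ (univ : Finset (Fin N)).powerset.filter
        (fun Z => 4 * Z.card + 5 * T.card < 4 * (r * T.card)), (bad T Z).card := by
      exact h2.trans (Finset.sum_le_sum fun T _ => Finset.card_biUnion_le)
    exact_mod_cast h3
  have hsum : ∑ T ∈ (univ : Finset (Fin m)).powerset.filter
      (fun T => 1 ≤ T.card ∧ T.card ≤ s),
      ∑ Z ∈ (univ : Finset (Fin N)).powerset.filter
        (fun Z => 4 * Z.card + 5 * T.card < 4 * (r * T.card)), ((bad T Z).card : ℝ) ≤
      Ω * ∑ t ∈ range (m + 1), (if 1 ≤ t then (1 / 4 : ℝ) ^ t else 0) := by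
    have h1 : ∀ T ∈ (univ : Finset (Fin m)).powerset.filter
        (fun T => 1 ≤ T.card ∧ T.card ≤ s),
        ∑ Z ∈ (univ : Finset (Fin N)).powerset.filter
          (fun Z => 4 * Z.card + 5 * T.card < 4 * (r * T.card)), ((bad T Z).card : ℝ) ≤
        Ω * ((r * T.card : ℕ) * (Real.exp 1 ^ (r * T.card) *
          (((r * T.card : ℕ) : ℝ) / N) ^ T.card * γ ^ T.card)) := by
      intro T hT
      rw [mem_filter] at hT
      obtain ⟨-, hT1, hTs⟩ := hT
      have hx : ((r * T.card : ℕ) : ℝ) / N ≤ γ ^ 4 := by
        rw [div_le_iff₀ hN']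
        refine le_trans ?_ hs
        exact_mod_cast Nat.mul_le_mul_left r hTs
      simp only [hbad]
      rw [← Finset.mul_sum]
      apply mul_le_mul_of_nonneg_left _ hΩ0.le
      rw [Finset.sum_filter]
      rw [Finset.sum_powerset_apply_card (fun a => if 4 * a + 5 * T.card < 4 * (r * T.card) then
        ((a : ℝ) / N) ^ (r * T.card) else 0)]
      rw [Finset.card_univ, Fintype.card_fin]
      have h2 : ∀ a ∈ range (N + 1), N.choose a • (if 4 * a + 5 * T.card < 4 * (r * T.card) then
          ((a : ℝ) / N) ^ (r * T.card) else 0) ≤ (if a < r * T.card then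
          (Real.exp 1 ^ (r * T.card) * (((r * T.card : ℕ) : ℝ) / N) ^ T.card * γ ^ T.card)
          else 0) := by
        intro a _
        rw [nsmul_eq_mul]
        by_cases ha : 4 * a + 5 * T.card < 4 * (r * T.card)
        · rw [if_pos ha, if_pos (by omega)]
          exact term_a hN hγ0 hγ1 hx ha
        · rw [if_neg ha, mul_zero]
          split_ifs
          · positivity
          · exact le_rfl
      refine (Finset.sum_le_sum h2).trans ?_
      rw [← Finset.sum_filter, Finset.sum_const, nsmul_eq_mul]
      apply mul_le_mul_of_nonneg_right _ (by positivity)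
      have : ((range (N + 1)).filter (fun a => a < r * T.card)).card ≤ r * T.card := by
        calc _ ≤ (range (r * T.card)).card := by
              apply Finset.card_le_card
              intro a ha
              rw [mem_filter] at ha
              exact mem_range.2 ha.2
          _ = _ := card_range _
      exact_mod_cast this
    refine (Finset.sum_le_sum h1).trans ?_
    rw [← Finset.mul_sum]
    apply mul_le_mul_of_nonneg_left _ hΩ0.le
    rw [Finset.sum_filter]
    rw [Finset.sum_powerset_apply_card (fun t => if 1 ≤ t ∧ t ≤ s then ((r * t : ℕ) : ℝ) *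
      (Real.exp 1 ^ (r * t) * (((r * t : ℕ) : ℝ) / N) ^ t * γ ^ t) else 0)]
    rw [Finset.card_univ, Fintype.card_fin]
    apply Finset.sum_le_sum
    intro t _
    rw [nsmul_eq_mul]
    by_cases ht : 1 ≤ t ∧ t ≤ s
    · rw [if_pos ht, if_pos ht.1]
      exact term_t hN hm hγ0 hγ
    · rw [if_neg ht, mul_zero]
      split_ifs
      · positivity
      · exact le_rfl
  have hgeo : ∑ t ∈ range (m + 1), (if 1 ≤ t then (1 / 4 : ℝ) ^ t else 0) ≤ 1 / 3 := by
    rw [Finset.sum_range_succ']
    simp only [Nat.le_add_left, if_true, nonpos_iff_eq_zero, one_ne_zero, if_false, add_zero]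
    have h1 : ∀ n : ℕ, ∑ t ∈ range n, (1 / 4 : ℝ) ^ (t + 1) ≤ 1 / 3 - (1 / 3) * (1 / 4) ^ n := by
      intro n
      induction n with
      | zero => simp
      | succ n ih =>
        rw [Finset.sum_range_succ]
        have : (1 / 4 : ℝ) ^ (n + 1) = (1 / 4) * (1 / 4) ^ n := by ring
        rw [this]
        linarith
    have h2 := h1 m
    have h3 : (0 : ℝ) < (1 / 4) ^ m := by positivity
    linarith
  have := hle.trans hsum
  refine this.trans ?_
  rw [mul_comm]
  exact mul_le_mul_of_nonneg_right hgeo hΩ0.le

end Pool.Agent.W939.SSE
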