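import Mathlib
import Pool.Agent.W939.PC.Value
import Pool.Agent.W939.SSE.Expand

/-!
A random family of constraints: expansion of the blocks, few internal edges in small sets, and
nearly regular degrees, at the same time.
-/

set_option linter.unusedSectionVars false
set_option linter.unusedSimpArgs false
set_option linter.unusedVariables false

namespace Pool.Agent.W939.SSE

open Finset Pool.Agent.W939.PC

section general

variable {ι Z : Type} [Fintype ι] [DecidableEq ι] [Fintype Z] [DecidableEq Z]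

theorem sum_pi (g : Z → ℝ) :
    ∑ τ : ι → Z, ∏ i, g (τ i) = (∑ z, g z) ^ Fintype.card ι := by
  have h6 := Finset.prod_univ_sum (fun _ : ι => (univ : Finset Z)) (fun _ z => g z)
  rw [Fintype.piFinset_univ] at h6
  rw [← h6, Finset.prod_const, Finset.card_univ]

/-- Number of indices with a property. -/
def cnt (pr : Z → Prop) [DecidablePred pr] (τ : ι → Z) : ℕ :=
  (univ.filter (fun i => pr (τ i))).card

theorem cnt_mgf (pr : Z → Prop) [DecidablePred pr] {w p : ℝ} (hw : 1 ≤ w)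
    (hp : ((univ.filter pr).card : ℝ) ≤ p * Fintype.card Z) :
    ∑ τ : ι → Z, w ^ cnt pr τ ≤
      (Fintype.card (ι → Z) : ℝ) * Real.exp ((w - 1) * (p * Fintype.card ι)) := by
  have h1 : ∀ τ : ι → Z, w ^ cnt pr τ = ∏ i, (if pr (τ i) then w else 1) := by
    intro τ
    rw [← Finset.prod_filter, Finset.prod_const]
    rfl
  rw [Finset.sum_congr rfl (fun τ _ => h1 τ), sum_pi (fun z => if pr z then w else 1)]
  have h2 : ∑ z : Z, (if pr z then w else (1 : ℝ)) ≤
      (Fintype.card Z : ℝ) * Real.exp ((w - 1) * p) := by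
    have h3 : ∑ z : Z, (if pr z then w else (1 : ℝ)) =
        (Fintype.card Z : ℝ) + (w - 1) * (univ.filter pr).card := by
      have : ∀ z : Z, (if pr z then w else (1 : ℝ)) = 1 + (if pr z then (w - 1) else 0) := by
        intro z; split_ifs <;> ring
      rw [Finset.sum_congr rfl (fun z _ => this z), Finset.sum_add_distrib, ← Finset.sum_filter,
        Finset.sum_const, Finset.sum_const, Finset.card_univ, nsmul_eq_mul, nsmul_eq_mul]
      ring
    rw [h3]
    have h4 : (w - 1) * ((univ.filter pr).card : ℝ) ≤ (w - 1) * (p * Fintype.card Z) :=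
      mul_le_mul_of_nonneg_left hp (by linarith)
    have h5 : (w - 1) * p + 1 ≤ Real.exp ((w - 1) * p) := Real.add_one_le_exp _
    have h6 : (Fintype.card Z : ℝ) * ((w - 1) * p + 1) ≤
        (Fintype.card Z : ℝ) * Real.exp ((w - 1) * p) :=
      mul_le_mul_of_nonneg_left h5 (Nat.cast_nonneg _)
    linarith
  have h0 : 0 ≤ ∑ z : Z, (if pr z then w else (1 : ℝ)) := by
    apply Finset.sum_nonneg
    intro z _
    split_ifs <;> linarith
  refine (pow_le_pow_left₀ h0 h2 _).trans (le_of_eq ?_)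
  rw [mul_pow, ← Real.exp_nat_mul, Fintype.card_fun]
  push_cast
  congr 2
  ring

/-- Average excess of a count over its average `Q ^ 2`. -/
theorem excess (pr : Z → Prop) [DecidablePred pr] {p : ℝ} {Q : ℕ} (hQ : 1 ≤ Q)
    (hp : ((univ.filter pr).card : ℝ) ≤ p * Fintype.card Z)
    (hpM : p * Fintype.card ι = (Q : ℝ) ^ 2) :
    ∑ τ : ι → Z, ((cnt pr τ - Q ^ 2 : ℕ) : ℝ) ≤
      (Fintype.card (ι → Z) : ℝ) * (3 * Q) := by
  have hQ' : (1 : ℝ) ≤ Q := by exact_mod_cast hQ
  have hQ0 : (0 : ℝ) < Q := by linarith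
  set w : ℝ := Real.exp (1 / Q) with hw
  have hw1 : 1 ≤ w := by
    rw [hw]; exact Real.one_le_exp (by positivity)
  have hx1 : (1 / Q : ℝ) ≤ 1 := by rw [div_le_one hQ0]; exact hQ'
  have hw2 : w - 1 ≤ 1 / Q + 1 / Q ^ 2 := by
    have h1 : Real.exp (1 / Q) ≤ 1 + 1 / Q + (1 / Q) ^ 2 := by
      have h2 := Real.abs_exp_sub_one_sub_id_le (x := 1 / (Q : ℝ)) (by
        rw [abs_of_nonneg (by positivity)]; exact hx1)
      have h3 := (abs_le.1 h2).2
      linarith
    have h2 : (1 / (Q : ℝ)) ^ 2 = 1 / Q ^ 2 := by ring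
    rw [hw]; linarith
  have hexp : Real.exp ((w - 1) * (p * Fintype.card ι)) ≤ Real.exp (Q + 1) := by
    apply Real.exp_le_exp.2
    rw [hpM]
    calc (w - 1) * (Q : ℝ) ^ 2 ≤ (1 / Q + 1 / Q ^ 2) * (Q : ℝ) ^ 2 :=
          mul_le_mul_of_nonneg_right hw2 (by positivity)
      _ = Q + 1 := by field_simp
  have hpt : ∀ τ : ι → Z, ((cnt pr τ - Q ^ 2 : ℕ) : ℝ) ≤ (Q * Real.exp (-Q)) * w ^ cnt pr τ := by
    intro τ
    set c := cnt pr τ with hc
    have h1 : w ^ c = Real.exp (c / Q) := by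
      rw [hw, ← Real.exp_nat_mul]
      congr 1
      ring
    rw [h1, mul_assoc, ← Real.exp_add]
    by_cases h : Q ^ 2 ≤ c
    · rw [Nat.cast_sub h]
      push_cast
      have h2 := Real.add_one_le_exp (-(Q : ℝ) + c / Q)
      have h3 : ((c : ℝ) - Q ^ 2) = Q * (-(Q : ℝ) + c / Q) := by field_simp; ring
      rw [h3]
      exact mul_le_mul_of_nonneg_left (by linarith) hQ0.le
    · have : c - Q ^ 2 = 0 := by omega
      rw [this]
      push_cast
      positivity
  calc ∑ τ : ι → Z, ((cnt pr τ - Q ^ 2 : ℕ) : ℝ)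
      ≤ ∑ τ : ι → Z, (Q * Real.exp (-Q)) * w ^ cnt pr τ := Finset.sum_le_sum fun τ _ => hpt τ
    _ = (Q * Real.exp (-Q)) * ∑ τ : ι → Z, w ^ cnt pr τ := by rw [Finset.mul_sum]
    _ ≤ (Q * Real.exp (-Q)) * ((Fintype.card (ι → Z) : ℝ) * Real.exp (Q + 1)) := by
        apply mul_le_mul_of_nonneg_left _ (by positivity)
        refine (cnt_mgf pr hw1 hp).trans ?_
        exact mul_le_mul_of_nonneg_left hexp (Nat.cast_nonneg _)
    _ = (Fintype.card (ι → Z) : ℝ) * (Q * (Real.exp (-Q) * Real.exp (Q + 1))) := by ring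
    _ = (Fintype.card (ι → Z) : ℝ) * (Q * Real.exp 1) := by
        rw [← Real.exp_add]
        congr 3
        ring
    _ ≤ (Fintype.card (ι → Z) : ℝ) * (3 * Q) := by
        apply mul_le_mul_of_nonneg_left _ (Nat.cast_nonneg _)
        have h1 : Real.exp 1 < 2.7182818286 := Real.exp_one_lt_d9
        nlinarith

/-- Average number of repetitions of a rare value. -/
theorem repeats (pr : Z → Prop) [DecidablePred pr] {p s : ℝ} (hs : 1 ≤ s)
    (hp : ((univ.filter pr).card : ℝ) ≤ p * Fintype.card Z)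
    (hpM : s * (p * Fintype.card ι) ≤ 1) :
    ∑ τ : ι → Z, ((cnt pr τ - 1 : ℕ) : ℝ) ≤
      (Fintype.card (ι → Z) : ℝ) * (3 / s ^ 2) := by
  have hs0 : 0 < s := by linarith
  have hpt : ∀ τ : ι → Z, ((cnt pr τ - 1 : ℕ) : ℝ) ≤ (1 / s ^ 2) * (1 + s) ^ cnt pr τ := by
    intro τ
    set c := cnt pr τ with hc
    rcases Nat.lt_or_ge c 2 with h | h
    · have : c - 1 = 0 := by omega
      rw [this]
      push_cast
      positivity
    · obtain ⟨c', hc'⟩ : ∃ c', c = c' + 2 := ⟨c - 2, by omega⟩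
      rw [hc']
      have h1 : ((c' + 2 - 1 : ℕ) : ℝ) = c' + 1 := by
        have : c' + 2 - 1 = c' + 1 := by omega
        rw [this]; push_cast; ring
      rw [h1]
      have h2 : 1 + (c' : ℝ) * s ≤ (1 + s) ^ c' := one_add_mul_le_pow (by linarith) c'
      have h3 : (c' : ℝ) + 1 ≤ (1 + s) ^ c' := by
        have : (c' : ℝ) * 1 ≤ c' * s := mul_le_mul_of_nonneg_left hs (Nat.cast_nonneg _)
        linarith
      have h4 : s ^ 2 ≤ (1 + s) ^ 2 := pow_le_pow_left₀ hs0.le (by linarith) 2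
      rw [pow_add, div_mul_eq_mul_div, one_mul, le_div_iff₀ (by positivity)]
      calc ((c' : ℝ) + 1) * s ^ 2 ≤ (1 + s) ^ c' * (1 + s) ^ 2 :=
            mul_le_mul h3 h4 (by positivity) (by positivity)
        _ = _ := rfl
  calc ∑ τ : ι → Z, ((cnt pr τ - 1 : ℕ) : ℝ)
      ≤ ∑ τ : ι → Z, (1 / s ^ 2) * (1 + s) ^ cnt pr τ := Finset.sum_le_sum fun τ _ => hpt τ
    _ = (1 / s ^ 2) * ∑ τ : ι → Z, (1 + s) ^ cnt pr τ := by rw [Finset.mul_sum]
    _ ≤ (1 / s ^ 2) * ((Fintype.card (ι → Z) : ℝ) * Real.exp 1) := by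
        apply mul_le_mul_of_nonneg_left _ (by positivity)
        refine (cnt_mgf pr (w := 1 + s) (by linarith) hp).trans ?_
        apply mul_le_mul_of_nonneg_left _ (Nat.cast_nonneg _)
        apply Real.exp_le_exp.2
        have : 1 + s - 1 = s := by ring
        rw [this]
        exact hpM
    _ ≤ (Fintype.card (ι → Z) : ℝ) * (3 / s ^ 2) := by
        have h1 : Real.exp 1 < 2.7182818286 := Real.exp_one_lt_d9
        have h2 : (1 / s ^ 2) * ((Fintype.card (ι → Z) : ℝ) * Real.exp 1) =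
            (Fintype.card (ι → Z) : ℝ) * (Real.exp 1 / s ^ 2) := by ring
        rw [h2]
        apply mul_le_mul_of_nonneg_left _ (Nat.cast_nonneg _)
        exact div_le_div_of_nonneg_right (by linarith) (by positivity)

/-- Large deviations of sums of independent variables in `[0, q]`. -/
theorem tail (Xf : Z → ℝ) {q : ℝ} (hq : 1 ≤ q) (hX0 : ∀ z, 0 ≤ Xf z) (hXq : ∀ z, Xf z ≤ q)
    (hmean : ∑ z, Xf z ≤ (Fintype.card Z : ℝ) * (1 / q)) {ε : ℝ} (hε : 0 < ε) (hε1 : ε ≤ 1) :
    ((univ.filter (fun τ : ι → Z =>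
      (Fintype.card ι : ℝ) * (1 / q + ε) < ∑ i, Xf (τ i))).card : ℝ) ≤
      (Fintype.card (ι → Z) : ℝ) * Real.exp (-((Fintype.card ι : ℝ) * (ε ^ 2 / (4 * q)))) := by
  have hq0 : 0 < q := by linarith
  set M : ℝ := (Fintype.card ι : ℝ) with hM
  have hM0 : 0 ≤ M := Nat.cast_nonneg _
  set θ : ℝ := ε / 2 with hθ
  have hθ0 : 0 < θ := by positivity
  have hθ1 : θ ≤ 1 := by rw [hθ]; linarith
  have hexpθ : Real.exp θ - 1 ≤ θ + θ ^ 2 := by
    have h2 := Real.abs_exp_sub_one_sub_id_le (x := θ) (by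
      rw [abs_of_nonneg hθ0.le]; exact hθ1)
    have h3 := (abs_le.1 h2).2
    linarith
  have hpt : ∀ z, Real.exp (θ * (Xf z / q)) ≤ 1 + (Xf z / q) * (Real.exp θ - 1) := by
    intro z
    have h1 : 0 ≤ Xf z / q := div_nonneg (hX0 z) hq0.le
    have h2 : Xf z / q ≤ 1 := by rw [div_le_one hq0]; exact hXq z
    have := convexOn_exp.2 (Set.mem_univ (0 : ℝ)) (Set.mem_univ θ)
      (show 0 ≤ 1 - Xf z / q by linarith) h1 (by ring)
    simp only [smul_eq_mul, mul_zero, zero_add, Real.exp_zero, mul_one] at this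
    have h3 : Xf z / q * θ = θ * (Xf z / q) := by ring
    rw [h3] at this
    linarith
  have hone : ∑ z, Real.exp (θ * (Xf z / q)) ≤
      (Fintype.card Z : ℝ) * Real.exp ((θ + θ ^ 2) / q ^ 2) := by
    calc ∑ z, Real.exp (θ * (Xf z / q)) ≤ ∑ z, (1 + (Xf z / q) * (Real.exp θ - 1)) :=
          Finset.sum_le_sum fun z _ => hpt z
      _ = (Fintype.card Z : ℝ) + (∑ z, Xf z) * ((Real.exp θ - 1) / q) := by
          rw [Finset.sum_add_distrib, Finset.sum_const, Finset.card_univ, nsmul_eq_mul, mul_one,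
            Finset.sum_mul]
          congr 1
          apply Finset.sum_congr rfl
          intro z _
          ring
      _ ≤ (Fintype.card Z : ℝ) + ((Fintype.card Z : ℝ) * (1 / q)) * ((θ + θ ^ 2) / q) := by
          have h1 : 0 ≤ Real.exp θ - 1 := by
            have := Real.add_one_le_exp θ; linarith
          have h2 : (∑ z, Xf z) * ((Real.exp θ - 1) / q) ≤
              ((Fintype.card Z : ℝ) * (1 / q)) * ((Real.exp θ - 1) / q) :=
            mul_le_mul_of_nonneg_right hmean (div_nonneg h1 hq0.le)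
          have h3 : ((Fintype.card Z : ℝ) * (1 / q)) * ((Real.exp θ - 1) / q) ≤
              ((Fintype.card Z : ℝ) * (1 / q)) * ((θ + θ ^ 2) / q) := by
            apply mul_le_mul_of_nonneg_left _ (by positivity)
            exact div_le_div_of_nonneg_right hexpθ hq0.le
          linarith
      _ = (Fintype.card Z : ℝ) * ((θ + θ ^ 2) / q ^ 2 + 1) := by
          field_simp
          ring
      _ ≤ _ := mul_le_mul_of_nonneg_left (Real.add_one_le_exp _) (Nat.cast_nonneg _)
  have hall : ∑ τ : ι → Z, Real.exp (θ * ((∑ i, Xf (τ i)) / q)) ≤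
      (Fintype.card (ι → Z) : ℝ) * Real.exp (M * ((θ + θ ^ 2) / q ^ 2)) := by
    have h1 : ∀ τ : ι → Z, Real.exp (θ * ((∑ i, Xf (τ i)) / q)) =
        ∏ i, Real.exp (θ * (Xf (τ i) / q)) := by
      intro τ
      rw [← Real.exp_sum]
      congr 1
      rw [← Finset.mul_sum, Finset.sum_div]
    rw [Finset.sum_congr rfl (fun τ _ => h1 τ), sum_pi (fun z => Real.exp (θ * (Xf z / q)))]
    refine (pow_le_pow_left₀ (Finset.sum_nonneg fun z _ => (Real.exp_pos _).le) hone _).trans
      (le_of_eq ?_)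
    rw [mul_pow, ← Real.exp_nat_mul, Fintype.card_fun]
    push_cast
    rfl
  -- Markov
  set a : ℝ := Real.exp (θ * ((M * (1 / q + ε)) / q)) with ha
  have ha0 : 0 < a := Real.exp_pos _
  have hmk : ((univ.filter (fun τ : ι → Z => M * (1 / q + ε) < ∑ i, Xf (τ i))).card : ℝ) * a ≤
      ∑ τ : ι → Z, Real.exp (θ * ((∑ i, Xf (τ i)) / q)) := by
    rw [← nsmul_eq_mul, ← Finset.sum_const]
    refine le_trans (Finset.sum_le_sum (fun τ hτ => ?_))
      (Finset.sum_le_sum_of_subset_of_nonneg (filter_subset _ _)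
        (fun τ _ _ => (Real.exp_pos (θ * ((∑ i, Xf (τ i)) / q))).le))
    rw [ha]
    apply Real.exp_le_exp.2
    apply mul_le_mul_of_nonneg_left _ hθ0.le
    exact div_le_div_of_nonneg_right (mem_filter.1 hτ).2.le hq0.le
  have h3 := hmk.trans hall
  rw [← le_div_iff₀ ha0] at h3
  refine h3.trans ?_
  rw [mul_div_assoc, ha, ← Real.exp_sub]
  apply mul_le_mul_of_nonneg_left _ (Nat.cast_nonneg _)
  apply Real.exp_le_exp.2
  have h4 : M * ((θ + θ ^ 2) / q ^ 2) - θ * ((M * (1 / q + ε)) / q) =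
      M * ((θ ^ 2 / q - θ * ε) / q) := by
    field_simp
    ring
  rw [h4]
  have h5 : θ ^ 2 / q ≤ θ ^ 2 := div_le_self (by positivity) hq
  have h6 : (θ ^ 2 / q - θ * ε) / q ≤ -(ε ^ 2 / (4 * q)) := by
    have h7 : θ ^ 2 / q - θ * ε ≤ -(ε ^ 2 / 4) := by
      have : θ ^ 2 - θ * ε = -(ε ^ 2 / 4) := by rw [hθ]; ring
      linarith
    have h8 : -(ε ^ 2 / (4 * q)) = -(ε ^ 2 / 4) / q := by field_simp
    rw [h8]
    exact div_le_div_of_nonneg_right h7 hq0.le
  have h9 := mul_le_mul_of_nonneg_left h6 hM0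
  linarith

end general

end Pool.Agent.W939.SSE
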