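import Mathlib
import Pool.Agent.W939.SSE.Prob

/-!
Existence of a good family of constraints.
-/

set_option linter.unusedSectionVars false
set_option linter.unusedSimpArgs false
set_option linter.unusedVariables false

namespace Pool.Agent.W939.SSE

open Finset Pool.Agent.W939.PC

/-- A constraint: left vertex, right vertex, permutation of the labels. -/
abbrev Zt (N q : ℕ) := (Fin N × Fin N) × Equiv.Perm (Fin q)

variable {N q m k : ℕ}

theorem card_Zt : Fintype.card (Zt N q) = N * N * Fintype.card (Equiv.Perm (Fin q)) := by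
  rw [Fintype.card_prod, Fintype.card_prod, Fintype.card_fin]

theorem card_left (hN : 0 < N) (u : Fin N) :
    ((univ.filter (fun z : Zt N q => z.1.1 = u)).card : ℝ) ≤
      (1 / (N : ℝ)) * (Fintype.card (Zt N q) : ℝ) := by
  have h : (univ.filter (fun z : Zt N q => z.1.1 = u)) =
      (({u} : Finset (Fin N)) ×ˢ (univ : Finset (Fin N))) ×ˢ
        (univ : Finset (Equiv.Perm (Fin q))) := by
    ext ⟨⟨a, b⟩, ρ⟩
    simp only [mem_filter, mem_univ, true_and, mem_product, mem_singleton, and_true]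
  have hN' : (0 : ℝ) < N := by exact_mod_cast hN
  rw [h, card_Zt]
  simp only [card_product, card_singleton, card_univ, Fintype.card_fin]
  push_cast
  apply le_of_eq
  field_simp

theorem card_right (hN : 0 < N) (w : Fin N) :
    ((univ.filter (fun z : Zt N q => z.1.2 = w)).card : ℝ) ≤
      (1 / (N : ℝ)) * (Fintype.card (Zt N q) : ℝ) := by
  have h : (univ.filter (fun z : Zt N q => z.1.2 = w)) =
      ((univ : Finset (Fin N)) ×ˢ ({w} : Finset (Fin N))) ×ˢ
        (univ : Finset (Equiv.Perm (Fin q))) := by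
    ext ⟨⟨a, b⟩, ρ⟩
    simp only [mem_filter, mem_univ, true_and, mem_product, mem_singleton, and_true]
  have hN' : (0 : ℝ) < N := by exact_mod_cast hN
  rw [h, card_Zt]
  simp only [card_product, card_singleton, card_univ, Fintype.card_fin]
  push_cast
  apply le_of_eq
  field_simp

theorem card_both (hN : 0 < N) (p : Fin N × Fin N) :
    ((univ.filter (fun z : Zt N q => z.1 = p)).card : ℝ) ≤
      (1 / (N : ℝ) ^ 2) * (Fintype.card (Zt N q) : ℝ) := by
  have h : (univ.filter (fun z : Zt N q => z.1 = p)) =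
      (({p} : Finset (Fin N × Fin N))) ×ˢ (univ : Finset (Equiv.Perm (Fin q))) := by
    ext ⟨⟨a, b⟩, ρ⟩
    simp only [mem_filter, mem_univ, true_and, mem_product, mem_singleton, and_true]
  have hN' : (0 : ℝ) < N := by exact_mod_cast hN
  rw [h, card_Zt]
  simp only [card_product, card_singleton, card_univ, Fintype.card_fin]
  push_cast
  apply le_of_eq
  field_simp

/-- Number of lifted edges inside of a set. -/
def Xin (SL SR : Finset (Fin N × Fin q)) (z : Zt N q) : ℕ :=
  (univ.filter (fun a : Fin q => (z.1.1, a) ∈ SL ∧ (z.1.2, z.2 a) ∈ SR)).card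

theorem Xin_le (SL SR : Finset (Fin N × Fin q)) (z : Zt N q) : Xin SL SR z ≤ q := by
  unfold Xin
  refine (Finset.card_filter_le _ _).trans ?_
  simp

theorem card_perm_mem (SR : Finset (Fin N × Fin q)) (w : Fin N) (a : Fin q) :
    q * (univ.filter (fun ρ : Equiv.Perm (Fin q) => (w, ρ a) ∈ SR)).card =
      (univ.filter (fun b : Fin q => (w, b) ∈ SR)).card * Fintype.card (Equiv.Perm (Fin q)) := by
  have h1 : (univ.filter (fun ρ : Equiv.Perm (Fin q) => (w, ρ a) ∈ SR)).card =
      ∑ b ∈ univ.filter (fun b : Fin q => (w, b) ∈ SR),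
        ((univ : Finset (Equiv.Perm (Fin q))).filter (fun ρ => ρ a = b)).card := by
    rw [Finset.card_eq_sum_card_fiberwise (f := fun ρ : Equiv.Perm (Fin q) => ρ a)
      (t := univ.filter (fun b : Fin q => (w, b) ∈ SR))]
    · apply Finset.sum_congr rfl
      intro b hb
      congr 1
      ext ρ
      simp only [mem_filter, mem_univ, true_and] at hb ⊢
      constructor
      · exact fun h => h.2
      · intro h; rw [h]; exact ⟨hb, rfl⟩
    · intro ρ hρ
      simpa using hρ
  rw [h1, Finset.mul_sum, Finset.sum_congr rfl (fun b _ => card_perm_eq a b), Finset.sum_const,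
    smul_eq_mul]

theorem card_rows (S : Finset (Fin N × Fin q)) :
    ∑ u : Fin N, (univ.filter (fun a : Fin q => (u, a) ∈ S)).card = S.card := by
  rw [Finset.card_eq_sum_card_fiberwise (f := fun e : Fin N × Fin q => e.1) (t := univ)
    (fun _ _ => mem_univ _)]
  apply Finset.sum_congr rfl
  intro u _
  apply Finset.card_bij (fun a _ => (u, a))
  · intro a ha
    rw [mem_filter] at ha ⊢
    exact ⟨ha.2, rfl⟩
  · intro a _ b _ h
    exact (Prod.mk.inj h).2
  · intro e he
    rw [mem_filter] at he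
    refine ⟨e.2, ?_, ?_⟩
    · rw [mem_filter]
      refine ⟨mem_univ _, ?_⟩
      have : (u, e.2) = e := by rw [← he.2]
      rw [this]; exact he.1
    · rw [← he.2]

theorem sum_Xin (SL SR : Finset (Fin N × Fin q)) :
    q * ∑ z : Zt N q, Xin SL SR z =
      SL.card * SR.card * Fintype.card (Equiv.Perm (Fin q)) := by
  have h1 : ∀ u w : Fin N, q * ∑ ρ : Equiv.Perm (Fin q), Xin SL SR ((u, w), ρ) =
      (univ.filter (fun a : Fin q => (u, a) ∈ SL)).card *
        ((univ.filter (fun b : Fin q => (w, b) ∈ SR)).card *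
          Fintype.card (Equiv.Perm (Fin q))) := by
    intro u w
    have h2 : ∑ ρ : Equiv.Perm (Fin q), Xin SL SR ((u, w), ρ) =
        ∑ a ∈ univ.filter (fun a : Fin q => (u, a) ∈ SL),
          (univ.filter (fun ρ : Equiv.Perm (Fin q) => (w, ρ a) ∈ SR)).card := by
      have h3 : ∀ ρ : Equiv.Perm (Fin q), Xin SL SR ((u, w), ρ) =
          ((univ.filter (fun a : Fin q => (u, a) ∈ SL)).filter
            (fun a => (w, ρ a) ∈ SR)).card := by
        intro ρ
        unfold Xin
        rw [Finset.filter_filter]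
      rw [Finset.sum_congr rfl (fun ρ _ => h3 ρ)]
      exact Finset.sum_card_bipartiteAbove_eq_sum_card_bipartiteBelow
        (fun (ρ : Equiv.Perm (Fin q)) (a : Fin q) => (w, ρ a) ∈ SR)
    rw [h2, Finset.mul_sum, Finset.sum_congr rfl (fun a _ => card_perm_mem SR w a),
      Finset.sum_const, smul_eq_mul]
  rw [Fintype.sum_prod_type, Fintype.sum_prod_type, Finset.mul_sum]
  have h4 : ∀ u : Fin N, q * ∑ w : Fin N, ∑ ρ : Equiv.Perm (Fin q), Xin SL SR ((u, w), ρ) =
      (univ.filter (fun a : Fin q => (u, a) ∈ SL)).card *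
        (SR.card * Fintype.card (Equiv.Perm (Fin q))) := by
    intro u
    rw [Finset.mul_sum, Finset.sum_congr rfl (fun w _ => h1 u w), ← Finset.mul_sum,
      ← Finset.sum_mul, card_rows]
  rw [Finset.sum_congr rfl (fun u _ => h4 u), ← Finset.sum_mul, card_rows]
  ring

/-- The vertices of the blocks. -/
def om (τ : Fin m × Fin k → Zt N q) (b : Fin m) (p : Fin k × Bool) : Fin N :=
  if p.2 = true then (τ (b, p.1)).1.2 else (τ (b, p.1)).1.1

/-- Vertices and permutations separately. -/
def splitEquiv : (Fin m × Fin k → Zt N q) ≃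
    (Fin m → Fin k × Bool → Fin N) × (Fin m × Fin k → Equiv.Perm (Fin q)) where
  toFun τ := (om τ, fun i => (τ i).2)
  invFun p := fun i => ((p.1 i.1 (i.2, false), p.1 i.1 (i.2, true)), p.2 i)
  left_inv := by
    intro τ
    funext i
    simp [om]
  right_inv := by
    rintro ⟨ω, π⟩
    simp only [Prod.mk.injEq]
    constructor
    · funext b p
      obtain ⟨i, c⟩ := p
      cases c <;> simp [om]
    · trivial

open Classical in
theorem card_bad_om (P : (Fin m → Fin k × Bool → Fin N) → Prop) :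
    (univ.filter (fun τ : Fin m × Fin k → Zt N q => P (om τ))).card =
      (univ.filter (fun ω : Fin m → Fin k × Bool → Fin N => P ω)).card *
        Fintype.card (Fin m × Fin k → Equiv.Perm (Fin q)) := by
  rw [← Finset.card_univ (α := Fin m × Fin k → Equiv.Perm (Fin q)), ← Finset.card_product]
  apply Finset.card_equiv splitEquiv
  intro τ
  simp [splitEquiv]

theorem exists_good {s Q μ : ℕ} {γ ε : ℝ} (hN : 0 < N) (hq : 2 ≤ q) (hm : m ≤ μ * N)
    (hγ0 : 0 < γ) (hγ1 : γ ≤ 1)
    (hγ : γ * (4 * (μ * (Fintype.card (Fin k × Bool) : ℕ) *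
      ((Fintype.card (Fin k × Bool) : ℕ) + 1) *
      Real.exp 1 ^ (Fintype.card (Fin k × Bool) + 1))) ≤ 1)
    (hs : ((Fintype.card (Fin k × Bool) * s : ℕ) : ℝ) ≤ γ ^ 4 * N)
    (hM : m * k = Q ^ 2 * N) (hQ : 1 ≤ Q) (hNQ : Q ^ 3 ≤ N) (hε : 0 < ε) (hε1 : ε ≤ 1)
    (hQε : 8 * (q : ℝ) * (q + 1) ≤ ε ^ 2 * Q ^ 2) :
    ∃ τ : Fin m × Fin k → Zt N q, Expd (om τ) s ∧
      (∀ SL SR : Finset (Fin N × Fin q), SL.card + SR.card = 2 * N →
        ((∑ i, Xin SL SR (τ i) : ℕ) : ℝ) ≤ (Q : ℝ) ^ 2 * N * (1 / q + ε)) ∧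
      ∑ u, (cnt (fun z : Zt N q => z.1.1 = u) τ - Q ^ 2) +
        ∑ w, (cnt (fun z : Zt N q => z.1.2 = w) τ - Q ^ 2) +
        ∑ p, (cnt (fun z : Zt N q => z.1 = p) τ - 1) ≤ 60 * N * Q := by
  classical
  have hN' : (0 : ℝ) < N := by exact_mod_cast hN
  have hN1 : (1 : ℝ) ≤ N := by exact_mod_cast hN
  have hq' : (2 : ℝ) ≤ q := by exact_mod_cast hq
  have hQ' : (1 : ℝ) ≤ Q := by exact_mod_cast hQ
  have hMι : (Fintype.card (Fin m × Fin k) : ℝ) = (Q : ℝ) ^ 2 * N := by
    rw [Fintype.card_prod, Fintype.card_fin, Fintype.card_fin, hM]; push_cast; ring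
  set TT : ℝ := (Fintype.card (Fin m × Fin k → Zt N q) : ℝ) with hTT
  have hT0 : 0 < TT := by
    rw [hTT]
    have : Nonempty (Fin N) := ⟨⟨0, hN⟩⟩
    exact_mod_cast Fintype.card_pos
  -- expansion
  have hb1 : ((univ.filter (fun τ : Fin m × Fin k → Zt N q => ¬ Expd (om τ) s)).card : ℝ) ≤
      1 / 3 * TT := by
    have h0 : (univ.filter (fun τ : Fin m × Fin k → Zt N q => ¬ Expd (om τ) s)).card =
        (univ.filter (fun ω : Fin m → Fin k × Bool → Fin N => ¬ Expd ω s)).card *
          Fintype.card (Fin m × Fin k → Equiv.Perm (Fin q)) := by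
      convert card_bad_om (N := N) (q := q) (m := m) (k := k) (fun ω => ¬ Expd ω s)
    rw [h0]
    have h1 := card_not_expanding (P := Fin k × Bool) (N := N) (m := m) (s := s) (μ := μ) (γ := γ)
      hN hm hγ0 hγ1 hγ hs
    have h2 : TT = (Fintype.card (Fin m → Fin k × Bool → Fin N) : ℝ) *
        (Fintype.card (Fin m × Fin k → Equiv.Perm (Fin q)) : ℝ) := by
      rw [hTT, Fintype.card_congr (splitEquiv (N := N) (q := q) (m := m) (k := k)),
        Fintype.card_prod]
      push_cast; ring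
    push_cast
    rw [h2, ← mul_assoc]
    apply mul_le_mul_of_nonneg_right _ (Nat.cast_nonneg _)
    convert h1
  -- few internal edges
  let bad : Finset (Fin N × Fin q) × Finset (Fin N × Fin q) →
      Finset (Fin m × Fin k → Zt N q) := fun S =>
    univ.filter (fun τ => (Fintype.card (Fin m × Fin k) : ℝ) * (1 / (q : ℝ) + ε) <
      ∑ i, (Xin S.1 S.2 (τ i) : ℝ))
  have hbad : ∀ S : Finset (Fin N × Fin q) × Finset (Fin N × Fin q),
      S.1.card + S.2.card = 2 * N → ((bad S).card : ℝ) ≤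
        TT * Real.exp (-(2 * N * (q + 1))) := by
    intro S hS
    have h1 := tail (ι := Fin m × Fin k) (fun z : Zt N q => (Xin S.1 S.2 z : ℝ)) (q := q)
      (by linarith) (fun z => Nat.cast_nonneg _) (fun z => by exact_mod_cast Xin_le S.1 S.2 z)
      (by
        have h2 := sum_Xin S.1 S.2
        have h3 : (q : ℝ) * ∑ z : Zt N q, (Xin S.1 S.2 z : ℝ) =
            (S.1.card : ℝ) * S.2.card * (Fintype.card (Equiv.Perm (Fin q)) : ℝ) := by
          exact_mod_cast h2
        have h4 : (S.1.card : ℝ) * S.2.card ≤ (N : ℝ) * N := by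
          have h5 : (S.1.card : ℝ) + S.2.card = 2 * N := by exact_mod_cast hS
          nlinarith [sq_nonneg ((S.1.card : ℝ) - S.2.card)]
        rw [card_Zt]
        push_cast
        rw [mul_one_div, le_div_iff₀ (by linarith), mul_comm, h3]
        exact mul_le_mul_of_nonneg_right h4 (Nat.cast_nonneg _))
      hε hε1
    refine h1.trans ?_
    apply mul_le_mul_of_nonneg_left _ hT0.le
    apply Real.exp_le_exp.2
    apply neg_le_neg
    rw [hMι, ← mul_div_assoc, le_div_iff₀ (by positivity)]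
    calc 2 * (N : ℝ) * (q + 1) * (4 * q) = N * (8 * q * (q + 1)) := by ring
      _ ≤ N * (ε ^ 2 * Q ^ 2) := mul_le_mul_of_nonneg_left hQε hN'.le
      _ = (Q : ℝ) ^ 2 * N * ε ^ 2 := by ring
  let badAll : Finset (Fin m × Fin k → Zt N q) :=
    ((univ : Finset (Finset (Fin N × Fin q) × Finset (Fin N × Fin q))).filter
      (fun S => S.1.card + S.2.card = 2 * N)).biUnion bad
  have hb2 : ((badAll).card : ℝ) ≤ 1 / 6 * TT := by
    have h1 : (badAll.card : ℝ) ≤ ∑ S ∈ ((univ : Finset (Finset (Fin N × Fin q) ×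
        Finset (Fin N × Fin q))).filter (fun S => S.1.card + S.2.card = 2 * N)),
        ((bad S).card : ℝ) := by exact_mod_cast Finset.card_biUnion_le
    have h2 : ∑ S ∈ ((univ : Finset (Finset (Fin N × Fin q) ×
        Finset (Fin N × Fin q))).filter (fun S => S.1.card + S.2.card = 2 * N)),
        ((bad S).card : ℝ) ≤ ∑ S ∈ ((univ : Finset (Finset (Fin N × Fin q) ×
        Finset (Fin N × Fin q))).filter (fun S => S.1.card + S.2.card = 2 * N)),
        TT * Real.exp (-(2 * N * (q + 1))) :=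
      Finset.sum_le_sum fun S hS => hbad S (mem_filter.1 hS).2
    rw [Finset.sum_const, nsmul_eq_mul] at h2
    have h3 : ((((univ : Finset (Finset (Fin N × Fin q) × Finset (Fin N × Fin q))).filter
        (fun S => S.1.card + S.2.card = 2 * N)).card : ℕ) : ℝ) ≤ Real.exp (2 * N * q) := by
      have h4 : (((univ : Finset (Finset (Fin N × Fin q) × Finset (Fin N × Fin q))).filter
        (fun S => S.1.card + S.2.card = 2 * N)).card) ≤ 2 ^ (2 * (N * q)) := by
        refine (Finset.card_filter_le _ _).trans ?_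
        rw [Finset.card_univ, Fintype.card_prod, Fintype.card_finset, Fintype.card_prod,
          Fintype.card_fin, Fintype.card_fin, ← pow_add]
        apply le_of_eq
        congr 1
        ring
      have h5 : ((2 : ℝ) ^ (2 * (N * q))) ≤ Real.exp (2 * N * q) := by
        have h6 : (2 : ℝ) ≤ Real.exp 1 := by
          have := Real.add_one_le_exp (1 : ℝ); linarith
        refine (pow_le_pow_left₀ (by norm_num) h6 _).trans (le_of_eq ?_)
        rw [← Real.exp_nat_mul]
        congr 1
        push_cast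
        ring
      refine le_trans ?_ h5
      exact_mod_cast h4
    have h7 : Real.exp (2 * N * q) * (TT * Real.exp (-(2 * N * (q + 1)))) =
        TT * Real.exp (-(2 * N)) := by
      rw [mul_comm, mul_assoc, ← Real.exp_add]
      congr 2
      ring
    have h8 : Real.exp (-(2 * (N : ℝ))) ≤ 1 / 6 := by
      have h9 : Real.exp (-(2 * (N : ℝ))) ≤ Real.exp (-2) := Real.exp_le_exp.2 (by linarith)
      refine h9.trans ?_
      rw [Real.exp_neg, inv_le_comm₀ (Real.exp_pos _) (by norm_num)]
      have h10 : (2.7182818283 : ℝ) < Real.exp 1 := Real.exp_one_gt_d9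
      have h11 : Real.exp 2 = Real.exp 1 * Real.exp 1 := by rw [← Real.exp_add]; norm_num
      rw [h11]
      nlinarith
    calc (badAll.card : ℝ) ≤ _ := h1
      _ ≤ _ := h2
      _ ≤ Real.exp (2 * N * q) * (TT * Real.exp (-(2 * N * (q + 1)))) :=
          mul_le_mul_of_nonneg_right h3 (by positivity)
      _ = TT * Real.exp (-(2 * N)) := h7
      _ ≤ TT * (1 / 6) := mul_le_mul_of_nonneg_left h8 hT0.le
      _ = 1 / 6 * TT := by ring
  -- degrees
  let f : (Fin m × Fin k → Zt N q) → ℕ := fun τ =>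
    ∑ u, (cnt (fun z : Zt N q => z.1.1 = u) τ - Q ^ 2) +
      ∑ w, (cnt (fun z : Zt N q => z.1.2 = w) τ - Q ^ 2) +
      ∑ p, (cnt (fun z : Zt N q => z.1 = p) τ - 1)
  have hf : ∑ τ, (f τ : ℝ) ≤ TT * (9 * Q * N) := by
    have e1 : ∑ τ, (f τ : ℝ) =
        ∑ u : Fin N, ∑ τ : Fin m × Fin k → Zt N q,
          ((cnt (fun z : Zt N q => z.1.1 = u) τ - Q ^ 2 : ℕ) : ℝ) +
        ∑ w : Fin N, ∑ τ : Fin m × Fin k → Zt N q,
          ((cnt (fun z : Zt N q => z.1.2 = w) τ - Q ^ 2 : ℕ) : ℝ) +
        ∑ p : Fin N × Fin N, ∑ τ : Fin m × Fin k → Zt N q,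
          ((cnt (fun z : Zt N q => z.1 = p) τ - 1 : ℕ) : ℝ) := by
      rw [Finset.sum_comm (s := (univ : Finset (Fin N))),
        Finset.sum_comm (s := (univ : Finset (Fin N))),
        Finset.sum_comm (s := (univ : Finset (Fin N × Fin N))), ← Finset.sum_add_distrib,
        ← Finset.sum_add_distrib]
      apply Finset.sum_congr rfl
      intro τ _
      simp only [f]
      push_cast
      rfl
    have hpM : (1 / (N : ℝ)) * (Fintype.card (Fin m × Fin k) : ℝ) = (Q : ℝ) ^ 2 := by
      rw [hMι]; field_simp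
    have g1 : ∀ u : Fin N, ∑ τ : Fin m × Fin k → Zt N q,
        ((cnt (fun z : Zt N q => z.1.1 = u) τ - Q ^ 2 : ℕ) : ℝ) ≤ TT * (3 * Q) := fun u =>
      excess _ hQ (card_left hN u) hpM
    have g2 : ∀ w : Fin N, ∑ τ : Fin m × Fin k → Zt N q,
        ((cnt (fun z : Zt N q => z.1.2 = w) τ - Q ^ 2 : ℕ) : ℝ) ≤ TT * (3 * Q) := fun w =>
      excess _ hQ (card_right hN w) hpM
    have hQ3 : (Q : ℝ) ^ 3 ≤ N := by exact_mod_cast hNQ
    have hQN2 : (Q : ℝ) ^ 2 ≤ N := by
      have : (Q : ℝ) ^ 2 ≤ (Q : ℝ) ^ 3 := pow_le_pow_right₀ hQ' (by norm_num)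
      linarith
    have g3 : ∀ p : Fin N × Fin N, ∑ τ : Fin m × Fin k → Zt N q,
        ((cnt (fun z : Zt N q => z.1 = p) τ - 1 : ℕ) : ℝ) ≤
          TT * (3 / ((N : ℝ) / (Q : ℝ) ^ 2) ^ 2) := fun p =>
      repeats _ (by rw [le_div_iff₀ (by positivity)]; linarith) (card_both hN p) (by
        rw [hMι]
        apply le_of_eq
        field_simp)
    rw [e1]
    have s1 := Finset.sum_le_sum (fun (u : Fin N) (_ : u ∈ univ) => g1 u)
    have s2 := Finset.sum_le_sum (fun (w : Fin N) (_ : w ∈ univ) => g2 w)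
    have s3 := Finset.sum_le_sum (fun (p : Fin N × Fin N) (_ : p ∈ univ) => g3 p)
    rw [Finset.sum_const, Finset.card_univ, Fintype.card_fin, nsmul_eq_mul] at s1 s2
    rw [Finset.sum_const, Finset.card_univ, Fintype.card_prod, Fintype.card_fin,
      nsmul_eq_mul] at s3
    have h4 : ((N * N : ℕ) : ℝ) * (TT * (3 / ((N : ℝ) / (Q : ℝ) ^ 2) ^ 2)) =
        TT * (3 * Q ^ 4) := by
      push_cast
      field_simp
    have h5 : TT * (3 * (Q : ℝ) ^ 4) ≤ TT * (3 * Q * N) := by
      apply mul_le_mul_of_nonneg_left _ hT0.le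
      have : (Q : ℝ) * Q ^ 3 ≤ Q * N := mul_le_mul_of_nonneg_left hQ3 (by positivity)
      nlinarith
    rw [h4] at s3
    linarith
  -- combination
  by_contra hcon
  push Not at hcon
  have hcov : ∀ τ : Fin m × Fin k → Zt N q, (1 : ℝ) ≤
      (if ¬ Expd (om τ) s then 1 else 0) + (if τ ∈ badAll then 1 else 0) +
        (f τ : ℝ) / (60 * N * Q) := by
    intro τ
    have hf0 : 0 ≤ (f τ : ℝ) / (60 * N * Q) := by positivity
    by_cases h1 : Expd (om τ) s
    · by_cases h2 : ∀ SL SR : Finset (Fin N × Fin q), SL.card + SR.card = 2 * N →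
        ((∑ i, Xin SL SR (τ i) : ℕ) : ℝ) ≤ (Q : ℝ) ^ 2 * N * (1 / q + ε)
      · have h3 := hcon τ h1 h2
        have h4 : (60 * N * Q : ℝ) ≤ (f τ : ℝ) := by
          have : 60 * N * Q ≤ f τ := h3.le
          exact_mod_cast this
        have h5 : 1 ≤ (f τ : ℝ) / (60 * N * Q) := by
          rw [le_div_iff₀ (by positivity)]; linarith
        split_ifs <;> linarith
      · push Not at h2
        obtain ⟨SL, SR, h3, h4⟩ := h2
        have h5 : τ ∈ badAll := by
          simp only [badAll, mem_biUnion, mem_filter, mem_univ, true_and]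
          refine ⟨(SL, SR), h3, ?_⟩
          simp only [bad, mem_filter, mem_univ, true_and]
          rw [hMι]
          push_cast at h4
          exact h4
        rw [if_pos h5]
        split_ifs <;> linarith
    · rw [if_pos h1]
      split_ifs <;> linarith
  have hsum := Finset.sum_le_sum (fun (τ : Fin m × Fin k → Zt N q) (_ : τ ∈ univ) => hcov τ)
  rw [Finset.sum_const, Finset.card_univ, nsmul_eq_mul, mul_one, Finset.sum_add_distrib,
    Finset.sum_add_distrib, ← Finset.sum_filter, ← Finset.sum_filter, Finset.sum_const,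
    Finset.sum_const, nsmul_eq_mul, nsmul_eq_mul, mul_one, mul_one, ← Finset.sum_div] at hsum
  have h6 : ((univ.filter (fun τ => τ ∈ badAll)).card : ℝ) ≤ 1 / 6 * TT := by
    have : univ.filter (fun τ => τ ∈ badAll) = badAll := by ext; simp
    rw [this]; exact hb2
  have h7 : (∑ τ, (f τ : ℝ)) / (60 * N * Q) ≤ 9 / 60 * TT := by
    rw [div_le_iff₀ (by positivity)]
    refine hf.trans (le_of_eq ?_)
    ring
  linarith

end Pool.Agent.W939.SSE
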