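import Mathlib

/-!
Bipartite graphs with degrees at most `d` are almost contained in `d`-regular bipartite graphs.
-/

set_option linter.unusedSectionVars false
set_option linter.unusedSimpArgs false
set_option linter.unusedVariables false

namespace Pool.Agent.W939.SSE

open Finset

variable {X Y : Type} [Fintype X] [DecidableEq X] [Fintype Y] [DecidableEq Y]

/-- Degree of a left vertex. -/
def dgl (E : Finset (X × Y)) (x : X) : ℕ := (E.filter (fun e => e.1 = x)).card

/-- Degree of a right vertex. -/
def dgr (E : Finset (X × Y)) (y : Y) : ℕ := (E.filter (fun e => e.2 = y)).card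

theorem sum_dgl (E : Finset (X × Y)) : ∑ x, dgl E x = E.card := by
  unfold dgl
  exact (Finset.card_eq_sum_card_fiberwise (f := fun e : X × Y => e.1) (t := univ)
    (fun _ _ => mem_univ _)).symm

theorem sum_dgr (E : Finset (X × Y)) : ∑ y, dgr E y = E.card := by
  unfold dgr
  exact (Finset.card_eq_sum_card_fiberwise (f := fun e : X × Y => e.2) (t := univ)
    (fun _ _ => mem_univ _)).symm

theorem dgl_insert {E : Finset (X × Y)} {e : X × Y} (he : e ∉ E) (x : X) :
    dgl (insert e E) x = dgl E x + if e.1 = x then 1 else 0 := by
  unfold dgl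
  rw [Finset.filter_insert]
  split_ifs with h
  · rw [card_insert_of_notMem]
    intro h'
    exact he (mem_filter.1 h').1
  · rfl

theorem dgr_insert {E : Finset (X × Y)} {e : X × Y} (he : e ∉ E) (y : Y) :
    dgr (insert e E) y = dgr E y + if e.2 = y then 1 else 0 := by
  unfold dgr
  rw [Finset.filter_insert]
  split_ifs with h
  · rw [card_insert_of_notMem]
    intro h'
    exact he (mem_filter.1 h').1
  · rfl

theorem dgl_erase {E : Finset (X × Y)} {e : X × Y} (he : e ∈ E) (x : X) :
    dgl (E.erase e) x + (if e.1 = x then 1 else 0) = dgl E x := by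
  have := dgl_insert (notMem_erase e E) x
  rw [insert_erase he] at this
  exact this.symm

theorem dgr_erase {E : Finset (X × Y)} {e : X × Y} (he : e ∈ E) (y : Y) :
    dgr (E.erase e) y + (if e.2 = y then 1 else 0) = dgr E y := by
  have := dgr_insert (notMem_erase e E) y
  rw [insert_erase he] at this
  exact this.symm

/-- Remove edges until all degrees are at most `d`. -/
theorem trim (d : ℕ) (n : ℕ) : ∀ E0 : Finset (X × Y), E0.card = n →
    ∃ E1 ⊆ E0, (∀ x, dgl E1 x ≤ d) ∧ (∀ y, dgr E1 y ≤ d) ∧
      E0.card ≤ E1.card + (∑ x, (dgl E0 x - d) + ∑ y, (dgr E0 y - d)) := by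
  induction n with
  | zero =>
    intro E0 h0
    rw [Finset.card_eq_zero] at h0
    subst h0
    exact ⟨∅, subset_refl _, fun x => by simp [dgl], fun y => by simp [dgr], by simp⟩
  | succ n ih =>
    intro E0 hn
    by_cases hdeg : (∀ x, dgl E0 x ≤ d) ∧ (∀ y, dgr E0 y ≤ d)
    · exact ⟨E0, subset_refl _, hdeg.1, hdeg.2, by omega⟩
    · -- an edge at a vertex of large degree
      have hex : ∃ e ∈ E0, d < dgl E0 e.1 ∨ d < dgr E0 e.2 := by
        rw [not_and_or] at hdeg
        rcases hdeg with h | h
        · push Not at h
          obtain ⟨x, hx⟩ := h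
          have : 0 < dgl E0 x := by omega
          obtain ⟨e, he⟩ := card_pos.1 this
          rw [mem_filter] at he
          exact ⟨e, he.1, Or.inl (by rw [he.2]; exact hx)⟩
        · push Not at h
          obtain ⟨y, hy⟩ := h
          have : 0 < dgr E0 y := by omega
          obtain ⟨e, he⟩ := card_pos.1 this
          rw [mem_filter] at he
          exact ⟨e, he.1, Or.inr (by rw [he.2]; exact hy)⟩
      obtain ⟨e, he, hd⟩ := hex
      obtain ⟨E1, h1, h2, h3, h4⟩ := ih (E0.erase e) (by rw [card_erase_of_mem he, hn]; rfl)
      refine ⟨E1, h1.trans (erase_subset _ _), h2, h3, ?_⟩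
      rw [card_erase_of_mem he] at h4
      have hl : ∀ x, dgl (E0.erase e) x - d ≤ dgl E0 x - d := by
        intro x
        have := dgl_erase he x
        omega
      have hr : ∀ y, dgr (E0.erase e) y - d ≤ dgr E0 y - d := by
        intro y
        have := dgr_erase he y
        omega
      have hsl : ∑ x, (dgl (E0.erase e) x - d) ≤ ∑ x, (dgl E0 x - d) :=
        Finset.sum_le_sum fun x _ => hl x
      have hsr : ∑ y, (dgr (E0.erase e) y - d) ≤ ∑ y, (dgr E0 y - d) :=
        Finset.sum_le_sum fun y _ => hr y
      rcases hd with hd | hd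
      · have : ∑ x, (dgl (E0.erase e) x - d) < ∑ x, (dgl E0 x - d) := by
          apply Finset.sum_lt_sum (fun x _ => hl x)
          refine ⟨e.1, mem_univ _, ?_⟩
          have := dgl_erase he e.1
          rw [if_pos rfl] at this
          omega
        omega
      · have : ∑ y, (dgr (E0.erase e) y - d) < ∑ y, (dgr E0 y - d) := by
          apply Finset.sum_lt_sum (fun y _ => hr y)
          refine ⟨e.2, mem_univ _, ?_⟩
          have := dgr_erase he e.2
          rw [if_pos rfl] at this
          omega
        omega

theorem card_nbr (E S : Finset (X × Y)) (d : ℕ) (h : ∀ y, dgr E y ≤ d) :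
    (S.biUnion (fun f : X × Y => E.filter (fun e : X × Y => e.2 = f.2))).card ≤ S.card * d := by
  apply Finset.card_biUnion_le_card_mul
  intro f _
  exact h f.2

theorem card_nbl (E S : Finset (X × Y)) (d : ℕ) (h : ∀ x, dgl E x ≤ d) :
    (S.biUnion (fun f : X × Y => E.filter (fun e : X × Y => e.1 = f.1))).card ≤ S.card * d := by
  apply Finset.card_biUnion_le_card_mul
  intro f _
  exact h f.1

/-- Complete a graph with degrees at most `d` to a `d`-regular graph by switchings. -/
theorem complete (d n1 : ℕ) (hX : Fintype.card X = n1) (hY : Fintype.card Y = n1) (r : ℕ) :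
    ∀ E1 : Finset (X × Y), E1.card + r = d * n1 → 2 * d ^ 2 < E1.card →
      (∀ x, dgl E1 x ≤ d) → (∀ y, dgr E1 y ≤ d) →
      ∃ E : Finset (X × Y), (∀ x, dgl E x = d) ∧ (∀ y, dgr E y = d) ∧ (E1 \ E).card ≤ r := by
  induction r with
  | zero =>
    intro E1 h0 _ hl hr
    refine ⟨E1, ?_, ?_, by simp⟩
    · intro x
      by_contra hne
      have h1 : ∑ x, dgl E1 x < ∑ _x : X, d := Finset.sum_lt_sum (fun x _ => hl x)
        ⟨x, mem_univ _, lt_of_le_of_ne (hl x) hne⟩
      rw [sum_dgl, Finset.sum_const, Finset.card_univ, hX, smul_eq_mul] at h1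
      have : n1 * d = d * n1 := Nat.mul_comm _ _
      omega
    · intro y
      by_contra hne
      have h1 : ∑ y, dgr E1 y < ∑ _y : Y, d := Finset.sum_lt_sum (fun y _ => hr y)
        ⟨y, mem_univ _, lt_of_le_of_ne (hr y) hne⟩
      rw [sum_dgr, Finset.sum_const, Finset.card_univ, hY, smul_eq_mul] at h1
      have : n1 * d = d * n1 := Nat.mul_comm _ _
      omega
  | succ r ih =>
    intro E1 hc hbig hl hr
    -- deficient vertices
    have hx : ∃ x, dgl E1 x < d := by
      by_contra hcon
      push Not at hcon
      have h1 : ∑ _x : X, d ≤ ∑ x, dgl E1 x := Finset.sum_le_sum fun x _ => hcon x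
      rw [sum_dgl, Finset.sum_const, Finset.card_univ, hX, smul_eq_mul] at h1
      have : n1 * d = d * n1 := Nat.mul_comm _ _
      omega
    have hy : ∃ y, dgr E1 y < d := by
      by_contra hcon
      push Not at hcon
      have h1 : ∑ _y : Y, d ≤ ∑ y, dgr E1 y := Finset.sum_le_sum fun y _ => hcon y
      rw [sum_dgr, Finset.sum_const, Finset.card_univ, hY, smul_eq_mul] at h1
      have : n1 * d = d * n1 := Nat.mul_comm _ _
      omega
    obtain ⟨x, hx⟩ := hx
    obtain ⟨y, hy⟩ := hy
    by_cases hxy : (x, y) ∈ E1
    · -- switching
      have hex : ∃ e ∈ E1, (x, e.2) ∉ E1 ∧ (e.1, y) ∉ E1 := by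
        by_contra hcon
        push Not at hcon
        have hsub : E1 ⊆ (E1.filter (fun e => e.1 = x)).biUnion
              (fun f => E1.filter (fun e => e.2 = f.2)) ∪
            (E1.filter (fun e => e.2 = y)).biUnion
              (fun f => E1.filter (fun e => e.1 = f.1)) := by
          intro e he
          by_cases h1 : (x, e.2) ∈ E1
          · apply mem_union_left
            rw [mem_biUnion]
            exact ⟨(x, e.2), mem_filter.2 ⟨h1, rfl⟩, mem_filter.2 ⟨he, rfl⟩⟩
          · apply mem_union_right
            rw [mem_biUnion]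
            exact ⟨(e.1, y), mem_filter.2 ⟨hcon e he h1, rfl⟩, mem_filter.2 ⟨he, rfl⟩⟩
        have h2 := (Finset.card_le_card hsub).trans (Finset.card_union_le _ _)
        have h3 : ((E1.filter (fun e => e.1 = x)).biUnion
              (fun f => E1.filter (fun e => e.2 = f.2))).card ≤ d * d :=
          (card_nbr E1 _ d hr).trans (Nat.mul_le_mul_right d (hl x))
        have h4 : ((E1.filter (fun e => e.2 = y)).biUnion
              (fun f => E1.filter (fun e => e.1 = f.1))).card ≤ d * d :=
          (card_nbl E1 _ d hl).trans (Nat.mul_le_mul_right d (hr y))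
        have h5 : d ^ 2 = d * d := by ring
        omega
      obtain ⟨e, he, he1, he2⟩ := hex
      have hne1 : e.1 ≠ x := by
        intro h
        apply he1
        have : (x, e.2) = e := by rw [← h]
        rw [this]; exact he
      have hne2 : e.2 ≠ y := by
        intro h
        apply he2
        have : (e.1, y) = e := by rw [← h]
        rw [this]; exact he
      have a1 : (x, e.2) ∉ E1.erase e := fun h => he1 (mem_of_mem_erase h)
      have a2 : (e.1, y) ∉ insert (x, e.2) (E1.erase e) := by
        intro h
        rcases mem_insert.1 h with h | h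
        · exact hne1 (Prod.mk.inj h).1
        · exact he2 (mem_of_mem_erase h)
      obtain ⟨E, g1, g2, g3⟩ := ih (insert (e.1, y) (insert (x, e.2) (E1.erase e)))
        (by
          rw [card_insert_of_notMem a2, card_insert_of_notMem a1, card_erase_of_mem he]
          have : 0 < E1.card := card_pos.2 ⟨e, he⟩
          omega)
        (by
          rw [card_insert_of_notMem a2, card_insert_of_notMem a1, card_erase_of_mem he]
          omega)
        (by
          intro x'
          rw [dgl_insert a2, dgl_insert a1]
          have h1 := dgl_erase he x'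
          have h2 := hl x'
          by_cases hx' : x = x'
          · subst hx'
            rw [if_pos rfl, if_neg hne1]
            rw [if_neg hne1] at h1
            omega
          · rw [if_neg hx']
            split_ifs with h3
            · rw [if_pos h3] at h1
              omega
            · omega)
        (by
          intro y'
          rw [dgr_insert a2, dgr_insert a1]
          have h1 := dgr_erase he y'
          have h2 := hr y'
          by_cases hy' : y = y'
          · subst hy'
            rw [if_pos rfl, if_neg hne2]
            rw [if_neg hne2] at h1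
            omega
          · rw [if_neg hy']
            split_ifs with h3
            · rw [if_pos h3] at h1
              omega
            · omega)
      refine ⟨E, g1, g2, ?_⟩
      have hsub : E1 \ E ⊆ insert e ((insert (e.1, y) (insert (x, e.2) (E1.erase e))) \ E) := by
        intro f hf
        rw [mem_sdiff] at hf
        rw [mem_insert]
        by_cases hfe : f = e
        · exact Or.inl hfe
        · right
          rw [mem_sdiff]
          exact ⟨mem_insert_of_mem (mem_insert_of_mem (mem_erase.2 ⟨hfe, hf.1⟩)), hf.2⟩
      have h1 := (Finset.card_le_card hsub).trans (card_insert_le _ _)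
      omega
    · obtain ⟨E, g1, g2, g3⟩ := ih (insert (x, y) E1)
        (by rw [card_insert_of_notMem hxy]; omega)
        (by rw [card_insert_of_notMem hxy]; omega)
        (by
          intro x'
          rw [dgl_insert hxy]
          have h2 := hl x'
          split_ifs with h3
          · have h3' : x = x' := h3
            subst h3'
            omega
          · omega)
        (by
          intro y'
          rw [dgr_insert hxy]
          have h2 := hr y'
          split_ifs with h3
          · have h3' : y = y' := h3
            subst h3'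
            omega
          · omega)
      refine ⟨E, g1, g2, ?_⟩
      have hsub : E1 \ E ⊆ (insert (x, y) E1) \ E :=
        sdiff_subset_sdiff (subset_insert _ _) (subset_refl _)
      have h1 := Finset.card_le_card hsub
      omega

/-- Every bipartite graph is close to a `d`-regular graph if its degrees are close to `d`. -/
theorem exists_regular (d n1 f : ℕ) (hX : Fintype.card X = n1) (hY : Fintype.card Y = n1)
    (E0 : Finset (X × Y)) (hf : d * n1 + (∑ x, (dgl E0 x - d) + ∑ y, (dgr E0 y - d)) ≤
      E0.card + f) (hbig : 2 * d ^ 2 + f < d * n1) :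
    ∃ E : Finset (X × Y), (∀ x, dgl E x = d) ∧ (∀ y, dgr E y = d) ∧ (E \ E0).card ≤ 2 * f := by
  obtain ⟨E1, h1, h2, h3, h4⟩ := trim d E0.card E0 rfl
  have hle : E1.card ≤ d * n1 := by
    rw [← sum_dgl E1]
    calc ∑ x, dgl E1 x ≤ ∑ _x : X, d := Finset.sum_le_sum fun x _ => h2 x
      _ = d * n1 := by rw [Finset.sum_const, Finset.card_univ, hX, smul_eq_mul, Nat.mul_comm]
  obtain ⟨E, g1, g2, g3⟩ := complete d n1 hX hY (d * n1 - E1.card) E1 (by omega) (by omega) h2 h3
  refine ⟨E, g1, g2, ?_⟩
  have hE : E.card = d * n1 := by
    rw [← sum_dgl E, Finset.sum_congr rfl (fun x _ => g1 x), Finset.sum_const, Finset.card_univ,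
      hX, smul_eq_mul, Nat.mul_comm]
  have a1 : (E \ E0).card ≤ (E \ E1).card :=
    Finset.card_le_card (sdiff_subset_sdiff (subset_refl _) h1)
  have a2 : (E \ E1).card + (E ∩ E1).card = E.card := card_sdiff_add_card_inter E E1
  have a3 : (E1 \ E).card + (E1 ∩ E).card = E1.card := card_sdiff_add_card_inter E1 E
  rw [inter_comm] at a3
  omega

end Pool.Agent.W939.SSE
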