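import Mathlib
import Pool.Agent.W939.SSE.Good
import Pool.Agent.W939.SSE.Regular

/-!
The lifted edges of a family of constraints and their completion to a regular graph.
-/

set_option linter.unusedSectionVars false
set_option linter.unusedSimpArgs false
set_option linter.unusedVariables false

namespace Pool.Agent.W939.SSE

open Finset Pool.Agent.W939.PC

variable {N q : ℕ} {ι : Type} [Fintype ι] [DecidableEq ι]

/-- The lifted edge of a constraint and a label. -/
def lift (τ : ι → Zt N q) (p : ι × Fin q) : (Fin N × Fin q) × (Fin N × Fin q) :=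
  (((τ p.1).1.1, p.2), ((τ p.1).1.2, (τ p.1).2 p.2))

/-- All lifted edges. -/
def E0 (τ : ι → Zt N q) : Finset ((Fin N × Fin q) × (Fin N × Fin q)) := univ.image (lift τ)

theorem dgl_E0 (τ : ι → Zt N q) (u : Fin N) (a : Fin q) :
    dgl (E0 τ) (u, a) ≤ cnt (fun z : Zt N q => z.1.1 = u) τ := by
  unfold dgl cnt
  have h : (E0 τ).filter (fun e => e.1 = (u, a)) ⊆
      (univ.filter (fun i => (τ i).1.1 = u)).image (fun i => lift τ (i, a)) := by
    intro e he
    rw [mem_filter] at he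
    obtain ⟨h1, h2⟩ := he
    obtain ⟨⟨i, b⟩, _, rfl⟩ := mem_image.1 h1
    simp only [lift, Prod.mk.injEq] at h2
    obtain ⟨h3, rfl⟩ := h2
    exact mem_image.2 ⟨i, mem_filter.2 ⟨mem_univ _, h3⟩, rfl⟩
  exact (Finset.card_le_card h).trans Finset.card_image_le

theorem dgr_E0 (τ : ι → Zt N q) (w : Fin N) (b : Fin q) :
    dgr (E0 τ) (w, b) ≤ cnt (fun z : Zt N q => z.1.2 = w) τ := by
  unfold dgr cnt
  have h : (E0 τ).filter (fun e => e.2 = (w, b)) ⊆
      (univ.filter (fun i => (τ i).1.2 = w)).image (fun i => lift τ (i, (τ i).2.symm b)) := by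
    intro e he
    rw [mem_filter] at he
    obtain ⟨h1, h2⟩ := he
    obtain ⟨⟨i, a⟩, _, rfl⟩ := mem_image.1 h1
    simp only [lift, Prod.mk.injEq] at h2
    obtain ⟨h3, h4⟩ := h2
    refine mem_image.2 ⟨i, mem_filter.2 ⟨mem_univ _, h3⟩, ?_⟩
    have : (τ i).2.symm b = a := by rw [← h4, Equiv.symm_apply_apply]
    rw [this]
  exact (Finset.card_le_card h).trans Finset.card_image_le

theorem sum_cnt_pair (τ : ι → Zt N q) :
    ∑ p : Fin N × Fin N, cnt (fun z : Zt N q => z.1 = p) τ = Fintype.card ι := by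
  unfold cnt
  rw [← Finset.card_univ]
  exact (Finset.card_eq_sum_card_fiberwise (f := fun i : ι => (τ i).1) (t := univ)
    (fun _ _ => mem_univ _)).symm

theorem card_E0 (τ : ι → Zt N q) :
    q * Fintype.card ι ≤ (E0 τ).card +
      q * ∑ p : Fin N × Fin N, (cnt (fun z : Zt N q => z.1 = p) τ - 1) := by
  classical
  set T : Finset (Fin N × Fin N) := univ.filter (fun p => 0 < cnt (fun z : Zt N q => z.1 = p) τ)
    with hT
  have h1 : Fintype.card ι = T.card +
      ∑ p : Fin N × Fin N, (cnt (fun z : Zt N q => z.1 = p) τ - 1) := by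
    rw [← sum_cnt_pair τ, hT, Finset.card_filter, ← Finset.sum_add_distrib]
    apply Finset.sum_congr rfl
    intro p _
    split_ifs with h <;> omega
  have hch : ∀ p ∈ T, ∃ i, (τ i).1 = p := by
    intro p hp
    rw [hT, mem_filter] at hp
    obtain ⟨i, hi⟩ := card_pos.1 hp.2
    exact ⟨i, (mem_filter.1 hi).2⟩
  have h2 : T.card * q ≤ (E0 τ).card := by
    have h3 : (T ×ˢ (univ : Finset (Fin q))).card ≤ (E0 τ).card := by
      apply Finset.card_le_card_of_injOn (fun x => if h : x.1 ∈ T then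
        lift τ ((hch x.1 h).choose, x.2) else ((x.1.1, x.2), (x.1.1, x.2)))
      · intro x hx
        have hx1 : x.1 ∈ T := (mem_product.1 (by exact_mod_cast hx)).1
        simp only [hx1, dif_pos]
        exact mem_coe.2 (mem_image_of_mem _ (mem_univ _))
      · intro x hx x' hx' h
        have hx1 : x.1 ∈ T := (mem_product.1 (by exact_mod_cast hx)).1
        have hx2 : x'.1 ∈ T := (mem_product.1 (by exact_mod_cast hx')).1
        simp only [hx1, hx2, dif_pos] at h
        have g1 := (hch x.1 hx1).choose_spec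
        have g2 := (hch x'.1 hx2).choose_spec
        simp only [lift, Prod.mk.injEq] at h
        rw [g1, g2] at h
        exact Prod.ext (Prod.ext h.1.1 h.2.1) h.1.2
    rw [card_product, card_univ, Fintype.card_fin] at h3
    exact h3
  rw [h1, Nat.mul_add]
  have : q * T.card = T.card * q := Nat.mul_comm _ _
  omega

/-- Completion to a regular graph. -/
theorem exists_E {Q : ℕ} (τ : ι → Zt N q) (hι : Fintype.card ι = Q ^ 2 * N)
    (hf : ∑ u, (cnt (fun z : Zt N q => z.1.1 = u) τ - Q ^ 2) +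
        ∑ w, (cnt (fun z : Zt N q => z.1.2 = w) τ - Q ^ 2) +
        ∑ p, (cnt (fun z : Zt N q => z.1 = p) τ - 1) ≤ 60 * N * Q)
    (hbig : 2 * (Q ^ 2) ^ 2 + q * (60 * N * Q) < Q ^ 2 * (N * q)) :
    ∃ E : Finset ((Fin N × Fin q) × (Fin N × Fin q)), (∀ x, dgl E x = Q ^ 2) ∧
      (∀ y, dgr E y = Q ^ 2) ∧ (E \ E0 τ).card ≤ 2 * (q * (60 * N * Q)) := by
  apply exists_regular (Q ^ 2) (N * q) (q * (60 * N * Q)) (by simp) (by simp) (E0 τ) ?_ hbig
  have h1 : ∑ x : Fin N × Fin q, (dgl (E0 τ) x - Q ^ 2) ≤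
      q * ∑ u, (cnt (fun z : Zt N q => z.1.1 = u) τ - Q ^ 2) := by
    rw [Fintype.sum_prod_type, Finset.mul_sum]
    apply Finset.sum_le_sum
    intro u _
    calc ∑ a : Fin q, (dgl (E0 τ) (u, a) - Q ^ 2) ≤
        ∑ _a : Fin q, (cnt (fun z : Zt N q => z.1.1 = u) τ - Q ^ 2) := by
          apply Finset.sum_le_sum
          intro a _
          have := dgl_E0 τ u a
          omega
      _ = _ := by rw [Finset.sum_const, Finset.card_univ, Fintype.card_fin, smul_eq_mul]
  have h2 : ∑ x : Fin N × Fin q, (dgr (E0 τ) x - Q ^ 2) ≤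
      q * ∑ u, (cnt (fun z : Zt N q => z.1.2 = u) τ - Q ^ 2) := by
    rw [Fintype.sum_prod_type, Finset.mul_sum]
    apply Finset.sum_le_sum
    intro u _
    calc ∑ a : Fin q, (dgr (E0 τ) (u, a) - Q ^ 2) ≤
        ∑ _a : Fin q, (cnt (fun z : Zt N q => z.1.2 = u) τ - Q ^ 2) := by
          apply Finset.sum_le_sum
          intro a _
          have := dgr_E0 τ u a
          omega
      _ = _ := by rw [Finset.sum_const, Finset.card_univ, Fintype.card_fin, smul_eq_mul]
  have h3 := card_E0 τ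
  rw [hι] at h3
  have h4 := Nat.mul_le_mul_left q hf
  rw [Nat.mul_add, Nat.mul_add] at h4
  have h5 : Q ^ 2 * (N * q) = q * (Q ^ 2 * N) := by ring
  omega

/-- Internal edges of a set. -/
theorem internal_le (τ : ι → Zt N q) (E : Finset ((Fin N × Fin q) × (Fin N × Fin q)))
    (SL SR : Finset (Fin N × Fin q)) :
    (E.filter (fun e => e.1 ∈ SL ∧ e.2 ∈ SR)).card ≤
      ∑ i, Xin SL SR (τ i) + (E \ E0 τ).card := by
  have h1 : E.filter (fun e => e.1 ∈ SL ∧ e.2 ∈ SR) ⊆
      (E0 τ).filter (fun e => e.1 ∈ SL ∧ e.2 ∈ SR) ∪ (E \ E0 τ) := by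
    intro e he
    rw [mem_filter] at he
    rw [mem_union]
    by_cases h : e ∈ E0 τ
    · exact Or.inl (mem_filter.2 ⟨h, he.2⟩)
    · exact Or.inr (mem_sdiff.2 ⟨he.1, h⟩)
  have h2 : ((E0 τ).filter (fun e => e.1 ∈ SL ∧ e.2 ∈ SR)).card ≤ ∑ i, Xin SL SR (τ i) := by
    have h3 : (E0 τ).filter (fun e => e.1 ∈ SL ∧ e.2 ∈ SR) ⊆
        (univ : Finset ι).biUnion (fun i => (univ.filter (fun a : Fin q =>
          ((τ i).1.1, a) ∈ SL ∧ ((τ i).1.2, (τ i).2 a) ∈ SR)).image (fun a => lift τ (i, a))) := by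
      intro e he
      rw [mem_filter] at he
      obtain ⟨h4, h5⟩ := he
      obtain ⟨⟨i, a⟩, _, rfl⟩ := mem_image.1 h4
      rw [mem_biUnion]
      exact ⟨i, mem_univ _, mem_image.2 ⟨a, mem_filter.2 ⟨mem_univ _, h5⟩, rfl⟩⟩
    refine (Finset.card_le_card h3).trans (Finset.card_biUnion_le.trans ?_)
    apply Finset.sum_le_sum
    intro i _
    exact Finset.card_image_le
  exact (Finset.card_le_card h1).trans ((Finset.card_union_le _ _).trans
    (Nat.add_le_add_right h2 _))

end Pool.Agent.W939.SSE
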