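import Mathlib
import Pool.Agent.W939.PC.Poly

/-!
Small set expansion: the axioms of polynomial calculus which express that some set of exactly `s`
vertices cuts at most `t` edges (exact and sequential counters), and the correctness of this
encoding.
-/

set_option linter.unusedSectionVars false
set_option linter.unusedSimpArgs false
set_option linter.unusedVariables false

namespace Pool.Agent.W939.SSE

open Finset

/-- The variables: `(Sum.inl v, true)` says that the vertex `v` is in the set,
`(Sum.inr (Sum.inl (i, j)), true)` that at least `j` of the first `i` vertices are in the set,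
`(Sum.inr (Sum.inr (i, j)), true)` that at least `j` of the first `i` edges are cut; the variables
with `false` are the negations. -/
abbrev SVar (n m s t : ℕ) :=
  (Fin n ⊕ ((Fin (n + 1) × Fin (s + 2)) ⊕ (Fin (m + 1) × Fin (t + 2)))) × Bool

section defs

variable (F : Type) [Field F] {n m : ℕ} (s t : ℕ)

/-- The variable or negated variable of the vertex `v`. -/
noncomputable def vset (m : ℕ) (v : Fin n) (b : Bool) : MvPolynomial (SVar n m s t) F :=
  MvPolynomial.X (Sum.inl v, b)

/-- The variable or negated variable of the counter `(i, j)` for the vertices of the set. -/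
noncomputable def vcnt {n s : ℕ} (m t : ℕ) (i : Fin (n + 1)) (j : Fin (s + 2)) (b : Bool) :
    MvPolynomial (SVar n m s t) F :=
  MvPolynomial.X (Sum.inr (Sum.inl (i, j)), b)

/-- The variable or negated variable of the counter `(i, j)` for the cut edges. -/
noncomputable def ecnt {m t : ℕ} (n s : ℕ) (i : Fin (m + 1)) (j : Fin (t + 2)) (b : Bool) :
    MvPolynomial (SVar n m s t) F :=
  MvPolynomial.X (Sum.inr (Sum.inr (i, j)), b)

/-- The clauses which say that some set of exactly `s` vertices cuts at most `t` of the edges `ed`,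
as monomials of polynomial calculus resolution. -/
inductive SetAx {n m : ℕ} (ed : Fin m → Fin n × Fin n) (s t : ℕ) :
    MvPolynomial (SVar n m s t) F → Prop
  | bool (x : SVar n m s t) : SetAx ed s t (MvPolynomial.X x ^ 2 - MvPolynomial.X x)
  | neg (w : Fin n ⊕ ((Fin (n + 1) × Fin (s + 2)) ⊕ (Fin (m + 1) × Fin (t + 2)))) :
      SetAx ed s t (MvPolynomial.X (w, true) + MvPolynomial.X (w, false) - 1)
  | vzero (i : Fin (n + 1)) : SetAx ed s t (vcnt F m t i 0 false)
  | vnone (j : Fin (s + 1)) : SetAx ed s t (vcnt F m t 0 j.succ true)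
  | vkeep (i : Fin n) (j : Fin (s + 2)) :
      SetAx ed s t (vcnt F m t i.castSucc j true * vcnt F m t i.succ j false)
  | vstep (i : Fin n) (j : Fin (s + 1)) :
      SetAx ed s t (vcnt F m t i.castSucc j.castSucc true * vset F s t m i true *
        vcnt F m t i.succ j.succ false)
  | vjump (i : Fin n) (j : Fin (s + 1)) :
      SetAx ed s t (vcnt F m t i.castSucc j.castSucc false * vcnt F m t i.succ j.succ true)
  | vstay (i : Fin n) (j : Fin (s + 2)) :
      SetAx ed s t (vcnt F m t i.castSucc j false * vset F s t m i false *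
        vcnt F m t i.succ j true)
  | vfull : SetAx ed s t (vcnt F m t (Fin.last n) (Fin.last s).castSucc false)
  | vover : SetAx ed s t (vcnt F m t (Fin.last n) (Fin.last (s + 1)) true)
  | ezero (i : Fin (m + 1)) : SetAx ed s t (ecnt F n s i 0 false)
  | ekeep (i : Fin m) (j : Fin (t + 2)) :
      SetAx ed s t (ecnt F n s i.castSucc j true * ecnt F n s i.succ j false)
  | eout (i : Fin m) (j : Fin (t + 1)) :
      SetAx ed s t (ecnt F n s i.castSucc j.castSucc true * vset F s t m (ed i).1 true *
        vset F s t m (ed i).2 false * ecnt F n s i.succ j.succ false)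
  | ein (i : Fin m) (j : Fin (t + 1)) :
      SetAx ed s t (ecnt F n s i.castSucc j.castSucc true * vset F s t m (ed i).1 false *
        vset F s t m (ed i).2 true * ecnt F n s i.succ j.succ false)
  | elast : SetAx ed s t (ecnt F n s (Fin.last m) (Fin.last (t + 1)) true)

end defs

section count

variable {n : ℕ}

/-- Number of indices below `i` with a property. -/
def cb (P : Fin n → Prop) [DecidablePred P] (i : ℕ) : ℕ :=
  (univ.filter (fun l : Fin n => (l : ℕ) < i ∧ P l)).card

theorem cb_zero (P : Fin n → Prop) [DecidablePred P] : cb P 0 = 0 := by simp [cb]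

theorem cb_succ (P : Fin n → Prop) [DecidablePred P] (i : Fin n) :
    cb P (i + 1) = cb P i + if P i then 1 else 0 := by
  unfold cb
  by_cases h : P i
  · rw [if_pos h]
    have : (univ.filter (fun l : Fin n => (l : ℕ) < i + 1 ∧ P l)) =
        insert i (univ.filter (fun l : Fin n => (l : ℕ) < i ∧ P l)) := by
      ext l
      simp only [mem_filter, mem_univ, true_and, mem_insert]
      constructor
      · rintro ⟨h2, h3⟩
        by_cases hl : l = i
        · exact Or.inl hl
        · right
          have : (l : ℕ) ≠ i := fun h' => hl (Fin.ext h')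
          exact ⟨by omega, h3⟩
      · rintro (rfl | ⟨h2, h3⟩)
        · exact ⟨by omega, h⟩
        · exact ⟨by omega, h3⟩
    rw [this, card_insert_of_notMem]
    simp
  · rw [if_neg h, add_zero]
    congr 1
    apply Finset.filter_congr
    intro l _
    constructor
    · rintro ⟨h2, h3⟩
      have : (l : ℕ) ≠ i := by
        intro h'
        have : l = i := Fin.ext h'
        rw [this] at h3
        exact h h3
      exact ⟨by omega, h3⟩
    · rintro ⟨h2, h3⟩
      exact ⟨by omega, h3⟩

theorem cb_last (P : Fin n → Prop) [DecidablePred P] : cb P n = (univ.filter P).card := by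
  unfold cb
  congr 1
  apply Finset.filter_congr
  intro l _
  exact ⟨fun h => h.2, fun h => ⟨l.2, h⟩⟩

end count

section enc

variable {F : Type} [Field F] {n m s t : ℕ}

theorem setAx_sat (ed : Fin m → Fin n × Fin n) :
    (∃ x : SVar n m s t → F, ∀ p, SetAx F ed s t p → MvPolynomial.eval x p = 0) ↔
      ∃ S : Finset (Fin n), S.card = s ∧
        (univ.filter (fun i => ¬ ((ed i).1 ∈ S ↔ (ed i).2 ∈ S))).card ≤ t := by
  classical
  constructor
  · rintro ⟨x, hx⟩
    have hbool : ∀ z, x z = 0 ∨ x z = 1 := by
      intro z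
      have h := hx _ (SetAx.bool z)
      simp only [map_sub, map_pow, MvPolynomial.eval_X] at h
      have h2 : x z * (x z - 1) = 0 := by ring_nf; ring_nf at h; exact h
      rcases mul_eq_zero.1 h2 with h3 | h3
      · exact Or.inl h3
      · exact Or.inr (sub_eq_zero.1 h3)
    have hneg : ∀ w, x (w, true) + x (w, false) = 1 := by
      intro w
      have h := hx _ (SetAx.neg w)
      simp only [map_sub, map_add, map_one, MvPolynomial.eval_X] at h
      exact sub_eq_zero.1 h
    have hft : ∀ w, x (w, false) = 0 → x (w, true) = 1 := by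
      intro w hw
      have := hneg w
      rwa [hw, add_zero] at this
    have htf : ∀ w, x (w, true) ≠ 1 → x (w, false) = 1 := by
      intro w hw
      have h1 := (hbool (w, true)).resolve_right hw
      have := hneg w
      rwa [h1, zero_add] at this
    set S : Finset (Fin n) := univ.filter (fun v => x (Sum.inl v, true) = 1) with hS
    have hmem : ∀ v, v ∈ S ↔ x (Sum.inl v, true) = 1 := by
      intro v; rw [hS, mem_filter]; simp
    -- the counters of vertices are exact
    have hv : ∀ i : ℕ, ∀ hi : i ≤ n, ∀ j : ℕ, ∀ hj : j < s + 2,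
        x (Sum.inr (Sum.inl (⟨i, by omega⟩, ⟨j, hj⟩)), true) = 1 ↔ j ≤ cb (· ∈ S) i := by
      intro i
      induction i with
      | zero =>
        intro hi j hj
        rw [cb_zero]
        constructor
        · intro h
          by_contra hcon
          obtain ⟨j', rfl⟩ : ∃ j', j = j' + 1 := ⟨j - 1, by omega⟩
          have h2 := hx _ (SetAx.vnone (⟨j', by omega⟩ : Fin (s + 1)))
          simp only [vcnt, MvPolynomial.eval_X] at h2
          have e1 : (0 : Fin (n + 1)) = ⟨0, by omega⟩ := rfl
          have e2 : (Fin.succ (⟨j', by omega⟩ : Fin (s + 1))) = (⟨j' + 1, hj⟩ : Fin (s + 2)) := rfl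
          rw [e1, e2, h] at h2
          exact one_ne_zero h2
        · intro h
          have hj0 : j = 0 := by omega
          subst hj0
          have h2 := hx _ (SetAx.vzero (⟨0, by omega⟩ : Fin (n + 1)))
          simp only [vcnt, MvPolynomial.eval_X] at h2
          exact hft _ h2
      | succ i ih =>
        intro hi j hj
        have hc := cb_succ (· ∈ S) ⟨i, by omega⟩
        simp only at hc
        rw [hc]
        have e1 : (Fin.castSucc (⟨i, by omega⟩ : Fin n)) = (⟨i, by omega⟩ : Fin (n + 1)) := rfl
        have e2 : (Fin.succ (⟨i, by omega⟩ : Fin n)) = (⟨i + 1, by omega⟩ : Fin (n + 1)) := rfl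
        constructor
        · intro h
          by_contra hcon
          obtain ⟨j', rfl⟩ : ∃ j', j = j' + 1 := ⟨j - 1, by omega⟩
          have e3 : (Fin.castSucc (⟨j', by omega⟩ : Fin (s + 1))) =
              (⟨j', by omega⟩ : Fin (s + 2)) := rfl
          have e4 : (Fin.succ (⟨j', by omega⟩ : Fin (s + 1))) =
              (⟨j' + 1, hj⟩ : Fin (s + 2)) := rfl
          by_cases hin : (⟨i, by omega⟩ : Fin n) ∈ S
          · rw [if_pos hin] at hcon
            have h2 := ih (by omega) j' (by omega)
            have h3 : x (Sum.inr (Sum.inl (⟨i, by omega⟩, ⟨j', by omega⟩)), true) ≠ 1 := by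
              intro h'
              have := h2.1 h'
              omega
            have h4 := hx _ (SetAx.vjump (⟨i, by omega⟩ : Fin n) (⟨j', by omega⟩ : Fin (s + 1)))
            simp only [vcnt, map_mul, MvPolynomial.eval_X] at h4
            rw [e1, e2, e3, e4, htf _ h3, h, mul_one] at h4
            exact one_ne_zero h4
          · rw [if_neg hin] at hcon
            have h2 := ih (by omega) (j' + 1) hj
            have h3 : x (Sum.inr (Sum.inl (⟨i, by omega⟩, ⟨j' + 1, hj⟩)), true) ≠ 1 := by
              intro h'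
              have := h2.1 h'
              omega
            have h4 := hx _ (SetAx.vstay (⟨i, by omega⟩ : Fin n) (⟨j' + 1, hj⟩ : Fin (s + 2)))
            have h5 : x (Sum.inl (⟨i, by omega⟩ : Fin n), true) ≠ 1 := fun h' => hin ((hmem _).2 h')
            simp only [vcnt, vset, map_mul, MvPolynomial.eval_X] at h4
            rw [e1, e2, htf _ h3, htf _ h5, h, mul_one, mul_one] at h4
            exact one_ne_zero h4
        · intro h
          by_cases h1 : j ≤ cb (· ∈ S) i
          · have h2 := (ih (by omega) j hj).2 h1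
            have h3 := hx _ (SetAx.vkeep (⟨i, by omega⟩ : Fin n) (⟨j, hj⟩ : Fin (s + 2)))
            simp only [vcnt, map_mul, MvPolynomial.eval_X] at h3
            rw [e1, e2, h2, one_mul] at h3
            exact hft _ h3
          · have hin : (⟨i, by omega⟩ : Fin n) ∈ S := by
              by_contra hv
              rw [if_neg hv] at h
              omega
            rw [if_pos hin] at h
            obtain ⟨j', rfl⟩ : ∃ j', j = j' + 1 := ⟨j - 1, by omega⟩
            have h2 := (ih (by omega) j' (by omega)).2 (by omega)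
            have h3 := hx _ (SetAx.vstep (⟨i, by omega⟩ : Fin n) (⟨j', by omega⟩ : Fin (s + 1)))
            have h4 : x (Sum.inl (⟨i, by omega⟩ : Fin n), true) = 1 := (hmem _).1 hin
            simp only [vcnt, vset, map_mul, MvPolynomial.eval_X] at h3
            have e3 : (Fin.castSucc (⟨j', by omega⟩ : Fin (s + 1))) =
              (⟨j', by omega⟩ : Fin (s + 2)) := rfl
            have e4 : (Fin.succ (⟨j', by omega⟩ : Fin (s + 1))) =
              (⟨j' + 1, hj⟩ : Fin (s + 2)) := rfl
            rw [e1, e2, e3, e4, h2, h4, one_mul, one_mul] at h3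
            exact hft _ h3
    -- the counters of edges
    have he : ∀ i : ℕ, ∀ hi : i ≤ m, ∀ j : ℕ, ∀ hj : j < t + 2,
        j ≤ cb (fun i => ¬ ((ed i).1 ∈ S ↔ (ed i).2 ∈ S)) i →
        x (Sum.inr (Sum.inr (⟨i, by omega⟩, ⟨j, hj⟩)), true) = 1 := by
      intro i
      induction i with
      | zero =>
        intro hi j hj h
        rw [cb_zero] at h
        have hj0 : j = 0 := by omega
        subst hj0
        have h2 := hx _ (SetAx.ezero (⟨0, by omega⟩ : Fin (m + 1)))
        simp only [ecnt, MvPolynomial.eval_X] at h2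
        exact hft _ h2
      | succ i ih =>
        intro hi j hj h
        have hc := cb_succ (fun i => ¬ ((ed i).1 ∈ S ↔ (ed i).2 ∈ S)) ⟨i, by omega⟩
        simp only at hc
        rw [hc] at h
        have e1 : (Fin.castSucc (⟨i, by omega⟩ : Fin m)) = (⟨i, by omega⟩ : Fin (m + 1)) := rfl
        have e2 : (Fin.succ (⟨i, by omega⟩ : Fin m)) = (⟨i + 1, by omega⟩ : Fin (m + 1)) := rfl
        by_cases h1 : j ≤ cb (fun i => ¬ ((ed i).1 ∈ S ↔ (ed i).2 ∈ S)) i
        · have h2 := ih (by omega) j hj h1
          have h3 := hx _ (SetAx.ekeep (⟨i, by omega⟩ : Fin m) (⟨j, hj⟩ : Fin (t + 2)))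
          simp only [ecnt, map_mul, MvPolynomial.eval_X] at h3
          rw [e1, e2, h2, one_mul] at h3
          exact hft _ h3
        · have hcut : ¬ ((ed ⟨i, by omega⟩).1 ∈ S ↔ (ed ⟨i, by omega⟩).2 ∈ S) := by
            by_contra hv
            rw [if_neg (not_not.2 hv)] at h
            omega
          rw [if_pos hcut] at h
          obtain ⟨j', rfl⟩ : ∃ j', j = j' + 1 := ⟨j - 1, by omega⟩
          have h2 := ih (by omega) j' (by omega) (by omega)
          have e3 : (Fin.castSucc (⟨j', by omega⟩ : Fin (t + 1))) =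
            (⟨j', by omega⟩ : Fin (t + 2)) := rfl
          have e4 : (Fin.succ (⟨j', by omega⟩ : Fin (t + 1))) =
            (⟨j' + 1, hj⟩ : Fin (t + 2)) := rfl
          by_cases ha : (ed ⟨i, by omega⟩).1 ∈ S
          · have hb : (ed ⟨i, by omega⟩).2 ∉ S := fun hb => hcut ⟨fun _ => hb, fun _ => ha⟩
            have h3 := hx _ (SetAx.eout (⟨i, by omega⟩ : Fin m) (⟨j', by omega⟩ : Fin (t + 1)))
            simp only [ecnt, vset, map_mul, MvPolynomial.eval_X] at h3
            rw [e1, e2, e3, e4, h2, (hmem _).1 ha, htf _ (fun h' => hb ((hmem _).2 h')), one_mul,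
              one_mul, one_mul] at h3
            exact hft _ h3
          · have hb : (ed ⟨i, by omega⟩).2 ∈ S := by
              by_contra hb
              exact hcut ⟨fun h' => absurd h' ha, fun h' => absurd h' hb⟩
            have h3 := hx _ (SetAx.ein (⟨i, by omega⟩ : Fin m) (⟨j', by omega⟩ : Fin (t + 1)))
            simp only [ecnt, vset, map_mul, MvPolynomial.eval_X] at h3
            rw [e1, e2, e3, e4, h2, (hmem _).1 hb, htf _ (fun h' => ha ((hmem _).2 h')), one_mul,
              one_mul, one_mul] at h3
            exact hft _ h3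
    have hlast : cb (· ∈ S) n = S.card := by
      rw [cb_last]; congr 1; ext; simp
    refine ⟨S, le_antisymm ?_ ?_, ?_⟩
    · by_contra hcon
      have h1 := (hv n le_rfl (s + 1) (by omega)).2 (by rw [hlast]; omega)
      have h2 := hx _ (SetAx.vover (ed := ed) (s := s) (t := t))
      simp only [vcnt, MvPolynomial.eval_X] at h2
      have e1 : (Fin.last n) = (⟨n, by omega⟩ : Fin (n + 1)) := rfl
      have e2 : (Fin.last (s + 1)) = (⟨s + 1, by omega⟩ : Fin (s + 2)) := rfl
      rw [e1, e2, h1] at h2
      exact one_ne_zero h2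
    · rw [← hlast]
      apply (hv n le_rfl s (by omega)).1
      have h2 := hx _ (SetAx.vfull (ed := ed) (s := s) (t := t))
      simp only [vcnt, MvPolynomial.eval_X] at h2
      exact hft _ h2
    · by_contra hcon
      have h1 := he m le_rfl (t + 1) (by omega) (by rw [cb_last]; omega)
      have h2 := hx _ (SetAx.elast (ed := ed) (s := s) (t := t))
      simp only [ecnt, MvPolynomial.eval_X] at h2
      have e1 : (Fin.last m) = (⟨m, by omega⟩ : Fin (m + 1)) := rfl
      have e2 : (Fin.last (t + 1)) = (⟨t + 1, by omega⟩ : Fin (t + 2)) := rfl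
      rw [e1, e2, h1] at h2
      exact one_ne_zero h2
  · rintro ⟨S, hS, hct⟩
    have hlast : cb (· ∈ S) n = S.card := by
      rw [cb_last]; congr 1; ext; simp
    refine ⟨fun z => if (match z.1 with
      | Sum.inl v => decide (v ∈ S)
      | Sum.inr (Sum.inl (i, j)) => decide ((j : ℕ) ≤ cb (· ∈ S) i)
      | Sum.inr (Sum.inr (i, j)) =>
        decide ((j : ℕ) ≤ cb (fun i => ¬ ((ed i).1 ∈ S ↔ (ed i).2 ∈ S)) i)) = z.2
      then 1 else 0, ?_⟩
    intro p hp
    cases hp with
    | bool z =>
      simp only [map_sub, map_pow, MvPolynomial.eval_X]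
      split_ifs <;> simp
    | neg w =>
      simp only [map_sub, map_add, map_one, MvPolynomial.eval_X]
      rcases w with v | ⟨i, j⟩ | ⟨i, j⟩
      · by_cases h : v ∈ S <;> simp [h]
      · by_cases h : (j : ℕ) ≤ cb (· ∈ S) i <;> simp [h]
      · by_cases h : (j : ℕ) ≤ cb (fun i => ¬ ((ed i).1 ∈ S ↔ (ed i).2 ∈ S)) i <;> simp [h]
    | vzero i =>
      simp [vcnt, MvPolynomial.eval_X]
    | vnone j =>
      simp [vcnt, MvPolynomial.eval_X, cb_zero]
    | vkeep i j =>
      simp only [vcnt, map_mul, MvPolynomial.eval_X, Fin.val_castSucc, Fin.val_succ]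
      have hc := cb_succ (· ∈ S) i
      by_cases h : (j : ℕ) ≤ cb (· ∈ S) i
      · have h' : (j : ℕ) ≤ cb (· ∈ S) (i + 1) := by omega
        simp [h']
      · simp [h]
    | vstep i j =>
      simp only [vcnt, vset, map_mul, MvPolynomial.eval_X, Fin.val_castSucc, Fin.val_succ]
      have hc := cb_succ (· ∈ S) i
      by_cases h : (j : ℕ) ≤ cb (· ∈ S) i
      · by_cases hv : i ∈ S
        · have h' : (j : ℕ) + 1 ≤ cb (· ∈ S) (i + 1) := by rw [if_pos hv] at hc; omega
          simp [h']
        · simp [hv]
      · simp [h]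
    | vjump i j =>
      simp only [vcnt, map_mul, MvPolynomial.eval_X, Fin.val_castSucc, Fin.val_succ]
      have hc := cb_succ (· ∈ S) i
      by_cases h : (j : ℕ) ≤ cb (· ∈ S) i
      · simp [h]
      · have h' : ¬ (j : ℕ) + 1 ≤ cb (· ∈ S) (i + 1) := by
          rw [hc]; split_ifs <;> omega
        simp [h']
    | vstay i j =>
      simp only [vcnt, vset, map_mul, MvPolynomial.eval_X, Fin.val_castSucc, Fin.val_succ]
      have hc := cb_succ (· ∈ S) i
      by_cases h : (j : ℕ) ≤ cb (· ∈ S) i
      · simp [h]
      · by_cases hv : i ∈ S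
        · simp [hv]
        · have h' : ¬ (j : ℕ) ≤ cb (· ∈ S) (i + 1) := by
            rw [hc, if_neg hv]; omega
          simp [h']
    | vfull =>
      simp only [vcnt, MvPolynomial.eval_X, Fin.val_last, Fin.val_castSucc]
      have : s ≤ cb (· ∈ S) n := by rw [hlast]; omega
      simp [this]
    | vover =>
      simp only [vcnt, MvPolynomial.eval_X, Fin.val_last]
      have : ¬ (s + 1 ≤ cb (· ∈ S) n) := by rw [hlast]; omega
      simp [this]
    | ezero i =>
      simp [ecnt, MvPolynomial.eval_X]
    | ekeep i j =>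
      simp only [ecnt, map_mul, MvPolynomial.eval_X, Fin.val_castSucc, Fin.val_succ]
      have hc := cb_succ (fun i => ¬ ((ed i).1 ∈ S ↔ (ed i).2 ∈ S)) i
      by_cases h : (j : ℕ) ≤ cb (fun i => ¬ ((ed i).1 ∈ S ↔ (ed i).2 ∈ S)) i
      · have h' : (j : ℕ) ≤ cb (fun i => ¬ ((ed i).1 ∈ S ↔ (ed i).2 ∈ S)) (i + 1) := by omega
        simp [h']
      · simp [h]
    | eout i j =>
      simp only [ecnt, vset, map_mul, MvPolynomial.eval_X, Fin.val_castSucc, Fin.val_succ]
      have hc := cb_succ (fun i => ¬ ((ed i).1 ∈ S ↔ (ed i).2 ∈ S)) i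
      by_cases h : (j : ℕ) ≤ cb (fun i => ¬ ((ed i).1 ∈ S ↔ (ed i).2 ∈ S)) i
      · by_cases ha : (ed i).1 ∈ S
        · by_cases hb : (ed i).2 ∈ S
          · simp [hb]
          · have h' : (j : ℕ) + 1 ≤ cb (fun i => ¬ ((ed i).1 ∈ S ↔ (ed i).2 ∈ S)) (i + 1) := by
              rw [if_pos (fun h' => hb (h'.1 ha))] at hc; omega
            simp [h']
        · simp [ha]
      · simp [h]
    | ein i j =>
      simp only [ecnt, vset, map_mul, MvPolynomial.eval_X, Fin.val_castSucc, Fin.val_succ]
      have hc := cb_succ (fun i => ¬ ((ed i).1 ∈ S ↔ (ed i).2 ∈ S)) i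
      by_cases h : (j : ℕ) ≤ cb (fun i => ¬ ((ed i).1 ∈ S ↔ (ed i).2 ∈ S)) i
      · by_cases ha : (ed i).1 ∈ S
        · simp [ha]
        · by_cases hb : (ed i).2 ∈ S
          · have h' : (j : ℕ) + 1 ≤ cb (fun i => ¬ ((ed i).1 ∈ S ↔ (ed i).2 ∈ S)) (i + 1) := by
              rw [if_pos (fun h' => ha (h'.2 hb))] at hc; omega
            simp [h']
          · simp [hb]
      · simp [h]
    | elast =>
      simp only [ecnt, MvPolynomial.eval_X, Fin.val_last]
      have : ¬ (t + 1 ≤ cb (fun i => ¬ ((ed i).1 ∈ S ↔ (ed i).2 ∈ S)) m) := by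
        rw [cb_last]; omega
      simp [this]

theorem setAx_degree {ed : Fin m → Fin n × Fin n} {p : MvPolynomial (SVar n m s t) F}
    (hp : SetAx F ed s t p) : p.totalDegree ≤ 4 := by
  have hX : ∀ x : SVar n m s t, (MvPolynomial.X x : MvPolynomial (SVar n m s t) F).totalDegree
      ≤ 1 := by
    intro x; rw [MvPolynomial.totalDegree_X]
  have h2 : ∀ a b : MvPolynomial (SVar n m s t) F, a.totalDegree ≤ 1 → b.totalDegree ≤ 1 →
      (a * b).totalDegree ≤ 2 := by
    intro a b ha hb
    have := MvPolynomial.totalDegree_mul a b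
    omega
  have h3 : ∀ a b c : MvPolynomial (SVar n m s t) F, a.totalDegree ≤ 1 → b.totalDegree ≤ 1 →
      c.totalDegree ≤ 1 → (a * b * c).totalDegree ≤ 3 := by
    intro a b c ha hb hc
    have := MvPolynomial.totalDegree_mul (a * b) c
    have := h2 a b ha hb
    omega
  have h4 : ∀ a b c d : MvPolynomial (SVar n m s t) F, a.totalDegree ≤ 1 → b.totalDegree ≤ 1 →
      c.totalDegree ≤ 1 → d.totalDegree ≤ 1 → (a * b * c * d).totalDegree ≤ 4 := by
    intro a b c d ha hb hc hd
    have := MvPolynomial.totalDegree_mul (a * b * c) d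
    have := h3 a b c ha hb hc
    omega
  cases hp with
  | bool x =>
    refine (MvPolynomial.totalDegree_sub _ _).trans ?_
    rw [max_le_iff]
    constructor
    · refine (MvPolynomial.totalDegree_pow _ _).trans ?_
      rw [MvPolynomial.totalDegree_X]; omega
    · rw [MvPolynomial.totalDegree_X]; omega
  | neg w =>
    refine (MvPolynomial.totalDegree_sub _ _).trans ?_
    rw [max_le_iff]
    constructor
    · refine (MvPolynomial.totalDegree_add _ _).trans ?_
      rw [MvPolynomial.totalDegree_X, MvPolynomial.totalDegree_X, max_self]; omega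
    · simp
  | vzero i => exact (hX _).trans (by omega)
  | vnone j => exact (hX _).trans (by omega)
  | vkeep i j => exact (h2 _ _ (hX _) (hX _)).trans (by omega)
  | vstep i j => exact (h3 _ _ _ (hX _) (hX _) (hX _)).trans (by omega)
  | vjump i j => exact (h2 _ _ (hX _) (hX _)).trans (by omega)
  | vstay i j => exact (h3 _ _ _ (hX _) (hX _) (hX _)).trans (by omega)
  | vfull => exact (hX _).trans (by omega)
  | vover => exact (hX _).trans (by omega)
  | ezero i => exact (hX _).trans (by omega)
  | ekeep i j => exact (h2 _ _ (hX _) (hX _)).trans (by omega)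
  | eout i j => exact h4 _ _ _ _ (hX _) (hX _) (hX _) (hX _)
  | ein i j => exact h4 _ _ _ _ (hX _) (hX _) (hX _) (hX _)
  | elast => exact (hX _).trans (by omega)

end enc

end Pool.Agent.W939.SSE
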