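import Mathlib
import Pool.Agent.W939.PC.UG
import Pool.Agent.W939.SSE.Ax

/-!
The behaviour of the axioms for small sets under the reduction operator.
-/

set_option linter.unusedSectionVars false
set_option linter.unusedSimpArgs false
set_option linter.unusedVariables false

namespace Pool.Agent.W939.SSE

open Finset Pool.Agent.W939.PC

variable {V A : Type} [Fintype V] [DecidableEq V] [Fintype A] [DecidableEq A]
variable {B : ℕ} {P : Type} [Fintype P] [DecidableEq P]
variable {n m s t : ℕ}

section defs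

variable (ed : Fin m → Fin n × Fin n) (Mem : Fin n → (V → A) → Prop)
  [∀ l y, Decidable (Mem l y)] (κ : ℕ → ℕ) (R : ℕ)

/-- The edge `l` is cut. -/
def Cut (l : Fin m) (y : V → A) : Prop := ¬ (Mem (ed l).1 y ↔ Mem (ed l).2 y)

instance (l : Fin m) (y : V → A) : Decidable (Cut ed Mem l y) := by unfold Cut; infer_instance

/-- Number of cut edges before `i` in the block of `i`. -/
def cwE (i : ℕ) (y : V → A) : ℕ :=
  (univ.filter (fun l : Fin m => κ l = κ i ∧ (l : ℕ) < i ∧ Cut ed Mem l y)).card

/-- The vector of a labeling. -/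
def ohE (s t : ℕ) (y : V → A) : SVar n m s t → Bool := fun x =>
  (match x.1 with
    | Sum.inl l => decide (Mem l y)
    | Sum.inr (Sum.inl (i, j)) => decide ((j : ℕ) ≤ cb (fun l => Mem l y) i)
    | Sum.inr (Sum.inr (i, j)) => decide ((j : ℕ) ≤ R * κ i + cwE ed Mem κ i y)) == x.2

/-- The vertices on which a coordinate depends. -/
def depE (dm dk : ℕ → Finset V) (x : SVar n m s t) : Finset V :=
  match x.1 with
    | Sum.inl l => dm l
    | Sum.inr (Sum.inl (i, _)) => dm i
    | Sum.inr (Sum.inr (i, _)) => dk (κ i)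

/-- The set given by a labeling depends locally on it. -/
structure LocE (dm dk : ℕ → Finset V) : Prop where
  mem : ∀ (l : Fin n) (y y' : V → A), (∀ v ∈ dm l, y v = y' v) → (Mem l y ↔ Mem l y')
  cnt : ∀ (i : ℕ) (y y' : V → A), i ≤ n → (∀ v ∈ dm i, y v = y' v) →
    cb (fun l => Mem l y) i = cb (fun l => Mem l y') i
  fst : ∀ (l : Fin m) (y y' : V → A), (∀ v ∈ dk (κ l), y v = y' v) →
    (Mem (ed l).1 y ↔ Mem (ed l).1 y')
  snd : ∀ (l : Fin m) (y y' : V → A), (∀ v ∈ dk (κ l), y v = y' v) →
    (Mem (ed l).2 y ↔ Mem (ed l).2 y')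

end defs

variable {ed : Fin m → Fin n × Fin n} {Mem : Fin n → (V → A) → Prop}
  [∀ l y, Decidable (Mem l y)] {κ : ℕ → ℕ} {R : ℕ} {dm dk : ℕ → Finset V}

theorem cut_congr (h : LocE ed Mem κ dm dk) (l : Fin m) {y y' : V → A}
    (hy : ∀ v ∈ dk (κ l), y v = y' v) : Cut ed Mem l y ↔ Cut ed Mem l y' := by
  unfold Cut
  rw [h.fst l y y' hy, h.snd l y y' hy]

theorem cwE_congr (h : LocE ed Mem κ dm dk) (i : ℕ) {y y' : V → A}
    (hy : ∀ v ∈ dk (κ i), y v = y' v) : cwE ed Mem κ i y = cwE ed Mem κ i y' := by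
  unfold cwE
  congr 1
  apply Finset.filter_congr
  intro l _
  constructor
  · rintro ⟨h1, h2, h3⟩
    exact ⟨h1, h2, (cut_congr h l (by rw [h1]; exact hy)).1 h3⟩
  · rintro ⟨h1, h2, h3⟩
    exact ⟨h1, h2, (cut_congr h l (by rw [h1]; exact hy)).2 h3⟩

theorem dep_ohE (h : LocE ed Mem κ dm dk) :
    DepOn (ohE ed Mem κ R s t) (depE (n := n) (m := m) (s := s) (t := t) κ dm dk) := by
  rintro ⟨l | ⟨i, j⟩ | ⟨i, j⟩, c⟩ y y' hy
  · have h1 := h.mem l y y' hy
    simp only [ohE, h1]
  · have h1 := h.cnt i y y' (by omega) hy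
    simp only [ohE, h1]
  · have h1 := cwE_congr h i hy
    simp only [ohE, h1]

theorem card_depE {z : ℕ} (h1 : ∀ i, (dm i).card ≤ z) (h2 : ∀ i, (dk i).card ≤ z)
    (x : SVar n m s t) : (depE κ dm dk x).card ≤ z := by
  obtain ⟨l | ⟨i, j⟩ | ⟨i, j⟩, c⟩ := x
  · exact h1 _
  · exact h1 _
  · exact h2 _

theorem cwE_succ (i : Fin m) (y : V → A) (hi : κ (i + 1) = κ i) :
    cwE ed Mem κ (i + 1) y = cwE ed Mem κ i y + if Cut ed Mem i y then 1 else 0 := by
  unfold cwE
  rw [hi]
  by_cases h : Cut ed Mem i y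
  · rw [if_pos h]
    have : (univ.filter (fun l : Fin m => κ l = κ i ∧ (l : ℕ) < i + 1 ∧ Cut ed Mem l y)) =
        insert i (univ.filter (fun l : Fin m => κ l = κ i ∧ (l : ℕ) < i ∧ Cut ed Mem l y)) := by
      ext l
      simp only [mem_filter, mem_univ, true_and, mem_insert]
      constructor
      · rintro ⟨h1, h2, h3⟩
        by_cases hl : l = i
        · exact Or.inl hl
        · right
          have : (l : ℕ) ≠ i := fun h' => hl (Fin.ext h')
          exact ⟨h1, by omega, h3⟩
      · rintro (rfl | ⟨h1, h2, h3⟩)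
        · exact ⟨rfl, by omega, h⟩
        · exact ⟨h1, by omega, h3⟩
    rw [this, card_insert_of_notMem]
    simp
  · rw [if_neg h, add_zero]
    congr 1
    apply Finset.filter_congr
    intro l _
    constructor
    · rintro ⟨h1, h2, h3⟩
      have : (l : ℕ) ≠ i := by
        intro h'
        have : l = i := Fin.ext h'
        rw [this] at h3
        exact h h3
      exact ⟨h1, by omega, h3⟩
    · rintro ⟨h1, h2, h3⟩
      exact ⟨h1, by omega, h3⟩

theorem cwE_add_le (i : Fin m) (y : V → A) :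
    cwE ed Mem κ i y + (if Cut ed Mem i y then 1 else 0) ≤
      (univ.filter (fun l : Fin m => κ l = κ i ∧ Cut ed Mem l y)).card := by
  unfold cwE
  by_cases h : Cut ed Mem i y
  · rw [if_pos h]
    have : insert i (univ.filter (fun l : Fin m => κ l = κ i ∧ (l : ℕ) < i ∧ Cut ed Mem l y)) ⊆
        univ.filter (fun l : Fin m => κ l = κ i ∧ Cut ed Mem l y) := by
      intro l hl
      simp only [mem_filter, mem_univ, true_and, mem_insert] at hl ⊢
      rcases hl with rfl | ⟨h1, h2, h3⟩
      · exact ⟨rfl, h⟩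
      · exact ⟨h1, h3⟩
    have h2 := Finset.card_le_card this
    rw [card_insert_of_notMem (by simp)] at h2
    exact h2
  · rw [if_neg h, add_zero]
    apply Finset.card_le_card
    intro l hl
    simp only [mem_filter, mem_univ, true_and] at hl ⊢
    exact ⟨hl.1, hl.2.2⟩

theorem cwE_new (hκ : Monotone κ) (i : ℕ) (y : V → A) (hi : κ i < κ (i + 1)) :
    cwE ed Mem κ (i + 1) y = 0 := by
  unfold cwE
  rw [Finset.card_eq_zero, Finset.filter_eq_empty_iff]
  rintro l _ ⟨h1, h2, _⟩
  have : κ l ≤ κ i := hκ (by omega)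
  omega

theorem next (hκ : Monotone κ) (i : Fin m) (y : V → A) {R : ℕ}
    (hR : cwE ed Mem κ i y + (if Cut ed Mem i y then 1 else 0) ≤ R) :
    R * κ i + (cwE ed Mem κ i y + if Cut ed Mem i y then 1 else 0) ≤
      R * κ (i + 1) + cwE ed Mem κ (i + 1) y := by
  have hle : κ i ≤ κ (i + 1) := hκ (Nat.le_succ _)
  rcases Nat.lt_or_eq_of_le hle with h | h
  · have h1 : R * (κ i + 1) ≤ R * κ (i + 1) := Nat.mul_le_mul_left R h
    rw [Nat.mul_add, Nat.mul_one] at h1
    omega
  · rw [cwE_succ i y h.symm, h]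

variable {F : Type} [Field F]

theorem eval_vset (y : V → A) (v : Fin n) (c : Bool) :
    MvPolynomial.eval (bv F (ohE ed Mem κ R s t y)) (vset F s t m v c) =
      if decide (Mem v y) = c then 1 else 0 := by
  simp [vset, bv, ohE]

theorem eval_vcnt (y : V → A) (i : Fin (n + 1)) (j : Fin (s + 2)) (c : Bool) :
    MvPolynomial.eval (bv F (ohE ed Mem κ R s t y)) (vcnt F m t i j c) =
      if decide ((j : ℕ) ≤ cb (fun l => Mem l y) i) = c then 1 else 0 := by
  simp [vcnt, bv, ohE]

theorem eval_ecnt (y : V → A) (i : Fin (m + 1)) (j : Fin (t + 2)) (c : Bool) :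
    MvPolynomial.eval (bv F (ohE ed Mem κ R s t y)) (ecnt F n s i j c) =
      if decide ((j : ℕ) ≤ R * κ i + cwE ed Mem κ i y) = c then 1 else 0 := by
  simp [ecnt, bv, ohE]

theorem Rd_setAx (o : A) {pos : Fin B → P → V} {sat : Fin B → (V → A) → Prop} {w : ℕ}
    (h : LocE ed Mem κ dm dk) (hloc : Local pos sat) (hflex : Flexible pos sat)
    (hE : Expd pos w) (hP : 3 ≤ Fintype.card P) (hw : 4 * Fintype.card P ≤ w)
    (hκ : Monotone κ) (hlt : ∀ l : Fin m, κ l < κ m) (ht : R * κ m ≤ t)
    (htot : ∀ y, cb (fun l => Mem l y) n = s)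
    (hdk : ∀ b : Fin B, dk b = univ.image (pos b))
    (hsat : ∀ (b : Fin B) (y : V → A), sat b y →
      (univ.filter (fun l : Fin m => κ l = b ∧ Cut ed Mem l y)).card ≤ R)
    (hsmall : ∀ i : Fin m, B ≤ κ i → (univ.filter (fun l : Fin m => κ l = κ i)).card ≤ R)
    {p : MvPolynomial (SVar n m s t) F} (hp : SetAx F ed s t p) :
    Rd F o pos sat w (pull F (ohE ed Mem κ R s t) (toCube p)) = 0 := by
  have hzero : ∀ p : MvPolynomial (SVar n m s t) F,
      (∀ y, MvPolynomial.eval (bv F (ohE ed Mem κ R s t y)) p = 0) →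
      Rd F o pos sat w (pull F (ohE ed Mem κ R s t) (toCube p)) = 0 := by
    intro p hp
    have : pull F (ohE ed Mem κ R s t) (toCube p) = 0 := by
      funext y
      exact hp y
    rw [this, map_zero]
  -- reduction to a block
  have hblk : ∀ (i : Fin m) (p : MvPolynomial (SVar n m s t) F),
      (∀ y, cwE ed Mem κ i y + (if Cut ed Mem i y then 1 else 0) ≤ R →
        MvPolynomial.eval (bv F (ohE ed Mem κ R s t y)) p = 0) →
      (∀ y y', cwE ed Mem κ i y = cwE ed Mem κ i y' →
        cwE ed Mem κ (i + 1) y = cwE ed Mem κ (i + 1) y' →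
        (Mem (ed i).1 y ↔ Mem (ed i).1 y') → (Mem (ed i).2 y ↔ Mem (ed i).2 y') →
        MvPolynomial.eval (bv F (ohE ed Mem κ R s t y)) p =
          MvPolynomial.eval (bv F (ohE ed Mem κ R s t y')) p) →
      Rd F o pos sat w (pull F (ohE ed Mem κ R s t) (toCube p)) = 0 := by
    intro i p h0 hc
    by_cases hi : κ i < B
    · apply Rd_blk hloc hflex hE hw hP ⟨κ i, hi⟩
      · intro y y' hy
        have hy' : ∀ v ∈ dk (κ i), y v = y' v := by
          intro v hv
          rw [hdk ⟨κ i, hi⟩] at hv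
          obtain ⟨p, _, rfl⟩ := mem_image.1 hv
          exact hy p
        refine hc y y' (cwE_congr h i hy') ?_ (h.fst i y y' hy') (h.snd i y y' hy')
        have hle : κ i ≤ κ (i + 1) := hκ (Nat.le_succ _)
        rcases Nat.lt_or_eq_of_le hle with h1 | h1
        · rw [cwE_new hκ i y h1, cwE_new hκ i y' h1]
        · apply cwE_congr h
          rw [← h1]; exact hy'
      · intro y hy
        apply h0 y
        refine (cwE_add_le i y).trans ?_
        exact hsat ⟨κ i, hi⟩ y hy
    · apply hzero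
      intro y
      apply h0 y
      refine (cwE_add_le i y).trans ?_
      refine le_trans (Finset.card_le_card ?_) (hsmall i (by omega))
      intro l hl
      simp only [mem_filter, mem_univ, true_and] at hl ⊢
      exact hl.1
  cases hp with
  | bool x =>
    apply hzero
    intro y
    simp only [map_sub, map_pow, MvPolynomial.eval_X, bv]
    split_ifs <;> simp
  | neg w =>
    apply hzero
    intro y
    simp only [map_sub, map_add, map_one, MvPolynomial.eval_X, bv, ohE]
    rcases w with v | ⟨i, j⟩ | ⟨i, j⟩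
    · by_cases h : Mem v y <;> simp [h]
    · by_cases h : (j : ℕ) ≤ cb (fun l => Mem l y) i <;> simp [h]
    · by_cases h : (j : ℕ) ≤ R * κ i + cwE ed Mem κ i y <;> simp [h]
  | vzero i =>
    apply hzero
    intro y
    rw [eval_vcnt]
    simp
  | vnone j =>
    apply hzero
    intro y
    rw [eval_vcnt]
    simp [cb_zero]
  | vkeep i j =>
    apply hzero
    intro y
    simp only [map_mul, eval_vcnt, Fin.val_castSucc, Fin.val_succ]
    have hc := cb_succ (fun l => Mem l y) i
    by_cases h : (j : ℕ) ≤ cb (fun l => Mem l y) i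
    · have h' : (j : ℕ) ≤ cb (fun l => Mem l y) (i + 1) := by omega
      simp [h']
    · simp [h]
  | vstep i j =>
    apply hzero
    intro y
    simp only [map_mul, eval_vcnt, eval_vset, Fin.val_castSucc, Fin.val_succ]
    have hc := cb_succ (fun l => Mem l y) i
    by_cases h : (j : ℕ) ≤ cb (fun l => Mem l y) i
    · by_cases hv : Mem i y
      · have h' : (j : ℕ) + 1 ≤ cb (fun l => Mem l y) (i + 1) := by rw [if_pos hv] at hc; omega
        simp [h']
      · simp [hv]
    · simp [h]
  | vjump i j =>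
    apply hzero
    intro y
    simp only [map_mul, eval_vcnt, Fin.val_castSucc, Fin.val_succ]
    have hc := cb_succ (fun l => Mem l y) i
    by_cases h : (j : ℕ) ≤ cb (fun l => Mem l y) i
    · simp [h]
    · have h' : ¬ (j : ℕ) + 1 ≤ cb (fun l => Mem l y) (i + 1) := by
        rw [hc]; split_ifs <;> omega
      simp [h']
  | vstay i j =>
    apply hzero
    intro y
    simp only [map_mul, eval_vcnt, eval_vset, Fin.val_castSucc, Fin.val_succ]
    have hc := cb_succ (fun l => Mem l y) i
    by_cases h : (j : ℕ) ≤ cb (fun l => Mem l y) i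
    · simp [h]
    · by_cases hv : Mem i y
      · simp [hv]
      · have h' : ¬ (j : ℕ) ≤ cb (fun l => Mem l y) (i + 1) := by
          rw [hc, if_neg hv]; omega
        simp [h']
  | vfull =>
    apply hzero
    intro y
    rw [eval_vcnt]
    have : s ≤ cb (fun l => Mem l y) n := by rw [htot]
    simp [Fin.val_last, this]
  | vover =>
    apply hzero
    intro y
    rw [eval_vcnt]
    have : ¬ (s + 1 ≤ cb (fun l => Mem l y) n) := by rw [htot]; omega
    simp [Fin.val_last, this]
  | ezero i =>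
    apply hzero
    intro y
    rw [eval_ecnt]
    simp
  | ekeep i j =>
    apply hblk i
    · intro y hR
      simp only [map_mul, eval_ecnt, Fin.val_castSucc, Fin.val_succ]
      have hn := next hκ i y hR
      by_cases h : (j : ℕ) ≤ R * κ i + cwE ed Mem κ i y
      · have h' : (j : ℕ) ≤ R * κ (i + 1) + cwE ed Mem κ (i + 1) y := by omega
        simp [h']
      · simp [h]
    · intro y y' h1 h2 h3 h4
      simp only [map_mul, eval_ecnt, Fin.val_castSucc, Fin.val_succ, h1, h2]
  | eout i j =>
    apply hblk i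
    · intro y hR
      simp only [map_mul, eval_ecnt, eval_vset, Fin.val_castSucc, Fin.val_succ]
      have hn := next hκ i y hR
      by_cases h : (j : ℕ) ≤ R * κ i + cwE ed Mem κ i y
      · by_cases ha : Mem (ed i).1 y
        · by_cases hb : Mem (ed i).2 y
          · simp [hb]
          · have hcut : Cut ed Mem i y := fun h' => hb (h'.1 ha)
            rw [if_pos hcut] at hn
            have h' : (j : ℕ) + 1 ≤ R * κ (i + 1) + cwE ed Mem κ (i + 1) y := by omega
            simp [h']
        · simp [ha]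
      · simp [h]
    · intro y y' h1 h2 h3 h4
      simp only [map_mul, eval_ecnt, eval_vset, Fin.val_castSucc, Fin.val_succ, h1, h2, h3, h4]
  | ein i j =>
    apply hblk i
    · intro y hR
      simp only [map_mul, eval_ecnt, eval_vset, Fin.val_castSucc, Fin.val_succ]
      have hn := next hκ i y hR
      by_cases h : (j : ℕ) ≤ R * κ i + cwE ed Mem κ i y
      · by_cases ha : Mem (ed i).1 y
        · simp [ha]
        · by_cases hb : Mem (ed i).2 y
          · have hcut : Cut ed Mem i y := fun h' => ha (h'.2 hb)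
            rw [if_pos hcut] at hn
            have h' : (j : ℕ) + 1 ≤ R * κ (i + 1) + cwE ed Mem κ (i + 1) y := by omega
            simp [h']
          · simp [hb]
      · simp [h]
    · intro y y' h1 h2 h3 h4
      simp only [map_mul, eval_ecnt, eval_vset, Fin.val_castSucc, Fin.val_succ, h1, h2, h3, h4]
  | elast =>
    apply hzero
    intro y
    rw [eval_ecnt]
    have h1 : cwE ed Mem κ m y = 0 := by
      unfold cwE
      rw [Finset.card_eq_zero, Finset.filter_eq_empty_iff]
      rintro l _ ⟨h1, h2, _⟩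
      have := hlt l
      omega
    have h2 : ¬ (t + 1 ≤ R * κ m + cwE ed Mem κ m y) := by rw [h1]; omega
    simp [Fin.val_last, h2]

/-- The coordinates which are not constant. -/
def actE (n m s t : ℕ) (κ : ℕ → ℕ) (R W : ℕ) (g : ℕ → ℕ) : Finset (SVar n m s t) :=
  univ.filter (fun x => (∀ i j, x.1 = Sum.inr (Sum.inl (i, j)) → (j : ℕ) = g i + 1) ∧
    ∀ i j, x.1 = Sum.inr (Sum.inr (i, j)) → R * κ i < (j : ℕ) ∧ (j : ℕ) ≤ R * κ i + W)

/-- The values of the constant coordinates. -/
def rhoE (n m s t : ℕ) (κ : ℕ → ℕ) (R : ℕ) (g : ℕ → ℕ) (x : SVar n m s t) : Bool :=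
  match x.1 with
    | Sum.inl _ => false
    | Sum.inr (Sum.inl (i, j)) => decide ((j : ℕ) ≤ g i) == x.2
    | Sum.inr (Sum.inr (i, j)) => decide ((j : ℕ) ≤ R * κ i) == x.2

theorem rho_ohE {g : ℕ → ℕ} {W : ℕ} (hg : ∀ (y : V → A) (i : ℕ), i ≤ n →
      g i ≤ cb (fun l => Mem l y) i ∧ cb (fun l => Mem l y) i ≤ g i + 1)
    (hW : ∀ (i : ℕ) (y : V → A), cwE ed Mem κ i y ≤ W) :
    ∀ x ∉ actE n m s t κ R W g, ∀ y, ohE ed Mem κ R s t y x = rhoE n m s t κ R g x := by
  rintro ⟨w | ⟨i, j⟩ | ⟨i, j⟩, c⟩ hx y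
  · exfalso
    apply hx
    simp [actE]
  · simp only [actE, mem_filter, mem_univ, true_and] at hx
    have hx' : ¬ ((j : ℕ) = g i + 1) := by
      intro h
      apply hx
      constructor
      · intro i' j' h'
        simp only [Sum.inr.injEq, Sum.inl.injEq, Prod.mk.injEq] at h'
        obtain ⟨rfl, rfl⟩ := h'
        exact h
      · intro i' j' h'
        simp at h'
    have h1 := hg y i (by omega)
    simp only [ohE, rhoE]
    congr 1
    rw [decide_eq_decide]
    omega
  · simp only [actE, mem_filter, mem_univ, true_and] at hx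
    have hx' : ¬ (R * κ i < (j : ℕ) ∧ (j : ℕ) ≤ R * κ i + W) := by
      intro h
      apply hx
      constructor
      · intro i' j' h'
        simp at h'
      · intro i' j' h'
        simp only [Sum.inr.injEq, Prod.mk.injEq] at h'
        obtain ⟨rfl, rfl⟩ := h'
        exact h
    have h1 := hW i y
    simp only [ohE, rhoE]
    congr 1
    rw [decide_eq_decide]
    omega

theorem card_actE {g : ℕ → ℕ} {W : ℕ} :
    (actE n m s t κ R W g).card ≤ 2 * (n + ((n + 1) + (m + 1) * (W + 1))) := by
  have h1 : (actE n m s t κ R W g).card ≤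
      Fintype.card ((Fin n ⊕ (Fin (n + 1) ⊕ (Fin (m + 1) × Fin (W + 1)))) × Bool) := by
    rw [← Finset.card_univ]
    apply Finset.card_le_card_of_injOn (fun x : SVar n m s t =>
      ((match x.1 with
        | Sum.inl w => Sum.inl w
        | Sum.inr (Sum.inl (i, j)) => Sum.inr (Sum.inl i)
        | Sum.inr (Sum.inr (i, j)) =>
          Sum.inr (Sum.inr (i, ⟨((j : ℕ) - R * κ i) % (W + 1), Nat.mod_lt _ (Nat.succ_pos W)⟩)) :
        Fin n ⊕ (Fin (n + 1) ⊕ (Fin (m + 1) × Fin (W + 1)))), x.2))
    · intro x _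
      simp
    · rintro ⟨w | ⟨i, j⟩ | ⟨i, j⟩, c⟩ hx ⟨w' | ⟨i', j'⟩ | ⟨i', j'⟩, c'⟩ hx' h
      · simp only [Prod.mk.injEq, Sum.inl.injEq] at h
        obtain ⟨rfl, rfl⟩ := h
        rfl
      · simp at h
      · simp at h
      · simp at h
      · simp only [Prod.mk.injEq, Sum.inr.injEq, Sum.inl.injEq] at h
        obtain ⟨rfl, rfl⟩ := h
        simp only [actE, coe_filter, mem_univ, true_and, Set.mem_ofPred_eq] at hx hx'
        have h3 := hx.1 i j rfl
        have h4 := hx'.1 i j' rfl
        have : j = j' := Fin.ext (by omega)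
        rw [this]
      · simp at h
      · simp at h
      · simp at h
      · simp only [Prod.mk.injEq, Sum.inr.injEq, Fin.mk.injEq] at h
        obtain ⟨⟨rfl, h2⟩, rfl⟩ := h
        simp only [actE, coe_filter, mem_univ, true_and, Set.mem_ofPred_eq] at hx hx'
        have h3 := hx.2 i j rfl
        have h4 := hx'.2 i j' rfl
        have e1 : ((j : ℕ) - R * κ i) % (W + 1) = (j : ℕ) - R * κ i :=
          Nat.mod_eq_of_lt (by omega)
        have e2 : ((j' : ℕ) - R * κ i) % (W + 1) = (j' : ℕ) - R * κ i :=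
          Nat.mod_eq_of_lt (by omega)
        rw [e1, e2] at h2
        have : j = j' := Fin.ext (by omega)
        rw [this]
  refine h1.trans (le_of_eq ?_)
  simp only [Fintype.card_prod, Fintype.card_sum, Fintype.card_fin, Fintype.card_bool]
  ring

end Pool.Agent.W939.SSE
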