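import Mathlib
import Pool.Agent.W939.SSE.Graph
import Pool.Agent.W939.SSE.Items

/-!
The order of the edges and the local structure of the sets given by labelings.
-/

set_option linter.unusedSectionVars false
set_option linter.unusedSimpArgs false
set_option linter.unusedVariables false

namespace Pool.Agent.W939.SSE

open Finset Pool.Agent.W939.PC

section vertices

variable {N q : ℕ}

/-- Numbering of the vertices. -/
def nv (x : (Fin N ⊕ Fin N) × Fin q) : Fin ((N + N) * q) :=
  finProdFinEquiv (finSumFinEquiv x.1, x.2)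

/-- The vertex with a number. -/
def vn (l : Fin ((N + N) * q)) : (Fin N ⊕ Fin N) × Fin q :=
  (finSumFinEquiv.symm (finProdFinEquiv.symm l).1, (finProdFinEquiv.symm l).2)

theorem vn_nv (x : (Fin N ⊕ Fin N) × Fin q) : vn (nv x) = x := by
  simp [vn, nv]

theorem nv_vn (l : Fin ((N + N) * q)) : nv (vn l) = l := by
  unfold vn nv
  simp only [Equiv.apply_symm_apply, Prod.mk.eta]

theorem nv_inj {x y : (Fin N ⊕ Fin N) × Fin q} (h : nv x = nv y) : x = y := by
  rw [← vn_nv x, ← vn_nv y, h]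

/-- The vertex is in the set of a labeling. -/
def MemL (l : Fin ((N + N) * q)) (y : Fin N ⊕ Fin N → Fin q) : Prop := y (vn l).1 = (vn l).2

instance (l : Fin ((N + N) * q)) (y : Fin N ⊕ Fin N → Fin q) : Decidable (MemL l y) := by
  unfold MemL; infer_instance

theorem memL_nv (x : (Fin N ⊕ Fin N) × Fin q) (y : Fin N ⊕ Fin N → Fin q) :
    MemL (nv x) y ↔ y x.1 = x.2 := by
  unfold MemL; rw [vn_nv]

/-- The cluster at a position. -/
def dmL (i : ℕ) : Finset (Fin N ⊕ Fin N) :=
  if h : i / q < N + N then {finSumFinEquiv.symm ⟨i / q, h⟩} else ∅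

theorem card_dmL (i : ℕ) : (dmL (N := N) (q := q) i).card ≤ 1 := by
  unfold dmL; split_ifs <;> simp

theorem vn_fst (l : Fin ((N + N) * q)) (h : (l : ℕ) / q < N + N) :
    (vn l).1 = finSumFinEquiv.symm ⟨(l : ℕ) / q, h⟩ := by
  unfold vn
  simp only
  congr 1

theorem vn_snd (l : Fin ((N + N) * q)) : (((vn l).2 : Fin q) : ℕ) = (l : ℕ) % q := by
  unfold vn
  simp

theorem q_pos (l : Fin ((N + N) * q)) : 0 < q := by
  rcases Nat.eq_zero_or_pos q with h | h
  · exfalso
    have h1 := l.2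
    have h2 : (N + N) * q = 0 := by rw [h, Nat.mul_zero]
    omega
  · exact h

/-- The number of set vertices below a position. -/
theorem cb_memL (y : Fin N ⊕ Fin N → Fin q) (i : ℕ) (hi : i ≤ (N + N) * q) :
    cb (fun l => MemL l y) i = i / q + (if ∃ h : i / q < N + N,
      ((y (finSumFinEquiv.symm ⟨i / q, h⟩) : Fin q) : ℕ) < i % q then 1 else 0) := by
  induction i with
  | zero => simp [cb_zero]
  | succ i ih =>
    have hi' : i < (N + N) * q := hi
    have hq : 0 < q := q_pos ⟨i, hi'⟩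
    have hd : i / q < N + N := by rw [Nat.div_lt_iff_lt_mul hq]; exact hi'
    have h1 := cb_succ (fun l : Fin ((N + N) * q) => MemL l y) ⟨i, hi'⟩
    simp only at h1
    rw [h1, ih hi'.le]
    have hm : MemL (⟨i, hi'⟩ : Fin ((N + N) * q)) y ↔
        ((y (finSumFinEquiv.symm ⟨i / q, hd⟩) : Fin q) : ℕ) = i % q := by
      unfold MemL
      rw [vn_fst ⟨i, hi'⟩ hd, ← vn_snd (⟨i, hi'⟩ : Fin ((N + N) * q))]
      exact Fin.ext_iff
    have hex : (∃ h : i / q < N + N,
        ((y (finSumFinEquiv.symm ⟨i / q, h⟩) : Fin q) : ℕ) < i % q) ↔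
        ((y (finSumFinEquiv.symm ⟨i / q, hd⟩) : Fin q) : ℕ) < i % q :=
      ⟨fun ⟨_, h⟩ => h, fun h => ⟨hd, h⟩⟩
    have hyq := (y (finSumFinEquiv.symm ⟨i / q, hd⟩)).2
    have hmod := Nat.mod_lt i hq
    have e1 : (if ∃ h : i / q < N + N,
        ((y (finSumFinEquiv.symm ⟨i / q, h⟩) : Fin q) : ℕ) < i % q then 1 else 0) =
        if ((y (finSumFinEquiv.symm ⟨i / q, hd⟩) : Fin q) : ℕ) < i % q then 1 else 0 := by
      simp only [hex]
    have e2 : (if MemL (⟨i, hi'⟩ : Fin ((N + N) * q)) y then 1 else 0) =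
        if ((y (finSumFinEquiv.symm ⟨i / q, hd⟩) : Fin q) : ℕ) = i % q then 1 else 0 := by
      simp only [hm]
    rw [e1, e2]
    rcases div_succ_cases (i := i) hq with h2 | ⟨h2, h3⟩
    · have h4 : (i + 1) % q = i % q + 1 := by
        have h5 := Nat.div_add_mod i q
        have h6 := Nat.div_add_mod (i + 1) q
        rw [h2] at h6
        omega
      have hex2 : (∃ h : (i + 1) / q < N + N,
          ((y (finSumFinEquiv.symm ⟨(i + 1) / q, h⟩) : Fin q) : ℕ) < (i + 1) % q) ↔
          ((y (finSumFinEquiv.symm ⟨i / q, hd⟩) : Fin q) : ℕ) < i % q + 1 := by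
        simp only [h2, h4]
        exact ⟨fun ⟨_, h⟩ => h, fun h => ⟨hd, h⟩⟩
      have e3 : (if ∃ h : (i + 1) / q < N + N,
          ((y (finSumFinEquiv.symm ⟨(i + 1) / q, h⟩) : Fin q) : ℕ) < (i + 1) % q then 1 else 0) =
          if ((y (finSumFinEquiv.symm ⟨i / q, hd⟩) : Fin q) : ℕ) < i % q + 1 then 1 else 0 := by
        simp only [hex2]
      rw [e3, h2]
      split_ifs <;> omega
    · have h4 : (i + 1) % q = 0 := by
        have h6 := Nat.div_add_mod (i + 1) q
        omega
      have h5 : i % q + 1 = q := by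
        have h5 := Nat.div_add_mod i q
        rw [h2, Nat.mul_add, Nat.mul_one] at h3
        omega
      have hex2 : ¬ (∃ h : (i + 1) / q < N + N,
          ((y (finSumFinEquiv.symm ⟨(i + 1) / q, h⟩) : Fin q) : ℕ) < (i + 1) % q) := by
        rintro ⟨_, h⟩
        omega
      have e3 : (if ∃ h : (i + 1) / q < N + N,
          ((y (finSumFinEquiv.symm ⟨(i + 1) / q, h⟩) : Fin q) : ℕ) < (i + 1) % q then 1 else 0) =
          0 := if_neg hex2
      rw [e3, h2]
      split_ifs <;> omega

theorem cb_memL_total (hq : 0 < q) (y : Fin N ⊕ Fin N → Fin q) :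
    cb (fun l => MemL l y) ((N + N) * q) = N + N := by
  rw [cb_memL y _ le_rfl]
  have h0 : (N + N) * q / q = N + N := Nat.mul_div_cancel _ hq
  have hne : ¬ (∃ h : (N + N) * q / q < N + N,
      ((y (finSumFinEquiv.symm ⟨(N + N) * q / q, h⟩) : Fin q) : ℕ) < (N + N) * q % q) := by
    rintro ⟨h, _⟩
    omega
  have e : (if ∃ h : (N + N) * q / q < N + N,
      ((y (finSumFinEquiv.symm ⟨(N + N) * q / q, h⟩) : Fin q) : ℕ) < (N + N) * q % q
      then 1 else 0) = 0 := if_neg hne
  rw [e, h0, Nat.add_zero]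

/-- Bounds for the number of set vertices below a position. -/
theorem cb_memL_bounds (y : Fin N ⊕ Fin N → Fin q) (i : ℕ) (hi : i ≤ (N + N) * q) :
    i / q ≤ cb (fun l => MemL l y) i ∧ cb (fun l => MemL l y) i ≤ i / q + 1 := by
  rw [cb_memL y i hi]
  split_ifs <;> omega

end vertices

section order

/-- Enumeration of a finite set along a key. -/
theorem exists_enum {α : Type} [DecidableEq α] (E : Finset α) (key : α → ℕ) :
    ∃ f : Fin E.card → α, Function.Injective f ∧ (∀ e, e ∈ E ↔ ∃ i, f i = e) ∧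
      ∀ i j, i ≤ j → key (f i) ≤ key (f j) := by
  let e0 : Fin E.card ≃ E := E.equivFin.symm
  let g : Fin E.card → ℕ := fun i => key (e0 i)
  have hs := Tuple.monotone_sort g
  refine ⟨fun i => (e0 (Tuple.sort g i) : α), ?_, ?_, ?_⟩
  · intro i j h
    have h1 : e0 (Tuple.sort g i) = e0 (Tuple.sort g j) := Subtype.ext h
    exact (Tuple.sort g).injective (e0.injective h1)
  · intro e
    constructor
    · intro he
      refine ⟨(Tuple.sort g).symm (e0.symm ⟨e, he⟩), ?_⟩
      simp
    · rintro ⟨i, rfl⟩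
      exact (e0 (Tuple.sort g i)).2
  · intro i j hij
    exact hs hij

end order

end Pool.Agent.W939.SSE
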