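import Mathlib
import Pool.Agent.W939.SSE.Verts

/-!
The local structure of the sets given by labelings.
-/

set_option linter.unusedSectionVars false
set_option linter.unusedSimpArgs false
set_option linter.unusedVariables false

namespace Pool.Agent.W939.SSE

open Finset Pool.Agent.W939.PC

section local_structure

variable {N q mb k : ℕ}

/-- The constraints as constraints of a unique game. -/
def ug (τ : Fin mb × Fin k → Zt N q) (i : Fin mb × Fin k) : Con N q :=
  ((τ i).1.1, (τ i).1.2, (τ i).2)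

theorem expd_ug {s : ℕ} {τ : Fin mb × Fin k → Zt N q} (h : Expd (om τ) s) :
    Expd (posU (ug τ) id) s := by
  intro T hT
  refine (h T hT).trans ?_
  have h1 : vert (om τ) T ⊆ (vert (posU (ug τ) id) T).image (Sum.elim id id) := by
    intro v hv
    obtain ⟨b, hb, p, hp⟩ := (mem_vert (om τ)).1 hv
    rw [mem_image]
    refine ⟨posU (ug τ) id b p, (mem_vert _).2 ⟨b, hb, p, rfl⟩, ?_⟩
    rw [← hp]
    obtain ⟨i, c⟩ := p
    cases c
    · simp [posU, om, ug]
    · simp [posU, om, ug]
  have h2 := (Finset.card_le_card h1).trans Finset.card_image_le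
  omega

open Classical in
/-- The block of an edge; the other edges have blocks of their own. -/
noncomputable def key (τ : Fin mb × Fin k → Zt N q)
    (E : Finset ((Fin N × Fin q) × (Fin N × Fin q)))
    (e : (Fin N × Fin q) × (Fin N × Fin q)) : ℕ :=
  if h : ∃ p, lift τ p = e then (h.choose.1.1 : ℕ)
  else if h' : e ∈ E \ E0 τ then mb + ((E \ E0 τ).equivFin ⟨e, h'⟩ : ℕ) else 0

theorem key_main {τ : Fin mb × Fin k → Zt N q} {E : Finset ((Fin N × Fin q) × (Fin N × Fin q))}
    {e : (Fin N × Fin q) × (Fin N × Fin q)} (he : e ∈ E) (h : key τ E e < mb) :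
    ∃ p : (Fin mb × Fin k) × Fin q, lift τ p = e ∧ (p.1.1 : ℕ) = key τ E e := by
  unfold key at h ⊢
  by_cases h1 : ∃ p, lift τ p = e
  · rw [dif_pos h1] at h ⊢
    exact ⟨h1.choose, h1.choose_spec, rfl⟩
  · rw [dif_neg h1] at h
    have h2 : e ∈ E \ E0 τ := by
      rw [mem_sdiff]
      refine ⟨he, ?_⟩
      intro h3
      obtain ⟨p, _, hp⟩ := mem_image.1 h3
      exact h1 ⟨p, hp⟩
    rw [dif_pos h2] at h
    omega

theorem key_other {τ : Fin mb × Fin k → Zt N q} {E : Finset ((Fin N × Fin q) × (Fin N × Fin q))}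
    {e e' : (Fin N × Fin q) × (Fin N × Fin q)} (he : e ∈ E) (he' : e' ∈ E)
    (h : mb ≤ key τ E e) (heq : key τ E e' = key τ E e) : e' = e := by
  have key1 : ∀ e ∈ E, mb ≤ key τ E e → ∃ h2 : e ∈ E \ E0 τ,
      key τ E e = mb + ((E \ E0 τ).equivFin ⟨e, h2⟩ : ℕ) := by
    intro e he h
    unfold key at h ⊢
    by_cases h1 : ∃ p, lift τ p = e
    · rw [dif_pos h1] at h
      have := h1.choose.1.1.2
      omega
    · rw [dif_neg h1] at h ⊢
      have h2 : e ∈ E \ E0 τ := by
        rw [mem_sdiff]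
        refine ⟨he, ?_⟩
        intro h3
        obtain ⟨p, _, hp⟩ := mem_image.1 h3
        exact h1 ⟨p, hp⟩
      exact ⟨h2, by rw [dif_pos h2]⟩
  obtain ⟨a1, a2⟩ := key1 e he h
  obtain ⟨b1, b2⟩ := key1 e' he' (by omega)
  have h3 : (((E \ E0 τ).equivFin ⟨e', b1⟩ : Fin _) : ℕ) = ((E \ E0 τ).equivFin ⟨e, a1⟩ : ℕ) := by
    omega
  have h4 := (E \ E0 τ).equivFin.injective (Fin.ext h3)
  exact congrArg Subtype.val h4

theorem key_lt {τ : Fin mb × Fin k → Zt N q} {E : Finset ((Fin N × Fin q) × (Fin N × Fin q))}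
    {e : (Fin N × Fin q) × (Fin N × Fin q)} (he : e ∈ E) :
    key τ E e < mb + (E \ E0 τ).card := by
  unfold key
  by_cases h1 : ∃ p, lift τ p = e
  · rw [dif_pos h1]
    have := h1.choose.1.1.2
    omega
  · rw [dif_neg h1]
    have h2 : e ∈ E \ E0 τ := by
      rw [mem_sdiff]
      refine ⟨he, ?_⟩
      intro h3
      obtain ⟨p, _, hp⟩ := mem_image.1 h3
      exact h1 ⟨p, hp⟩
    rw [dif_pos h2]
    have := ((E \ E0 τ).equivFin ⟨e, h2⟩).2
    omega

/-- The end points of an edge as numbers. -/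
def en (e : (Fin N × Fin q) × (Fin N × Fin q)) : Fin ((N + N) * q) × Fin ((N + N) * q) :=
  (nv (Sum.inl e.1.1, e.1.2), nv (Sum.inr e.2.1, e.2.2))

/-- The block of a position in the order of the edges. -/
noncomputable def kap (τ : Fin mb × Fin k → Zt N q)
    (E : Finset ((Fin N × Fin q) × (Fin N × Fin q)))
    (f : Fin E.card → (Fin N × Fin q) × (Fin N × Fin q)) (i : ℕ) : ℕ :=
  if h : i < E.card then key τ E (f ⟨i, h⟩) else mb + (E \ E0 τ).card

/-- The vertices of a block. -/
noncomputable def dkL (τ : Fin mb × Fin k → Zt N q)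
    (E : Finset ((Fin N × Fin q) × (Fin N × Fin q))) (b : ℕ) : Finset (Fin N ⊕ Fin N) :=
  if h : b < mb then univ.image (posU (ug τ) id ⟨b, h⟩)
  else (E.filter (fun e => key τ E e = b)).biUnion (fun e => {Sum.inl e.1.1, Sum.inr e.2.1})

variable {τ : Fin mb × Fin k → Zt N q} {E : Finset ((Fin N × Fin q) × (Fin N × Fin q))}
  {f : Fin E.card → (Fin N × Fin q) × (Fin N × Fin q)}

theorem kap_mono (hmem : ∀ e, e ∈ E ↔ ∃ i, f i = e)
    (hmono : ∀ i j, i ≤ j → key τ E (f i) ≤ key τ E (f j)) : Monotone (kap τ E f) := by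
  intro i j hij
  unfold kap
  by_cases hj : j < E.card
  · rw [dif_pos hj, dif_pos (lt_of_le_of_lt hij hj)]
    exact hmono _ _ hij
  · rw [dif_neg hj]
    by_cases hi : i < E.card
    · rw [dif_pos hi]
      exact (key_lt ((hmem _).2 ⟨_, rfl⟩)).le
    · rw [dif_neg hi]

theorem kap_val (l : Fin E.card) : kap τ E f l = key τ E (f l) := by
  unfold kap
  rw [dif_pos l.2]

theorem kap_last : kap τ E f E.card = mb + (E \ E0 τ).card := by
  unfold kap
  rw [dif_neg (lt_irrefl _)]

theorem kap_lt (hmem : ∀ e, e ∈ E ↔ ∃ i, f i = e) (l : Fin E.card) :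
    kap τ E f l < kap τ E f E.card := by
  rw [kap_val, kap_last]
  exact key_lt ((hmem _).2 ⟨_, rfl⟩)

theorem card_dkL (hk : 1 ≤ k) (b : ℕ) : (dkL τ E b).card ≤ 2 * k := by
  unfold dkL
  split_ifs with h
  · refine Finset.card_image_le.trans ?_
    rw [Finset.card_univ]
    simp
    omega
  · have h1 : (E.filter (fun e => key τ E e = b)).card ≤ 1 := by
      rw [Finset.card_le_one]
      intro e he e' he'
      rw [mem_filter] at he he'
      have h2 : mb ≤ key τ E e := by rw [he.2]; omega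
      exact (key_other he.1 he'.1 h2 (by rw [he.2, he'.2])).symm
    refine (Finset.card_biUnion_le_card_mul _ _ 2 (fun e _ => Finset.card_le_two)).trans ?_
    omega

theorem ends_mem (hmem : ∀ e, e ∈ E ↔ ∃ i, f i = e) (l : Fin E.card) :
    Sum.inl (f l).1.1 ∈ dkL τ E (kap τ E f l) ∧ Sum.inr (f l).2.1 ∈ dkL τ E (kap τ E f l) := by
  have he : f l ∈ E := (hmem _).2 ⟨_, rfl⟩
  rw [kap_val]
  unfold dkL
  by_cases h : key τ E (f l) < mb
  · rw [dif_pos h]
    obtain ⟨p, hp, hp2⟩ := key_main he h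
    have hb : (⟨key τ E (f l), h⟩ : Fin mb) = p.1.1 := Fin.ext hp2.symm
    rw [hb, ← hp]
    constructor
    · rw [mem_image]
      exact ⟨(p.1.2, false), mem_univ _, by simp [posU, ug, lift]⟩
    · rw [mem_image]
      exact ⟨(p.1.2, true), mem_univ _, by simp [posU, ug, lift]⟩
  · rw [dif_neg h]
    constructor
    · rw [mem_biUnion]
      exact ⟨f l, mem_filter.2 ⟨he, rfl⟩, by simp⟩
    · rw [mem_biUnion]
      exact ⟨f l, mem_filter.2 ⟨he, rfl⟩, by simp⟩

theorem locE (hmem : ∀ e, e ∈ E ↔ ∃ i, f i = e) :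
    LocE (fun l => en (f l)) (fun l (y : Fin N ⊕ Fin N → Fin q) => MemL l y) (kap τ E f)
      (dmL (N := N) (q := q)) (dkL τ E) where
  mem := by
    intro l y y' h
    unfold MemL
    have hq := q_pos l
    have hd : (l : ℕ) / q < N + N := by rw [Nat.div_lt_iff_lt_mul hq]; exact l.2
    have : (vn l).1 ∈ dmL (N := N) (q := q) l := by
      unfold dmL
      rw [dif_pos hd, vn_fst l hd]
      simp
    rw [h _ this]
  cnt := by
    intro i y y' hi h
    rw [cb_memL y i hi, cb_memL y' i hi]
    congr 1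
    have : (∃ h : i / q < N + N,
        ((y (finSumFinEquiv.symm ⟨i / q, h⟩) : Fin q) : ℕ) < i % q) ↔
        (∃ h : i / q < N + N,
        ((y' (finSumFinEquiv.symm ⟨i / q, h⟩) : Fin q) : ℕ) < i % q) := by
      constructor
      · rintro ⟨h1, h2⟩
        refine ⟨h1, ?_⟩
        rw [← h _ (by unfold dmL; rw [dif_pos h1]; simp)]
        exact h2
      · rintro ⟨h1, h2⟩
        refine ⟨h1, ?_⟩
        rw [h _ (by unfold dmL; rw [dif_pos h1]; simp)]
        exact h2
    simp only [this]
  fst := by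
    intro l y y' h
    simp only [en, memL_nv]
    rw [h _ (ends_mem hmem l).1]
  snd := by
    intro l y y' h
    simp only [en, memL_nv]
    rw [h _ (ends_mem hmem l).2]

/-- The positions of a main block, as pairs of a constraint and a label. -/
theorem exists_rep (hmem : ∀ e, e ∈ E ↔ ∃ i, f i = e) (b : Fin mb) (l : Fin E.card)
    (hl : kap τ E f l = b) : ∃ p : Fin k × Fin q, lift τ ((b, p.1), p.2) = f l := by
  rw [kap_val] at hl
  obtain ⟨p, hp, hp2⟩ := key_main ((hmem _).2 ⟨l, rfl⟩ : f l ∈ E) (by rw [hl]; exact b.2)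
  refine ⟨(p.1.2, p.2), ?_⟩
  have : p.1.1 = b := Fin.ext (by rw [hp2, hl])
  rw [← this]
  exact hp

theorem satE (hinj : Function.Injective f) (hmem : ∀ e, e ∈ E ↔ ∃ i, f i = e) (b : Fin mb)
    (y : Fin N ⊕ Fin N → Fin q) (hs : satU (ug τ) id b y) :
    (univ.filter (fun l : Fin E.card => kap τ E f l = b ∧
      Cut (fun l => en (f l)) (fun l (y : Fin N ⊕ Fin N → Fin q) => MemL l y) l y)).card ≤ 4 := by
  classical
  unfold satU at hs
  rcases Finset.eq_empty_or_nonempty (univ.filter (fun l : Fin E.card => kap τ E f l = b ∧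
      Cut (fun l => en (f l)) (fun l (y : Fin N ⊕ Fin N → Fin q) => MemL l y) l y)) with h0 | h0
  · rw [h0]; simp
  obtain ⟨l0, hl0⟩ := h0
  obtain ⟨p0, _⟩ := exists_rep hmem b l0 (mem_filter.1 hl0).2.1
  let g : Fin E.card → Fin k × Fin q := fun l =>
    if h : kap τ E f l = b then (exists_rep hmem b l h).choose else p0
  have hg : ∀ l : Fin E.card, kap τ E f l = b → lift τ ((b, (g l).1), (g l).2) = f l := by
    intro l h
    have h1 := (exists_rep hmem b l h).choose_spec
    simp only [g, dif_pos h]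
    exact h1
  have h1 : (univ.filter (fun l : Fin E.card => kap τ E f l = b ∧
      Cut (fun l => en (f l)) (fun l (y : Fin N ⊕ Fin N → Fin q) => MemL l y) l y)).card ≤
      ((univ.filter (fun i : Fin k => Vio (ug τ (id (b, i))) y)) ×ˢ
        (univ : Finset Bool)).card := by
    apply Finset.card_le_card_of_injOn
      (fun l => ((g l).1, decide (y (Sum.inl (f l).1.1) = (f l).1.2)))
    · intro l hl
      rw [coe_filter] at hl
      obtain ⟨_, hl1, hl2⟩ := hl
      rw [mem_coe, mem_product]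
      refine ⟨mem_filter.2 ⟨mem_univ _, ?_⟩, mem_univ _⟩
      intro hv
      apply hl2
      have h2 := hg l hl1
      simp only [en, memL_nv, ← h2, lift]
      simp only [ug, id] at hv
      rw [← hv]
      constructor
      · intro h; rw [h]
      · intro h; exact (τ (b, (g l).1)).2.injective h
    · intro l hl l' hl' h
      rw [coe_filter] at hl hl'
      obtain ⟨_, hl1, hl2⟩ := hl
      obtain ⟨_, hl1', hl2'⟩ := hl'
      have h2 := hg l hl1
      have h2' := hg l' hl1'
      simp only [Prod.mk.injEq, decide_eq_decide] at h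
      obtain ⟨h3, h4⟩ := h
      apply hinj
      rw [← h2, ← h2', h3]
      have h5 : (g l).2 = (g l').2 := by
        simp only [Cut, en, memL_nv] at hl2 hl2'
        rw [← h2, ← h2'] at h4
        rw [← h2] at hl2
        rw [← h2'] at hl2'
        simp only [lift, h3] at h4 hl2 hl2'
        by_cases ha : y (Sum.inl (τ (b, (g l').1)).1.1) = (g l).2
        · rw [← ha, ← h4.1 ha]
        · have hb : ¬ y (Sum.inl (τ (b, (g l').1)).1.1) = (g l').2 := fun h' => ha (h4.2 h')
          have hc : y (Sum.inr (τ (b, (g l').1)).1.2) = (τ (b, (g l').1)).2 (g l).2 := by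
            by_contra hc
            exact hl2 ⟨fun h' => absurd h' ha, fun h' => absurd h' hc⟩
          have hd : y (Sum.inr (τ (b, (g l').1)).1.2) = (τ (b, (g l').1)).2 (g l').2 := by
            by_contra hd
            exact hl2' ⟨fun h' => absurd h' hb, fun h' => absurd h' hd⟩
          exact (τ (b, (g l').1)).2.injective (hc.symm.trans hd)
      rw [h5]
  rw [card_product, card_univ, Fintype.card_bool] at h1
  omega

/-- The other blocks have one edge. -/
theorem smallE (hinj : Function.Injective f) (hmem : ∀ e, e ∈ E ↔ ∃ i, f i = e)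
    (i : Fin E.card) (hi : mb ≤ kap τ E f i) :
    (univ.filter (fun l : Fin E.card => kap τ E f l = kap τ E f i)).card ≤ 1 := by
  rw [Finset.card_le_one]
  intro l hl l' hl'
  rw [mem_filter] at hl hl'
  rw [kap_val] at hi
  have h1 := hl.2
  have h2 := hl'.2
  rw [kap_val, kap_val] at h1 h2
  apply hinj
  rw [key_other ((hmem _).2 ⟨i, rfl⟩) ((hmem _).2 ⟨l, rfl⟩) hi h1,
    key_other ((hmem _).2 ⟨i, rfl⟩) ((hmem _).2 ⟨l', rfl⟩) hi h2]

/-- The blocks have at most `k * q` edges. -/
theorem cwE_leE (hinj : Function.Injective f) (hmem : ∀ e, e ∈ E ↔ ∃ i, f i = e) (hk : 1 ≤ k)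
    (hq : 1 ≤ q) (i : ℕ) (y : Fin N ⊕ Fin N → Fin q) :
    cwE (fun l => en (f l)) (fun l (y : Fin N ⊕ Fin N → Fin q) => MemL l y) (kap τ E f) i y ≤
      k * q := by
  classical
  have hkq : 1 ≤ k * q := Nat.mul_pos hk hq
  have h1 : cwE (fun l => en (f l)) (fun l (y : Fin N ⊕ Fin N → Fin q) => MemL l y)
      (kap τ E f) i y ≤ (univ.filter (fun l : Fin E.card => kap τ E f l = kap τ E f i)).card := by
    unfold cwE
    apply Finset.card_le_card
    intro l hl
    rw [mem_filter] at hl ⊢
    exact ⟨hl.1, hl.2.1⟩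
  refine h1.trans ?_
  rcases Finset.eq_empty_or_nonempty
    (univ.filter (fun l : Fin E.card => kap τ E f l = kap τ E f i)) with h0 | h0
  · rw [h0]; simp
  obtain ⟨l0, hl0⟩ := h0
  rw [mem_filter] at hl0
  rw [← hl0.2]
  by_cases hb : kap τ E f l0 < mb
  · have h2 : (univ.filter (fun l : Fin E.card => kap τ E f l = kap τ E f l0)).card ≤
        ((univ : Finset (Fin k × Fin q)).image
          (fun p => lift τ (((⟨kap τ E f l0, hb⟩ : Fin mb), p.1), p.2))).card := by
      apply Finset.card_le_card_of_injOn f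
      · intro l hl
        rw [coe_filter] at hl
        obtain ⟨p, hp⟩ := exists_rep hmem ⟨kap τ E f l0, hb⟩ l hl.2
        rw [mem_coe, mem_image]
        exact ⟨p, mem_univ _, hp⟩
      · intro l _ l' _ h
        exact hinj h
    refine h2.trans (Finset.card_image_le.trans ?_)
    rw [Finset.card_univ, Fintype.card_prod, Fintype.card_fin, Fintype.card_fin]
  · exact (smallE hinj hmem l0 (by omega)).trans hkq

end local_structure

end Pool.Agent.W939.SSE
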