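import Mathlib
import Pool.Agent.W939.SSE.Asm

/-!
The regular graph and its cuts.
-/

set_option linter.unusedSectionVars false
set_option linter.unusedSimpArgs false
set_option linter.unusedVariables false

namespace Pool.Agent.W939.SSE

open Finset Pool.Agent.W939.PC

variable {N q : ℕ}

theorem en_ne (e : (Fin N × Fin q) × (Fin N × Fin q)) : (en e).1 ≠ (en e).2 := by
  intro h
  have := nv_inj h
  simp at this

theorem en_inj {e e' : (Fin N × Fin q) × (Fin N × Fin q)} (h : en e = en e') : e = e' := by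
  simp only [en, Prod.mk.injEq] at h
  have h1 := nv_inj h.1
  have h2 := nv_inj h.2
  simp only [Prod.mk.injEq, Sum.inl.injEq, Sum.inr.injEq] at h1 h2
  exact Prod.ext (Prod.ext h1.1 h1.2) (Prod.ext h2.1 h2.2)

theorem en_swap {e e' : (Fin N × Fin q) × (Fin N × Fin q)} (h : (en e).1 = (en e').2) :
    False := by
  have := nv_inj h
  simp at this

/-- The graph of a set of edges. -/
def gph (E : Finset ((Fin N × Fin q) × (Fin N × Fin q))) : SimpleGraph (Fin ((N + N) * q)) where
  Adj x y := ∃ e ∈ E, (x, y) = en e ∨ (y, x) = en e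
  symm := ⟨fun x y ⟨e, he, h⟩ => ⟨e, he, h.symm⟩⟩
  loopless := ⟨fun x ⟨e, he, h⟩ => by
    have h1 : (x, x) = en e := by rcases h with h | h <;> exact h
    apply en_ne e
    rw [← h1]⟩

theorem ncard_gph {d : ℕ} (E : Finset ((Fin N × Fin q) × (Fin N × Fin q)))
    (hl : ∀ x, dgl E x = d) (hr : ∀ y, dgr E y = d) (x : Fin ((N + N) * q)) :
    ((gph E).neighborSet x).ncard = d := by
  classical
  obtain ⟨⟨v, a⟩, rfl⟩ : ∃ v, nv v = x := ⟨vn x, nv_vn x⟩
  rcases v with u | w
  · have h1 : (gph E).neighborSet (nv (Sum.inl u, a)) =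
        ((E.filter (fun e => e.1 = (u, a))).image (fun e => (en e).2) : Finset _) := by
      ext y
      simp only [SimpleGraph.mem_neighborSet, gph, coe_image, coe_filter, Set.mem_image,
        Set.mem_ofPred_eq]
      constructor
      · rintro ⟨e, he, h | h⟩
        · refine ⟨e, ⟨he, ?_⟩, by rw [← h]⟩
          have h2 : nv (Sum.inl u, a) = (en e).1 := by rw [← h]
          have h3 := nv_inj h2
          simp only [Prod.mk.injEq, Sum.inl.injEq] at h3
          exact Prod.ext h3.1.symm h3.2.symm
        · exfalso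
          have h2 : nv (Sum.inl u, a) = (en e).2 := by rw [← h]
          have h3 := nv_inj h2
          simp at h3
      · rintro ⟨e, ⟨he, h2⟩, rfl⟩
        refine ⟨e, he, Or.inl ?_⟩
        apply Prod.ext
        · simp only [en, h2]
        · rfl
    rw [h1, Set.ncard_coe_finset, Finset.card_image_of_injOn]
    · exact hl (u, a)
    · intro e he e' he' h
      rw [coe_filter] at he he'
      have h3 := nv_inj h
      simp only [Prod.mk.injEq, Sum.inr.injEq] at h3
      exact Prod.ext (he.2.trans he'.2.symm) (Prod.ext h3.1 h3.2)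
  · have h1 : (gph E).neighborSet (nv (Sum.inr w, a)) =
        ((E.filter (fun e => e.2 = (w, a))).image (fun e => (en e).1) : Finset _) := by
      ext y
      simp only [SimpleGraph.mem_neighborSet, gph, coe_image, coe_filter, Set.mem_image,
        Set.mem_ofPred_eq]
      constructor
      · rintro ⟨e, he, h | h⟩
        · exfalso
          have h2 : nv (Sum.inr w, a) = (en e).1 := by rw [← h]
          have h3 := nv_inj h2
          simp at h3
        · refine ⟨e, ⟨he, ?_⟩, by rw [← h]⟩
          have h2 : nv (Sum.inr w, a) = (en e).2 := by rw [← h]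
          have h3 := nv_inj h2
          simp only [Prod.mk.injEq, Sum.inr.injEq] at h3
          exact Prod.ext h3.1.symm h3.2.symm
      · rintro ⟨e, ⟨he, h2⟩, rfl⟩
        refine ⟨e, he, Or.inr ?_⟩
        apply Prod.ext
        · rfl
        · simp only [en, h2]
    rw [h1, Set.ncard_coe_finset, Finset.card_image_of_injOn]
    · exact hr (w, a)
    · intro e he e' he' h
      rw [coe_filter] at he he'
      have h3 := nv_inj h
      simp only [Prod.mk.injEq, Sum.inl.injEq] at h3
      exact Prod.ext (Prod.ext h3.1 h3.2) (he.2.trans he'.2.symm)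

/-- The left part of a set of vertices. -/
def lpart (S : Finset (Fin ((N + N) * q))) : Finset (Fin N × Fin q) :=
  univ.filter (fun x => nv (Sum.inl x.1, x.2) ∈ S)

/-- The right part of a set of vertices. -/
def rpart (S : Finset (Fin ((N + N) * q))) : Finset (Fin N × Fin q) :=
  univ.filter (fun x => nv (Sum.inr x.1, x.2) ∈ S)

theorem card_parts (S : Finset (Fin ((N + N) * q))) :
    (lpart S).card + (rpart S).card = S.card := by
  classical
  have h1 : S = (lpart S).image (fun x => nv (Sum.inl x.1, x.2)) ∪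
      (rpart S).image (fun x => nv (Sum.inr x.1, x.2)) := by
    ext x
    simp only [lpart, rpart, mem_union, mem_image, mem_filter, mem_univ, true_and]
    constructor
    · intro hx
      obtain ⟨⟨v, a⟩, rfl⟩ : ∃ v, nv v = x := ⟨vn x, nv_vn x⟩
      rcases v with u | w
      · exact Or.inl ⟨(u, a), hx, rfl⟩
      · exact Or.inr ⟨(w, a), hx, rfl⟩
    · rintro (⟨y, hy, rfl⟩ | ⟨y, hy, rfl⟩)
      · exact hy
      · exact hy
  have h2 : Disjoint ((lpart S).image (fun x => nv (Sum.inl x.1, x.2)))
      ((rpart S).image (fun x => nv (Sum.inr x.1, x.2))) := by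
    rw [Finset.disjoint_left]
    intro x hx hx'
    obtain ⟨y, _, rfl⟩ := mem_image.1 hx
    obtain ⟨y', _, h⟩ := mem_image.1 hx'
    have := nv_inj h
    simp at this
  have h3 := congrArg Finset.card h1
  rw [Finset.card_union_of_disjoint h2, Finset.card_image_of_injective,
    Finset.card_image_of_injective] at h3
  · exact h3.symm
  · intro x x' h
    have h4 := nv_inj h
    simp only [Prod.mk.injEq, Sum.inr.injEq] at h4
    exact Prod.ext h4.1 h4.2
  · intro x x' h
    have h4 := nv_inj h
    simp only [Prod.mk.injEq, Sum.inl.injEq] at h4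
    exact Prod.ext h4.1 h4.2

/-- The number of cut edges of a set. -/
theorem cut_count {d : ℕ} (E : Finset ((Fin N × Fin q) × (Fin N × Fin q)))
    (hl : ∀ x, dgl E x = d) (hr : ∀ y, dgr E y = d) (S : Finset (Fin ((N + N) * q))) :
    d * S.card = (E.filter (fun e => ¬ ((en e).1 ∈ S ↔ (en e).2 ∈ S))).card +
      2 * (E.filter (fun e => e.1 ∈ lpart S ∧ e.2 ∈ rpart S)).card := by
  classical
  have hL : (E.filter (fun e => e.1 ∈ lpart S)).card = d * (lpart S).card := by
    rw [Finset.card_eq_sum_card_fiberwise (f := fun e => e.1) (t := lpart S)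
      (fun e he => by rw [coe_filter] at he; exact he.2)]
    rw [Finset.sum_congr rfl (fun x hx => ?_), Finset.sum_const, smul_eq_mul, Nat.mul_comm]
    rw [← hl x]
    unfold dgl
    congr 1
    ext e
    simp only [mem_filter]
    constructor
    · rintro ⟨⟨h1, h2⟩, h3⟩; exact ⟨h1, h3⟩
    · rintro ⟨h1, h3⟩; exact ⟨⟨h1, by rw [h3]; exact hx⟩, h3⟩
  have hR : (E.filter (fun e => e.2 ∈ rpart S)).card = d * (rpart S).card := by
    rw [Finset.card_eq_sum_card_fiberwise (f := fun e => e.2) (t := rpart S)
      (fun e he => by rw [coe_filter] at he; exact he.2)]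
    rw [Finset.sum_congr rfl (fun x hx => ?_), Finset.sum_const, smul_eq_mul, Nat.mul_comm]
    rw [← hr x]
    unfold dgr
    congr 1
    ext e
    simp only [mem_filter]
    constructor
    · rintro ⟨⟨h1, h2⟩, h3⟩; exact ⟨h1, h3⟩
    · rintro ⟨h1, h3⟩; exact ⟨⟨h1, by rw [h3]; exact hx⟩, h3⟩
  have h1 : (E.filter (fun e => e.1 ∈ lpart S)).card + (E.filter (fun e => e.2 ∈ rpart S)).card =
      (E.filter (fun e => ¬ ((en e).1 ∈ S ↔ (en e).2 ∈ S))).card +
      2 * (E.filter (fun e => e.1 ∈ lpart S ∧ e.2 ∈ rpart S)).card := by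
    rw [Finset.card_filter, Finset.card_filter, Finset.card_filter, Finset.card_filter,
      Finset.mul_sum, ← Finset.sum_add_distrib, ← Finset.sum_add_distrib]
    apply Finset.sum_congr rfl
    intro e _
    have a1 : (en e).1 ∈ S ↔ e.1 ∈ lpart S := by simp [lpart, en]
    have a2 : (en e).2 ∈ S ↔ e.2 ∈ rpart S := by simp [rpart, en]
    simp only [a1, a2]
    by_cases h1 : e.1 ∈ lpart S <;> by_cases h2 : e.2 ∈ rpart S <;> simp [h1, h2]
  rw [← card_parts S, Nat.mul_add, ← hL, ← hR, h1]

/-- The cut edges in terms of an enumeration. -/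
theorem cut_enum (E : Finset ((Fin N × Fin q) × (Fin N × Fin q)))
    (f : Fin E.card → (Fin N × Fin q) × (Fin N × Fin q)) (hinj : Function.Injective f)
    (hmem : ∀ e, e ∈ E ↔ ∃ i, f i = e) (S : Finset (Fin ((N + N) * q))) :
    (univ.filter (fun i => ¬ ((en (f i)).1 ∈ S ↔ (en (f i)).2 ∈ S))).card =
      (E.filter (fun e => ¬ ((en e).1 ∈ S ↔ (en e).2 ∈ S))).card := by
  classical
  rw [← Finset.card_image_of_injective _ hinj]
  congr 1
  ext e
  simp only [mem_image, mem_filter, mem_univ, true_and]
  constructor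
  · rintro ⟨i, hi, rfl⟩
    exact ⟨(hmem _).2 ⟨i, rfl⟩, hi⟩
  · rintro ⟨he, h⟩
    obtain ⟨i, rfl⟩ := (hmem _).1 he
    exact ⟨i, h, rfl⟩

end Pool.Agent.W939.SSE
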