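import Mathlib
import Pool.Agent.W939.SSE.Gph

/-!
Assembly of the lower bound with explicit parameters.
-/

set_option linter.unusedSectionVars false
set_option linter.unusedSimpArgs false
set_option linter.unusedVariables false

namespace Pool.Agent.W939.SSE

open Finset Pool.Agent.W939.PC

/-- `ed` lists the edges of the graph `G`, each of them once. -/
def Lists {n m : ℕ} (G : SimpleGraph (Fin n)) (ed : Fin m → Fin n × Fin n) : Prop :=
  (∀ x y, G.Adj x y ↔ ∃ i, ed i = (x, y) ∨ ed i = (y, x)) ∧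
    ∀ i j, (ed i = ed j ∨ ed i = (ed j).swap) → i = j

theorem core_sse {N q mb k Q s e μ nn : ℕ} {γ ε η : ℝ} (hN : 0 < N) (hq : 2 ≤ q) (hk : 2 ≤ k)
    (hm : mb ≤ μ * N) (hγ0 : 0 < γ) (hγ1 : γ ≤ 1)
    (hγ : γ * (4 * (μ * ((k * 2 : ℕ) : ℝ) * (((k * 2 : ℕ) : ℝ) + 1) *
      Real.exp 1 ^ (k * 2 + 1))) ≤ 1)
    (hs : ((k * 2 * s : ℕ) : ℝ) ≤ γ ^ 4 * N) (hM : mb * k = Q ^ 2 * N) (hQ : 1 ≤ Q)
    (hNQ : Q ^ 3 ≤ N) (hε : 0 < ε) (hε1 : ε ≤ 1)
    (hQε : 8 * (q : ℝ) * (q + 1) ≤ ε ^ 2 * Q ^ 2)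
    (hbig : 2 * (Q ^ 2) ^ 2 + q * (60 * N * Q) < Q ^ 2 * (N * q))
    (hη : 1 / (q : ℝ) + ε + 120 * q / Q ≤ η)
    (he1 : 2 ≤ e) (hes : 4 * (4 * e * (2 * k) + 2 * k) ≤ s) (hen : 2 * e ≤ nn)
    (hnn : 2 * ((N + N) * q + (((N + N) * q + 1) + (Q ^ 2 * (N * q) + 1) * (k * q + 1))) ≤ nn) :
    ∃ (G : SimpleGraph (Fin ((N + N) * q))) (m : ℕ)
      (ed : Fin m → Fin ((N + N) * q) × Fin ((N + N) * q)),
      (∀ x, (G.neighborSet x).ncard = Q ^ 2) ∧ Lists G ed ∧
      (∀ S : Finset (Fin ((N + N) * q)), S.card = N + N →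
        (1 - η) * ((Q ^ 2 * S.card : ℕ) : ℝ) ≤
          (univ.filter (fun i => ¬ ((ed i).1 ∈ S ↔ (ed i).2 ∈ S))).card) ∧
      ∀ (t : ℕ), 4 * (mb + 2 * (q * (60 * N * Q))) ≤ t →
      ∀ (F : Type) [Field F] (Mn : Finset (SVar ((N + N) * q) m (N + N) t →₀ ℕ)),
        Derives {p | SetAx F ed (N + N) t p} (Mn : Set (SVar ((N + N) * q) m (N + N) t →₀ ℕ)) 1 →
          (∃ x ∈ Mn, 4 * e < x.degree) ∧ Real.exp (4 * (e : ℝ) ^ 2 / (nn : ℝ)) ≤ Mn.card := by
  classical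
  have hP : Fintype.card (Fin k × Bool) = k * 2 := by simp
  obtain ⟨τ, hexp, hint, hdeg⟩ := exists_good (N := N) (q := q) (m := mb) (k := k) (s := s)
    (Q := Q) (μ := μ) (γ := γ) (ε := ε) hN hq hm hγ0 hγ1 (by rw [hP]; exact hγ)
    (by rw [hP]; exact hs) hM hQ hNQ hε hε1 hQε
  obtain ⟨E, hEl, hEr, hE0⟩ := exists_E (Q := Q) τ
    (by rw [Fintype.card_prod, Fintype.card_fin, Fintype.card_fin]; exact hM) hdeg hbig
  obtain ⟨f, hinj, hmem, hmono⟩ := exists_enum E (key τ E)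
  have hEc : E.card = Q ^ 2 * (N * q) := by
    rw [← sum_dgl E, Finset.sum_congr rfl (fun x _ => hEl x), Finset.sum_const, Finset.card_univ,
      Fintype.card_prod, Fintype.card_fin, Fintype.card_fin, smul_eq_mul, Nat.mul_comm]
  refine ⟨gph E, E.card, fun i => en (f i), ncard_gph E hEl hEr, ⟨?_, ?_⟩, ?_, ?_⟩
  · intro x y
    constructor
    · rintro ⟨e, he, h⟩
      obtain ⟨i, rfl⟩ := (hmem e).1 he
      exact ⟨i, h.imp Eq.symm Eq.symm⟩
    · rintro ⟨i, h⟩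
      exact ⟨f i, (hmem _).2 ⟨i, rfl⟩, h.imp Eq.symm Eq.symm⟩
  · intro i j h
    rcases h with h | h
    · exact hinj (en_inj h)
    · exfalso
      have h1 : (en (f i)).1 = (en (f j)).2 := by
        have := congrArg Prod.fst h
        exact this
      exact en_swap h1
  · intro S hS
    have h1 := cut_count E hEl hEr S
    have h2 := cut_enum E f hinj hmem S
    rw [h2]
    have h3 := internal_le τ E (lpart S) (rpart S)
    have h4 := hint (lpart S) (rpart S) (by rw [card_parts, hS]; ring)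
    have hQ0 : (0 : ℝ) < Q := by exact_mod_cast hQ
    have h1' : ((Q ^ 2 * S.card : ℕ) : ℝ) =
        ((E.filter (fun e => ¬ ((en e).1 ∈ S ↔ (en e).2 ∈ S))).card : ℝ) +
        2 * ((E.filter (fun e => e.1 ∈ lpart S ∧ e.2 ∈ rpart S)).card : ℝ) := by
      exact_mod_cast h1
    have h3' : ((E.filter (fun e => e.1 ∈ lpart S ∧ e.2 ∈ rpart S)).card : ℝ) ≤
        ((∑ i, Xin (lpart S) (rpart S) (τ i) : ℕ) : ℝ) + ((E \ E0 τ).card : ℝ) := by
      exact_mod_cast h3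
    have h5 : ((E \ E0 τ).card : ℝ) ≤ 2 * (q * (60 * N * Q)) := by exact_mod_cast hE0
    have h6 : ((Q ^ 2 * S.card : ℕ) : ℝ) = (Q : ℝ) ^ 2 * (2 * N) := by
      rw [hS]; push_cast; ring
    have h7 : (Q : ℝ) ^ 2 * (2 * N) * (1 / (q : ℝ) + ε + 120 * q / Q) ≤
        (Q : ℝ) ^ 2 * (2 * N) * η := mul_le_mul_of_nonneg_left hη (by positivity)
    have h8 : (Q : ℝ) ^ 2 * (2 * N) * (1 / (q : ℝ) + ε + 120 * q / Q) =
        2 * ((Q : ℝ) ^ 2 * N * (1 / q + ε)) + 2 * (2 * (q * (60 * N * Q))) := by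
      field_simp
      ring
    rw [h6] at h1' ⊢
    have h9 : (1 - η) * ((Q : ℝ) ^ 2 * (2 * N)) = (Q : ℝ) ^ 2 * (2 * N) -
      (Q : ℝ) ^ 2 * (2 * N) * η := by ring
    rw [h9]
    linarith
  · intro t ht F _ Mn hMn
    have hq0 : 0 < q := by omega
    have hE := expd_ug hexp
    have hP3 : 3 ≤ Fintype.card (Fin k × Bool) := by rw [hP]; omega
    have hes' : 4 * Fintype.card (Fin k × Bool) ≤ s := by
      rw [hP]
      refine le_trans ?_ hes
      have : 0 ≤ 4 * e * (2 * k) := Nat.zero_le _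
      omega
    have hn0 : 0 < nn := by omega
    have hkl : kap τ E f E.card = mb + (E \ E0 τ).card := kap_last
    exact lower (K := F) (⟨0, hq0⟩ : Fin q)
      (dep_ohE (R := 4) (s := N + N) (t := t) (locE hmem))
      (fun x => card_depE (fun i => (card_dmL i).trans (by omega))
        (fun b => card_dkL (by omega) b) x)
      (local_U (ug τ) id) (flexible_U (ug τ) id (⟨0, hq0⟩ : Fin q)) hE
      (actE ((N + N) * q) E.card (N + N) t (kap τ E f) 4 (k * q) (fun i => i / q))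
      (rhoE ((N + N) * q) E.card (N + N) t (kap τ E f) 4 (fun i => i / q))
      (rho_ohE (fun y i hi => cb_memL_bounds y i hi)
        (fun i y => cwE_leE hinj hmem (by omega) (by omega) i y))
      hes (card_actE.trans (by rw [hEc]; exact hnn)) hen hn0
      (Ax := {p | SetAx F (fun i => en (f i)) (N + N) t p})
      (fun p hp => (setAx_degree hp).trans (by omega))
      (fun p hp => Rd_setAx (⟨0, hq0⟩ : Fin q) (locE hmem) (local_U (ug τ) id)
        (flexible_U (ug τ) id (⟨0, hq0⟩ : Fin q)) hE hP3 hes' (kap_mono hmem hmono)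
        (kap_lt hmem) (by rw [hkl]; omega) (fun y => cb_memL_total hq0 y)
        (fun b => by unfold dkL; rw [dif_pos b.2])
        (fun b y hsat => satE hinj hmem b y hsat)
        (fun i hi => (smallE hinj hmem i hi).trans (by norm_num)) hp) Mn hMn

end Pool.Agent.W939.SSE
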