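import Mathlib
import Pool.Agent.W939.SSE.Core

/-!
Choice of the parameters.
-/

set_option linter.unusedSectionVars false
set_option linter.unusedSimpArgs false
set_option linter.unusedVariables false

namespace Pool.Agent.W939.SSE

open Finset

theorem blocks {ε : ℝ} {q : ℕ} (hε : 0 < ε) (hε1 : ε ≤ 1) (hq : 2 ≤ q) :
    ∃ k h : ℕ, 2 ≤ k ∧ 1 ≤ h ∧ 4 ≤ ε * k ∧ 480 * (q : ℝ) ≤ ε * ((k * h : ℕ) : ℝ) ∧
      (k : ℝ) ≤ 5 / ε ∧ (h : ℝ) ≤ 481 * (q / ε) := by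
  have hq' : (2 : ℝ) ≤ q := by exact_mod_cast hq
  obtain ⟨k, hkdef⟩ : ∃ k : ℕ, k = ⌈4 / ε⌉₊ := ⟨_, rfl⟩
  obtain ⟨h, hhdef⟩ : ∃ h : ℕ, h = ⌈480 * q / ε⌉₊ := ⟨_, rfl⟩
  have hk1 : 4 / ε ≤ k := by rw [hkdef]; exact Nat.le_ceil _
  have hk2 : (k : ℝ) < 4 / ε + 1 := by rw [hkdef]; exact Nat.ceil_lt_add_one (by positivity)
  have hh1 : 480 * q / ε ≤ h := by rw [hhdef]; exact Nat.le_ceil _
  have hh2 : (h : ℝ) < 480 * q / ε + 1 := by rw [hhdef]; exact Nat.ceil_lt_add_one (by positivity)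
  have h1 : 1 ≤ 1 / ε := by rw [le_div_iff₀ hε]; linarith
  have h4 : 4 / ε = 4 * (1 / ε) := by ring
  have hk4 : (4 : ℝ) ≤ k := by linarith
  have hqε : 1 ≤ (q : ℝ) / ε := by rw [le_div_iff₀ hε]; linarith
  have hh3 : (1 : ℝ) ≤ h := by
    have : 480 * (q : ℝ) / ε = 480 * (q / ε) := by ring
    linarith
  refine ⟨k, h, ?_, ?_, ?_, ?_, ?_, ?_⟩
  · have : (2 : ℝ) ≤ k := by linarith
    exact_mod_cast this
  · exact_mod_cast hh3
  · rw [div_le_iff₀ hε] at hk1; linarith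
  · rw [div_le_iff₀ hε] at hh1
    have h5 : (h : ℝ) ≤ ((k * h : ℕ) : ℝ) := by
      push_cast
      have : (1 : ℝ) ≤ k := by linarith
      nlinarith
    have h6 : ε * (h : ℝ) ≤ ε * ((k * h : ℕ) : ℝ) := mul_le_mul_of_nonneg_left h5 hε.le
    linarith
  · have : 5 / ε = 4 / ε + 1 / ε := by ring
    linarith
  · have : 481 * ((q : ℝ) / ε) = 480 * q / ε + q / ε := by ring
    linarith

/-- The constants. -/
theorem consts {ε X : ℝ} {q k h : ℕ} (hε : 0 < ε) (hε1 : ε ≤ 1) (hq : 2 ≤ q) (hk2 : 2 ≤ k)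
    (hh1 : 1 ≤ h) (hk : (k : ℝ) ≤ 5 / ε) (hh : (h : ℝ) ≤ 481 * (q / ε))
    (hX : X = q * Real.exp (1 / ε)) :
    ∃ γ β : ℝ, 0 < γ ∧ γ ≤ 1 ∧
      γ * (4 * (((k * h ^ 2 : ℕ) : ℝ) * ((k * 2 : ℕ) : ℝ) * (((k * 2 : ℕ) : ℝ) + 1) *
        Real.exp 1 ^ (k * 2 + 1))) ≤ 1 ∧
      β = γ ^ 4 / (64 * ((k * 2 : ℕ) : ℝ) ^ 2) ∧ 0 < β ∧ β ≤ 1 ∧ 1 ≤ X ∧
      2 / β ≤ X ^ 130 ∧ (((k * h) ^ 3 : ℕ) : ℝ) ≤ X ^ 130 ∧
      9 * (((k * h) ^ 2 * k * q ^ 3 : ℕ) : ℝ) * (β⁻¹) ^ 2 ≤ X ^ 300 := by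
  have hq' : (2 : ℝ) ≤ q := by exact_mod_cast hq
  have hk2' : (2 : ℝ) ≤ k := by exact_mod_cast hk2
  have hh1' : (1 : ℝ) ≤ h := by exact_mod_cast hh1
  have h1 : 1 ≤ 1 / ε := by rw [le_div_iff₀ hε]; linarith
  set Y : ℝ := Real.exp (1 / ε) with hY
  have hY1 : 1 / ε + 1 ≤ Y := Real.add_one_le_exp _
  have hYe : (2.7 : ℝ) ≤ Y := by
    have h2 : (2.7182818283 : ℝ) < Real.exp 1 := Real.exp_one_gt_d9
    have h3 : Real.exp 1 ≤ Y := Real.exp_le_exp.2 h1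
    linarith
  have hX5 : 5 ≤ X := by rw [hX]; nlinarith
  have hX1 : 1 ≤ X := by linarith
  have hX0 : 0 < X := by linarith
  have hqX : (q : ℝ) ≤ X := by rw [hX]; nlinarith
  have hYX : Y ≤ X := by rw [hX]; nlinarith
  have hεX : 1 / ε ≤ X := by linarith
  have hX2 : (25 : ℝ) ≤ X ^ 2 := by
    have := pow_le_pow_left₀ (by norm_num) hX5 2
    norm_num at this
    exact this
  have hX3 : (125 : ℝ) ≤ X ^ 3 := by
    have := pow_le_pow_left₀ (by norm_num) hX5 3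
    norm_num at this
    exact this
  have hX4 : (625 : ℝ) ≤ X ^ 4 := by
    have := pow_le_pow_left₀ (by norm_num) hX5 4
    norm_num at this
    exact this
  have hkX : (k : ℝ) ≤ X ^ 2 := by
    have h3 : 5 / ε = 5 * (1 / ε) := by ring
    have h4 : 5 * (1 / ε) ≤ X * X := mul_le_mul hX5 hεX (by positivity) hX0.le
    have h5 : X ^ 2 = X * X := by ring
    linarith
  have hqε : (q : ℝ) / ε ≤ X := by
    have : (q : ℝ) / ε = q * (1 / ε) := by ring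
    rw [this, hX]
    apply mul_le_mul_of_nonneg_left _ (by linarith)
    linarith
  have hqε0 : 0 ≤ (q : ℝ) / ε := by positivity
  have hhX : (h : ℝ) ≤ X ^ 5 := by
    refine hh.trans ?_
    have h3 : 481 * ((q : ℝ) / ε) ≤ X ^ 4 * X :=
      mul_le_mul (by linarith) hqε hqε0 (by positivity)
    refine h3.trans (le_of_eq ?_)
    ring
  set r : ℝ := ((k * 2 : ℕ) : ℝ) with hr
  have hr' : r = k * 2 := by rw [hr]; push_cast; ring
  have hr4 : 4 ≤ r := by linarith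
  have hrX : r ≤ X ^ 3 := by
    rw [hr']
    have : (k : ℝ) * 2 ≤ X ^ 2 * X := mul_le_mul hkX (by linarith) (by norm_num) (by positivity)
    refine this.trans (le_of_eq ?_)
    ring
  have hrX1 : r + 1 ≤ X ^ 3 := by
    have h3 : r ≤ 10 * (1 / ε) := by
      rw [hr']
      have : 5 / ε = 5 * (1 / ε) := by ring
      linarith
    have h4 : r + 1 ≤ 11 * (1 / ε) := by linarith
    have h5 : 11 * (1 / ε) ≤ X ^ 2 * X := mul_le_mul (by linarith) hεX (by positivity)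
      (by positivity)
    refine h4.trans (h5.trans (le_of_eq ?_))
    ring
  have hexpX : Real.exp 1 ^ (k * 2 + 1) ≤ X ^ 11 := by
    have h3 : Real.exp 1 ^ (k * 2 + 1) = Real.exp (r + 1) := by
      rw [← Real.exp_nat_mul, hr]; push_cast; ring_nf
    rw [h3]
    have h4 : r + 1 ≤ ((11 : ℕ) : ℝ) * (1 / ε) := by
      rw [hr']
      have : 5 / ε = 5 * (1 / ε) := by ring
      push_cast
      linarith
    have h5 : Real.exp (r + 1) ≤ Y ^ 11 := by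
      rw [hY, ← Real.exp_nat_mul]
      exact Real.exp_le_exp.2 h4
    exact h5.trans (pow_le_pow_left₀ (by linarith) hYX 11)
  have hμX : ((k * h ^ 2 : ℕ) : ℝ) ≤ X ^ 12 := by
    push_cast
    have h3 : (k : ℝ) * (h : ℝ) ^ 2 ≤ X ^ 2 * (X ^ 5) ^ 2 :=
      mul_le_mul hkX (pow_le_pow_left₀ (by positivity) hhX 2) (by positivity) (by positivity)
    refine h3.trans (le_of_eq ?_)
    ring
  have hμ1 : (1 : ℝ) ≤ ((k * h ^ 2 : ℕ) : ℝ) := by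
    have : 1 ≤ k * h ^ 2 := Nat.mul_pos (by omega) (by positivity)
    exact_mod_cast this
  have hexp1 : (1 : ℝ) ≤ Real.exp 1 ^ (k * 2 + 1) := by
    apply one_le_pow₀
    have := Real.add_one_le_exp (1 : ℝ); linarith
  set W : ℝ := 4 * (((k * h ^ 2 : ℕ) : ℝ) * r * (r + 1) * Real.exp 1 ^ (k * 2 + 1)) with hW
  have hW1 : 1 ≤ W := by
    have g1 : (1 : ℝ) ≤ ((k * h ^ 2 : ℕ) : ℝ) * r :=
      one_le_mul_of_one_le_of_one_le hμ1 (by linarith)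
    have g2 : (1 : ℝ) ≤ ((k * h ^ 2 : ℕ) : ℝ) * r * (r + 1) :=
      one_le_mul_of_one_le_of_one_le g1 (by linarith)
    have g3 := one_le_mul_of_one_le_of_one_le g2 hexp1
    rw [hW]; linarith
  have hWX : W ≤ X ^ 30 := by
    have g1 : ((k * h ^ 2 : ℕ) : ℝ) * r ≤ X ^ 12 * X ^ 3 :=
      mul_le_mul hμX hrX (by linarith) (by positivity)
    have g2 : ((k * h ^ 2 : ℕ) : ℝ) * r * (r + 1) ≤ X ^ 12 * X ^ 3 * X ^ 3 :=
      mul_le_mul g1 hrX1 (by linarith) (by positivity)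
    have g3 : ((k * h ^ 2 : ℕ) : ℝ) * r * (r + 1) * Real.exp 1 ^ (k * 2 + 1) ≤
        X ^ 12 * X ^ 3 * X ^ 3 * X ^ 11 := mul_le_mul g2 hexpX (by positivity) (by positivity)
    have g4 : W ≤ X * (X ^ 12 * X ^ 3 * X ^ 3 * X ^ 11) := by
      rw [hW]
      exact mul_le_mul (by linarith) g3 (by positivity) (by positivity)
    refine g4.trans (le_of_eq ?_)
    ring
  have hW0 : 0 < W := by linarith
  set γ : ℝ := W⁻¹ with hγdef
  have hγ0 : 0 < γ := inv_pos.2 hW0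
  have hγ1 : γ ≤ 1 := inv_le_one_of_one_le₀ hW1
  have hr0 : 0 < r := by linarith
  set β : ℝ := γ ^ 4 / (64 * r ^ 2) with hβ
  have hβ0 : 0 < β := by positivity
  have hβ1 : β ≤ 1 := by
    rw [hβ, div_le_one (by positivity)]
    have g1 : γ ^ 4 ≤ 1 := pow_le_one₀ hγ0.le hγ1
    have g2 : 1 ≤ r ^ 2 := one_le_pow₀ (by linarith)
    linarith
  have hβinv : β⁻¹ ≤ X ^ 129 := by
    have g1 : β⁻¹ = 64 * r ^ 2 * W ^ 4 := by
      rw [hβ, hγdef]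
      field_simp
    rw [g1]
    have g2 : (64 : ℝ) ≤ X ^ 3 := by linarith
    have g3 : 64 * r ^ 2 ≤ X ^ 3 * (X ^ 3) ^ 2 :=
      mul_le_mul g2 (pow_le_pow_left₀ hr0.le hrX 2) (by positivity) (by positivity)
    have g4 : 64 * r ^ 2 * W ^ 4 ≤ X ^ 3 * (X ^ 3) ^ 2 * (X ^ 30) ^ 4 :=
      mul_le_mul g3 (pow_le_pow_left₀ hW0.le hWX 4) (by positivity) (by positivity)
    refine g4.trans (le_of_eq ?_)
    ring
  have hQX : ((k * h : ℕ) : ℝ) ≤ X ^ 7 := by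
    push_cast
    have : (k : ℝ) * h ≤ X ^ 2 * X ^ 5 := mul_le_mul hkX hhX (by positivity) (by positivity)
    refine this.trans (le_of_eq ?_)
    ring
  refine ⟨γ, β, hγ0, hγ1, ?_, hβ, hβ0, hβ1, hX1, ?_, ?_, ?_⟩
  · rw [hγdef]; exact (inv_mul_cancel₀ hW0.ne').le
  · have g1 : 2 / β = 2 * β⁻¹ := by ring
    have g2 : 2 * β⁻¹ ≤ X * X ^ 129 :=
      mul_le_mul (by linarith) hβinv (by positivity) (by positivity)
    rw [g1]
    refine g2.trans (le_of_eq ?_)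
    ring
  · have g1 : (((k * h) ^ 3 : ℕ) : ℝ) = ((k * h : ℕ) : ℝ) ^ 3 := by push_cast; ring
    rw [g1]
    have g2 : ((k * h : ℕ) : ℝ) ^ 3 ≤ (X ^ 7) ^ 3 := pow_le_pow_left₀ (by positivity) hQX 3
    refine g2.trans ?_
    rw [← pow_mul]
    exact pow_le_pow_right₀ hX1 (by norm_num)
  · have g1 : (((k * h) ^ 2 * k * q ^ 3 : ℕ) : ℝ) = ((k * h : ℕ) : ℝ) ^ 2 * k * q ^ 3 := by
      push_cast; ring
    rw [g1]
    have g2 : ((k * h : ℕ) : ℝ) ^ 2 * k ≤ (X ^ 7) ^ 2 * X ^ 2 :=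
      mul_le_mul (pow_le_pow_left₀ (by positivity) hQX 2) hkX (by positivity) (by positivity)
    have g3 : ((k * h : ℕ) : ℝ) ^ 2 * k * q ^ 3 ≤ (X ^ 7) ^ 2 * X ^ 2 * X ^ 3 :=
      mul_le_mul g2 (pow_le_pow_left₀ (by positivity) hqX 3) (by positivity) (by positivity)
    have g4 : 9 * (((k * h : ℕ) : ℝ) ^ 2 * k * q ^ 3) ≤ X ^ 2 * ((X ^ 7) ^ 2 * X ^ 2 * X ^ 3) :=
      mul_le_mul (by linarith) g3 (by positivity) (by positivity)
    have g5 : 9 * (((k * h : ℕ) : ℝ) ^ 2 * k * q ^ 3) * (β⁻¹) ^ 2 ≤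
        X ^ 2 * ((X ^ 7) ^ 2 * X ^ 2 * X ^ 3) * (X ^ 129) ^ 2 :=
      mul_le_mul g4 (pow_le_pow_left₀ (by positivity) hβinv 2) (by positivity) (by positivity)
    refine g5.trans ?_
    have g6 : X ^ 2 * ((X ^ 7) ^ 2 * X ^ 2 * X ^ 3) * (X ^ 129) ^ 2 = X ^ 279 := by ring
    rw [g6]
    exact pow_le_pow_right₀ hX1 (by norm_num)

end Pool.Agent.W939.SSE
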