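import Mathlib
import Pool.Agent.W939.SSE.Params

/-!
The lower bound for small set expansion.
-/

set_option linter.unusedSectionVars false
set_option linter.unusedSimpArgs false
set_option linter.unusedVariables false

namespace Pool.Agent.W939.SSE

open Finset Pool.Agent.W939.PC

theorem main_sse {ε : ℝ} {q : ℕ} (hε : 0 < ε) (hε1 : ε ≤ 1) (hq : 2 ≤ q) :
    ∃ d : ℕ, 1 ≤ d ∧ (d : ℝ) ≤ (q / ε) ^ 300 ∧ ∀ N : ℕ, (q * Real.exp (1 / ε)) ^ 300 ≤ (N : ℝ) →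
      ∃ (G : SimpleGraph (Fin ((N + N) * q))) (m : ℕ)
        (ed : Fin m → Fin ((N + N) * q) × Fin ((N + N) * q)),
        (∀ x, (G.neighborSet x).ncard = d) ∧ Lists G ed ∧
        (∀ S : Finset (Fin ((N + N) * q)), S.card = N + N →
          (1 - 1 / (q : ℝ) - ε) * ((d * S.card : ℕ) : ℝ) ≤
            (univ.filter (fun i => ¬ ((ed i).1 ∈ S ↔ (ed i).2 ∈ S))).card) ∧
        ∀ (t : ℕ), ⌊ε * ((d * (N + N) : ℕ) : ℝ)⌋₊ ≤ t →
        ∀ (F : Type) [Field F] (Mn : Finset (SVar ((N + N) * q) m (N + N) t →₀ ℕ)),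
          Derives {p | SetAx F ed (N + N) t p}
            (Mn : Set (SVar ((N + N) * q) m (N + N) t →₀ ℕ)) 1 →
          (∃ x ∈ Mn, (((N + N) * q : ℕ) : ℝ) / (q * Real.exp (1 / ε)) ^ 300 ≤ x.degree) ∧
            (2 : ℝ) ^ ((((N + N) * q : ℕ) : ℝ) / (q * Real.exp (1 / ε)) ^ 300) ≤ Mn.card := by
  have hq' : (2 : ℝ) ≤ q := by exact_mod_cast hq
  obtain ⟨k, h, hk2, hh1, hk4, hQ4, hk5, hh5⟩ := blocks hε hε1 hq
  obtain ⟨X, hX⟩ : ∃ X : ℝ, X = q * Real.exp (1 / ε) := ⟨_, rfl⟩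
  obtain ⟨γ, β, hγ0, hγ1, hγ, hβ, hβ0, hβ1, hX1, hX130, hQX, hX300⟩ :=
    consts hε hε1 hq hk2 hh1 hk5 hh5 hX
  have hk2' : (2 : ℝ) ≤ k := by exact_mod_cast hk2
  have hh1' : (1 : ℝ) ≤ h := by exact_mod_cast hh1
  obtain ⟨Q, hQdef⟩ : ∃ Q : ℕ, Q = k * h := ⟨_, rfl⟩
  have hQ1 : 1 ≤ Q := by rw [hQdef]; exact Nat.mul_pos (by omega) (by omega)
  have hQ4' : 480 * (q : ℝ) ≤ ε * (Q : ℝ) := by rw [hQdef]; exact hQ4
  have hQ0 : (0 : ℝ) < Q := by exact_mod_cast hQ1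
  have hQbig : (960 : ℝ) ≤ Q := by
    have : ε * (Q : ℝ) ≤ 1 * Q := mul_le_mul_of_nonneg_right hε1 hQ0.le
    linarith
  have hQbig' : 960 ≤ Q := by exact_mod_cast hQbig
  refine ⟨Q ^ 2, Nat.one_le_pow _ _ hQ1, ?_, ?_⟩
  · -- the degree
    have hZ2 : 2 ≤ (q : ℝ) / ε := by
      rw [le_div_iff₀ hε]; linarith
    set Z : ℝ := (q : ℝ) / ε with hZ
    have h1Z : 1 / ε ≤ Z := by
      rw [hZ]; exact div_le_div_of_nonneg_right (by linarith) hε.le
    have hZ1 : 1 ≤ Z := by linarith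
    have hZ0 : 0 < Z := by linarith
    have g1 : (5 : ℝ) ≤ Z ^ 3 := by
      have := pow_le_pow_left₀ (by norm_num) hZ2 3
      norm_num at this
      linarith
    have g2 : (481 : ℝ) ≤ Z ^ 9 := by
      have := pow_le_pow_left₀ (by norm_num) hZ2 9
      norm_num at this
      linarith
    have g3 : (k : ℝ) ≤ Z ^ 4 := by
      have h1 : 5 / ε = 5 * (1 / ε) := by ring
      have h2 : 5 * (1 / ε) ≤ Z ^ 3 * Z := mul_le_mul g1 h1Z (by positivity) (by positivity)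
      have h3 : Z ^ 4 = Z ^ 3 * Z := by ring
      linarith
    have g4 : (h : ℝ) ≤ Z ^ 10 := by
      have h2 : 481 * Z ≤ Z ^ 9 * Z := mul_le_mul_of_nonneg_right g2 hZ0.le
      have h3 : Z ^ 10 = Z ^ 9 * Z := by ring
      linarith
    have g5 : (Q : ℝ) ≤ Z ^ 14 := by
      rw [hQdef]
      push_cast
      have : (k : ℝ) * h ≤ Z ^ 4 * Z ^ 10 := mul_le_mul g3 g4 (by positivity) (by positivity)
      refine this.trans (le_of_eq ?_)
      ring
    have g6 : (Q : ℝ) ^ 2 ≤ (Z ^ 14) ^ 2 := pow_le_pow_left₀ hQ0.le g5 2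
    push_cast
    refine g6.trans ?_
    rw [← pow_mul]
    exact pow_le_pow_right₀ hZ1 (by norm_num)
  intro N hNX
  rw [← hX] at hNX
  have hX0 : 0 < X := by linarith
  have hN130 : X ^ 130 ≤ (N : ℝ) := (pow_le_pow_right₀ hX1 (by norm_num)).trans hNX
  have hN1 : (1 : ℝ) ≤ N := (one_le_pow₀ hX1).trans hN130
  have hN : 0 < N := by
    have : (0 : ℝ) < N := by linarith
    exact_mod_cast this
  have hN0 : (0 : ℝ) < N := by linarith
  have hNQ : Q ^ 3 ≤ N := by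
    have : ((Q ^ 3 : ℕ) : ℝ) ≤ N := by rw [hQdef]; exact hQX.trans hN130
    exact_mod_cast this
  set r : ℝ := ((k * 2 : ℕ) : ℝ) with hr
  have hr0 : 0 < r := by
    rw [hr]
    have : 0 < k * 2 := by omega
    exact_mod_cast this
  have hr1 : 1 ≤ r := by
    rw [hr]
    have : 1 ≤ k * 2 := by omega
    exact_mod_cast this
  obtain ⟨s, hsdef⟩ : ∃ s : ℕ, s = ⌊γ ^ 4 * N / r⌋₊ := ⟨_, rfl⟩
  have hs1 : (s : ℝ) ≤ γ ^ 4 * N / r := by rw [hsdef]; exact Nat.floor_le (by positivity)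
  have hs2 : γ ^ 4 * N / r < s + 1 := by rw [hsdef]; exact Nat.lt_floor_add_one _
  obtain ⟨e, hedef⟩ : ∃ e : ℕ, e = s / (32 * (k * 2)) := ⟨_, rfl⟩
  have he1 : 32 * (k * 2) * e ≤ s := by rw [hedef]; exact Nat.mul_div_le _ _
  have he2 : s + 1 ≤ 32 * (k * 2) * (e + 1) := by
    have := Nat.lt_mul_div_succ s (show 0 < 32 * (k * 2) by omega)
    rw [← hedef] at this
    exact this
  have hβN : 2 ≤ β * N := by
    have h1 : 2 / β ≤ N := hX130.trans hN130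
    rw [div_le_iff₀ hβ0] at h1
    linarith
  have heβ : β * N ≤ e := by
    have h1 : ((s + 1 : ℕ) : ℝ) ≤ ((32 * (k * 2) * (e + 1) : ℕ) : ℝ) := by exact_mod_cast he2
    have h2 : ((32 * (k * 2) * (e + 1) : ℕ) : ℝ) = 32 * r * (e + 1) := by
      rw [hr]; push_cast; ring
    rw [h2] at h1
    push_cast at h1
    have h3 : γ ^ 4 * N / r < 32 * r * (e + 1) := by linarith
    have h4 : γ ^ 4 * N / r = 64 * r * (β * N) := by
      rw [hβ]; field_simp
    rw [h4] at h3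
    have h5 : 32 * r * (2 * (β * N)) < 32 * r * (e + 1) := by linarith
    have h6 := lt_of_mul_lt_mul_left h5 (by positivity)
    linarith
  have he2' : 2 ≤ e := by
    have : (2 : ℝ) ≤ e := hβN.trans heβ
    exact_mod_cast this
  have hsN : s ≤ N := by
    have h1 : γ ^ 4 * N / r ≤ N := by
      rw [div_le_iff₀ hr0]
      have h2 : γ ^ 4 ≤ 1 := pow_le_one₀ hγ0.le hγ1
      have h3 : γ ^ 4 * N ≤ 1 * N := mul_le_mul_of_nonneg_right h2 hN0.le
      have h4 : (N : ℝ) * 1 ≤ N * r := mul_le_mul_of_nonneg_left hr1 hN0.le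
      linarith
    exact_mod_cast hs1.trans h1
  have heN : e ≤ N := by
    have : e ≤ 32 * (k * 2) * e := Nat.le_mul_of_pos_left _ (by omega)
    omega
  obtain ⟨nn, hnndef⟩ : ∃ nn : ℕ, nn = 18 * (Q ^ 2 * k * q ^ 2) * N := ⟨_, rfl⟩
  have hQ21 : 1 ≤ Q ^ 2 := Nat.one_le_pow _ _ hQ1
  have hq21 : 1 ≤ q ^ 2 := Nat.one_le_pow _ _ (by omega)
  have hBN : N ≤ Q ^ 2 * k * q ^ 2 * N := by
    apply Nat.le_mul_of_pos_left
    have : 0 < k := by omega
    positivity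
  have hnn : 2 * ((N + N) * q + (((N + N) * q + 1) + (Q ^ 2 * (N * q) + 1) * (k * q + 1))) ≤
      nn := by
    have g1 : N * q ≤ Q ^ 2 * k * q ^ 2 * N := by
      have h1 : 1 ≤ Q ^ 2 * k * q := Nat.mul_pos (Nat.mul_pos hQ21 (by omega)) (by omega)
      calc N * q = 1 * (N * q) := (Nat.one_mul _).symm
        _ ≤ (Q ^ 2 * k * q) * (N * q) := Nat.mul_le_mul_right _ h1
        _ = Q ^ 2 * k * q ^ 2 * N := by ring
    have g2 : Q ^ 2 * (N * q) + 1 ≤ 2 * (Q ^ 2 * (N * q)) := by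
      have : 1 ≤ Q ^ 2 * (N * q) := Nat.mul_pos hQ21 (Nat.mul_pos hN (by omega))
      omega
    have g3 : k * q + 1 ≤ 2 * (k * q) := by
      have : 1 ≤ k * q := Nat.mul_pos (by omega) (by omega)
      omega
    have g4 : (Q ^ 2 * (N * q) + 1) * (k * q + 1) ≤ 4 * (Q ^ 2 * k * q ^ 2 * N) := by
      refine (Nat.mul_le_mul g2 g3).trans (le_of_eq ?_)
      ring
    have g5 : (N + N) * q = 2 * (N * q) := by ring
    have g6 : 1 ≤ N * q := Nat.mul_pos hN (by omega)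
    have g7 : nn = 18 * (Q ^ 2 * k * q ^ 2 * N) := by rw [hnndef]; ring
    rw [g5, g7]
    omega
  have hen : 2 * e ≤ nn := by
    have g7 : nn = 18 * (Q ^ 2 * k * q ^ 2 * N) := by rw [hnndef]; ring
    rw [g7]
    omega
  have hes : 4 * (4 * e * (2 * k) + 2 * k) ≤ s := by
    refine le_trans ?_ he1
    have h1 : 2 * k * 1 ≤ 2 * k * e := Nat.mul_le_mul_left _ (by omega)
    have h2 : 4 * e * (2 * k) = 4 * (2 * k * e) := by ring
    have h3 : 32 * (k * 2) * e = 32 * (2 * k * e) := by ring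
    rw [h2, h3]
    omega
  have hM : (k * h ^ 2 * N) * k = Q ^ 2 * N := by rw [hQdef]; ring
  have hQN : (0 : ℝ) < Q * N := by positivity
  have hbig : 2 * (Q ^ 2) ^ 2 + q * (60 * N * Q) < Q ^ 2 * (N * q) := by
    have g1 : 2 * (Q ^ 2) ^ 2 ≤ 1 * (N * q * Q) := by
      have h1 : 2 * (Q ^ 2) ^ 2 = 2 * Q * Q ^ 3 := by ring
      have h2 : 2 * Q * Q ^ 3 ≤ 2 * Q * N := Nat.mul_le_mul_left _ hNQ
      have h3 : 2 * Q * N = 2 * (N * Q) := by ring
      have h4 : 1 * (N * q * Q) = q * (N * Q) := by ring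
      have h5 : 2 * (N * Q) ≤ q * (N * Q) := Nat.mul_le_mul_right _ hq
      omega
    have g2 : q * (60 * N * Q) = 60 * (N * q * Q) := by ring
    have g3 : Q ^ 2 * (N * q) = Q * (N * q * Q) := by ring
    have g4 : 960 * (N * q * Q) ≤ Q * (N * q * Q) := Nat.mul_le_mul_right _ hQbig'
    have g5 : 0 < N * q * Q := Nat.mul_pos (Nat.mul_pos hN (by omega)) hQ1
    rw [g2, g3]
    omega
  have ht : 4 * (k * h ^ 2 * N + 2 * (q * (60 * N * Q))) ≤
      ⌊ε * ((Q ^ 2 * (N + N) : ℕ) : ℝ)⌋₊ := by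
    apply Nat.le_floor
    have hcast : ((4 * (k * h ^ 2 * N + 2 * (q * (60 * N * Q))) : ℕ) : ℝ) =
        4 * (k * h ^ 2 * N) + (480 * q) * (N * Q) := by push_cast; ring
    have hcast2 : ε * ((Q ^ 2 * (N + N) : ℕ) : ℝ) = ε * k * (k * h ^ 2 * N) +
        ε * Q * (N * Q) := by
      rw [hQdef]; push_cast; ring
    rw [hcast, hcast2]
    have h1 : 4 * ((k : ℝ) * h ^ 2 * N) ≤ ε * k * (k * h ^ 2 * N) :=
      mul_le_mul_of_nonneg_right hk4 (by positivity)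
    have h2 : (480 * (q : ℝ)) * (N * Q) ≤ ε * Q * (N * Q) :=
      mul_le_mul_of_nonneg_right hQ4' (by positivity)
    linarith
  have hη : 1 / (q : ℝ) + ε / 2 + 120 * q / Q ≤ 1 / (q : ℝ) + ε := by
    have h1 : 120 * (q : ℝ) / Q ≤ ε / 2 := by
      rw [div_le_iff₀ hQ0]
      have h2 : ε / 2 * (Q : ℝ) = ε * Q / 2 := by ring
      rw [h2]
      linarith
    linarith
  have hQε : 8 * (q : ℝ) * (q + 1) ≤ (ε / 2) ^ 2 * Q ^ 2 := by
    have h1 : (480 * (q : ℝ)) ^ 2 ≤ (ε * Q) ^ 2 := pow_le_pow_left₀ (by positivity) hQ4' 2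
    have h2 : (ε / 2) ^ 2 * (Q : ℝ) ^ 2 = (ε * Q) ^ 2 / 4 := by ring
    rw [h2]
    have h3 : (q : ℝ) ≤ q ^ 2 := by
      have : (q : ℝ) ^ 2 = q * q := by ring
      rw [this]
      exact le_mul_of_one_le_left (by linarith) (by linarith)
    have h4 : (480 * (q : ℝ)) ^ 2 = 230400 * q ^ 2 := by ring
    have h5 : 8 * (q : ℝ) * (q + 1) = 8 * q ^ 2 + 8 * q := by ring
    have h6 : 0 ≤ (q : ℝ) ^ 2 := by positivity
    rw [h4] at h1
    rw [h5]
    linarith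
  have hsr : ((k * 2 * s : ℕ) : ℝ) ≤ γ ^ 4 * N := by
    have h1 : ((k * 2 * s : ℕ) : ℝ) = s * r := by rw [hr]; push_cast; ring
    rw [h1]
    rw [le_div_iff₀ hr0] at hs1
    exact hs1
  obtain ⟨G, m, ed, hreg, hlist, hexp, hpcr⟩ := core_sse (N := N) (q := q) (mb := k * h ^ 2 * N)
    (k := k) (Q := Q) (s := s) (e := e) (μ := k * h ^ 2) (nn := nn) (γ := γ) (ε := ε / 2)
    (η := 1 / (q : ℝ) + ε) hN hq hk2 le_rfl hγ0 hγ1 hγ hsr hM hQ1 hNQ (by positivity)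
    (by linarith) hQε hbig hη he2' hes hen hnn
  refine ⟨G, m, ed, hreg, hlist, ?_, ?_⟩
  · intro S hS
    have h1 := hexp S hS
    have h2 : 1 - 1 / (q : ℝ) - ε = 1 - (1 / (q : ℝ) + ε) := by ring
    rw [h2]
    exact h1
  · intro t htt F _ Mn hMn
    obtain ⟨⟨x, hx, hx4⟩, hsz⟩ := hpcr t (ht.trans htt) F Mn hMn
    rw [← hX]
    obtain ⟨A, hA⟩ : ∃ A : ℕ, A = Q ^ 2 * k * q ^ 2 := ⟨_, rfl⟩
    have hA1 : 1 ≤ A := by
      rw [hA]; exact Nat.mul_pos (Nat.mul_pos hQ21 (by omega)) hq21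
    have hA1' : (1 : ℝ) ≤ A := by exact_mod_cast hA1
    have hA0 : (0 : ℝ) < A := by linarith
    have hP : 9 * (A * q) * (β⁻¹) ^ 2 ≤ X ^ 300 := by
      have h1 : (((k * h) ^ 2 * k * q ^ 3 : ℕ) : ℝ) = A * q := by
        rw [hA, hQdef]; push_cast; ring
      rw [h1] at hX300
      exact hX300
    have hP0 : 0 < 9 * ((A : ℝ) * q) * (β⁻¹) ^ 2 := by positivity
    have hkey : (((N + N) * q : ℕ) : ℝ) / X ^ 300 ≤ 2 * N * β ^ 2 / (9 * A) := by
      have h1 : (((N + N) * q : ℕ) : ℝ) / X ^ 300 ≤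
          (((N + N) * q : ℕ) : ℝ) / (9 * (A * q) * (β⁻¹) ^ 2) :=
        div_le_div_of_nonneg_left (Nat.cast_nonneg _) hP0 hP
      refine h1.trans (le_of_eq ?_)
      push_cast
      field_simp
      ring
    constructor
    · refine ⟨x, hx, ?_⟩
      have h1 : 2 * N * β ^ 2 / (9 * A) ≤ 4 * (β * N) := by
        rw [div_le_iff₀ (by positivity)]
        have h2 : β ^ 2 ≤ β := by nlinarith
        have h3 : 2 * (N : ℝ) * β ^ 2 ≤ 2 * N * β := mul_le_mul_of_nonneg_left h2 (by positivity)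
        have h4 : 0 < β * (N : ℝ) := by positivity
        have h5 : 4 * (β * N) * 9 ≤ 4 * (β * N) * (9 * A) :=
          mul_le_mul_of_nonneg_left (by linarith) (by positivity)
        have h6 : 2 * (N : ℝ) * β = 2 * (β * N) := by ring
        have h7 : 4 * (β * N) * 9 = 36 * (β * N) := by ring
        linarith
      have h2 : (4 : ℝ) * e ≤ x.degree := by
        have : 4 * e ≤ x.degree := hx4.le
        exact_mod_cast this
      linarith
    · refine le_trans ?_ hsz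
      have hnn' : (nn : ℝ) = 18 * A * N := by rw [hnndef, hA]; push_cast; ring
      have h1 : 2 * N * β ^ 2 / (9 * A) ≤ 4 * (e : ℝ) ^ 2 / nn := by
        rw [hnn', div_le_div_iff₀ (by positivity) (by positivity)]
        have h2 : (β * N) ^ 2 ≤ (e : ℝ) ^ 2 := pow_le_pow_left₀ (by positivity) heβ 2
        have h3 : 2 * N * β ^ 2 * (18 * A * N) = 36 * A * (β * N) ^ 2 := by ring
        have h4 : 4 * (e : ℝ) ^ 2 * (9 * A) = 36 * A * (e : ℝ) ^ 2 := by ring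
        rw [h3, h4]
        exact mul_le_mul_of_nonneg_left h2 (by positivity)
      have h2 : (2 : ℝ) ≤ Real.exp 1 := by
        have := Real.add_one_le_exp (1 : ℝ); linarith
      have h0 : 0 ≤ (((N + N) * q : ℕ) : ℝ) / X ^ 300 := by positivity
      calc (2 : ℝ) ^ ((((N + N) * q : ℕ) : ℝ) / X ^ 300)
          ≤ (Real.exp 1) ^ ((((N + N) * q : ℕ) : ℝ) / X ^ 300) :=
            Real.rpow_le_rpow (by norm_num) h2 h0
        _ = Real.exp ((((N + N) * q : ℕ) : ℝ) / X ^ 300) := by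
            rw [← Real.exp_mul, one_mul]
        _ ≤ Real.exp (4 * (e : ℝ) ^ 2 / nn) := Real.exp_le_exp.2 (hkey.trans h1)

end Pool.Agent.W939.SSE
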